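import Pool.Agent.SplD.Defs

/-!
# Affine transport
-/

set_option autoImplicit false

namespace Pool.Agent.SplD

open Finset Pool.Agent.Spl1 Pool.Agent.Spl2

variable {V : Type*} [Fintype V] [DecidableEq V] {K : Type*} [Field K]

/-- the linear map with matrix `l` -/
def mulL (l : Fin 4 → K) (x : K × K) : K × K := (l 0 * x.1 + l 1 * x.2, l 2 * x.1 + l 3 * x.2)

theorem mulL_sub (l : Fin 4 → K) (x y : K × K) : mulL l (x - y) = mulL l x - mulL l y := by
  ext
  · simp only [mulL, Prod.fst_sub, Prod.snd_sub]; ring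
  · simp only [mulL, Prod.fst_sub, Prod.snd_sub]; ring

theorem br_mulL (l : Fin 4 → K) (x y : K × K) :
    br (mulL l x) (mulL l y) = (l 0 * l 3 - l 1 * l 2) * br x y := by
  simp only [mulL, br]; ring

/-- the pull back of a motion -/
def thL (l : Fin 4 → K) (w : Fin 6 → K) : Fin 6 → K :=
  ![l 0 * (w 0 * l 0 ^ 2 + w 2 * l 2 ^ 2) + l 2 * (w 1 * l 0 ^ 2 + w 3 * l 2 ^ 2),
    l 1 * (w 0 * l 0 ^ 2 + w 2 * l 2 ^ 2) + l 3 * (w 1 * l 0 ^ 2 + w 3 * l 2 ^ 2),
    l 0 * (w 0 * l 1 ^ 2 + w 2 * l 3 ^ 2) + l 2 * (w 1 * l 1 ^ 2 + w 3 * l 3 ^ 2),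
    l 1 * (w 0 * l 1 ^ 2 + w 2 * l 3 ^ 2) + l 3 * (w 1 * l 1 ^ 2 + w 3 * l 3 ^ 2),
    w 4 * l 0 ^ 2 + w 5 * l 2 ^ 2, w 4 * l 1 ^ 2 + w 5 * l 3 ^ 2]

theorem cu_thL [CharP K 2] (l : Fin 4 → K) (w : Fin 6 → K) (x y : K × K) :
    cu (thL l w) x y = cu w (mulL l x) (mulL l y) := by
  simp only [cu, thL, mulL, Matrix.cons_val_zero, Matrix.cons_val_one, Matrix.cons_val]
  (rw [← sub_eq_zero]; ring_nf; try reduce_mod_char!)

theorem ad_thL [CharP K 2] (l : Fin 4 → K) (w : Fin 6 → K) (x : K × K) :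
    ad (thL l w) x = ad w (mulL l x) := by
  simp only [ad, thL, mulL, Matrix.cons_val_zero, Matrix.cons_val_one, Matrix.cons_val]
  (rw [← sub_eq_zero]; ring_nf; try reduce_mod_char!)

theorem thL_inj [CharP K 2] {l : Fin 4 → K} (hl : l 0 * l 3 - l 1 * l 2 ≠ 0) {w : Fin 6 → K}
    (h : thL l w = 0) : w = 0 := by
  obtain ⟨a, ha⟩ : ∃ a, a = mulL l (1, 0) := ⟨_, rfl⟩
  obtain ⟨b, hb⟩ : ∃ b, b = mulL l (0, 1) := ⟨_, rfl⟩
  have hab : br a b ≠ 0 := by
    rw [ha, hb, br_mulL]
    simp only [br]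
    simpa using hl
  have h0 : ∀ x y, cu w (mulL l x) (mulL l y) = 0 := by
    intro x y
    rw [← cu_thL, h, cu_zero]
  have h1 : ∀ x, ad w (mulL l x) = 0 := by
    intro x
    rw [← ad_thL, h, ad_zero]
  have g1 : ∀ y, cu w a y = 0 := by
    intro y
    have h2 := cu_pr w a b a y
    have e1 : cu w a a = 0 := by rw [ha]; exact h0 _ _
    have e2 : cu w a b = 0 := by rw [ha, hb]; exact h0 _ _
    rw [e1, e2, mul_zero, mul_zero, sub_zero] at h2
    exact (mul_eq_zero.1 h2).resolve_left hab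
  have g2 : ∀ y, cu w b y = 0 := by
    intro y
    have h2 := cu_pr w a b b y
    have e1 : cu w b a = 0 := by rw [ha, hb]; exact h0 _ _
    have e2 : cu w b b = 0 := by rw [hb]; exact h0 _ _
    rw [e1, e2, mul_zero, mul_zero, sub_zero] at h2
    exact (mul_eq_zero.1 h2).resolve_left hab
  have g3 := cu_eq_zero hab g1 g2
  have g4 := ad_eq_zero hab (by rw [ha]; exact h1 _) (by rw [hb]; exact h1 _)
  funext i
  fin_cases i
  · exact g3.1
  · exact g3.2.1
  · exact g3.2.2.1
  · exact g3.2.2.2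
  · exact g4.1
  · exact g4.2

theorem nns_aff [CharP K 2] {p : V → K × K} {E : Finset (Finset V)} {I : Finset V}
    (h : NNS p E I) {l : Fin 4 → K} (hl : l 0 * l 3 - l 1 * l 2 ≠ 0) (s : K × K) :
    NNS (fun v => s + mulL l (p v)) E I := by
  intro w hw
  have h1 : NMot p E I (fun v => thL l (w v)) := by
    refine ⟨fun v hv => ?_, fun u v huv he => ?_⟩
    · rw [hw.pin v hv]
      funext i
      fin_cases i <;> simp [thL]
    · rw [cu_thL, ad_thL, ad_thL, mulL_sub]
      have h2 := hw.eq u v huv he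
      rw [add_sub_add_left_eq_sub] at h2
      exact h2
  have h2 := h _ h1
  funext v
  exact thL_inj hl (congrFun h2 v)

theorem exists_lin {y z y' z' : K × K} (h' : br y' z' ≠ 0) :
    ∃ l : Fin 4 → K, mulL l y' = y ∧ mulL l z' = z := by
  refine ⟨![(z'.2 * y.1 - y'.2 * z.1) / br y' z', (y'.1 * z.1 - z'.1 * y.1) / br y' z',
    (z'.2 * y.2 - y'.2 * z.2) / br y' z', (y'.1 * z.2 - z'.1 * y.2) / br y' z'], ?_, ?_⟩
  · ext
    · simp only [mulL, Matrix.cons_val_zero, Matrix.cons_val_one, Matrix.cons_val]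
      field_simp
      simp only [br]
      ring
    · simp only [mulL, Matrix.cons_val_zero, Matrix.cons_val_one, Matrix.cons_val]
      field_simp
      simp only [br]
      ring
  · ext
    · simp only [mulL, Matrix.cons_val_zero, Matrix.cons_val_one, Matrix.cons_val]
      field_simp
      simp only [br]
      ring
    · simp only [mulL, Matrix.cons_val_zero, Matrix.cons_val_one, Matrix.cons_val]
      field_simp
      simp only [br]
      ring

/-- moving a position by an affine map to prescribed values on a triangle -/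
theorem exists_aff [CharP K 2] {f : Finset V} (hf : f.card = 3) {q p' : V → K × K} (hq : Ndg q f)
    (hp' : Ndg p' f) : ∃ (l : Fin 4 → K) (s : K × K), l 0 * l 3 - l 1 * l 2 ≠ 0 ∧
      ∀ v ∈ f, s + mulL l (p' v) = q v := by
  obtain ⟨a, b, c, hab, hac, hbc, rfl⟩ := Finset.card_eq_three.1 hf
  have h1 := hp' a b c (by simp) (by simp) (by simp) hab hbc hac
  have h2 := hq a b c (by simp) (by simp) (by simp) hab hbc hac
  obtain ⟨l, hl1, hl2⟩ := exists_lin (y := q b - q a) (z := q c - q a) h1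
  refine ⟨l, q a - mulL l (p' a), ?_, ?_⟩
  · intro h0
    apply h2
    rw [← hl1, ← hl2, br_mulL, h0, zero_mul]
  · intro v hv
    simp only [Finset.mem_insert, Finset.mem_singleton] at hv
    rcases hv with rfl | rfl | rfl
    · abel
    · rw [mulL_sub] at hl1
      have : q a - mulL l (p' a) + mulL l (p' v) = q a + (mulL l (p' v) - mulL l (p' a)) := by abel
      rw [this, hl1]
      abel
    · rw [mulL_sub] at hl2
      have : q a - mulL l (p' a) + mulL l (p' v) = q a + (mulL l (p' v) - mulL l (p' a)) := by abel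
      rw [this, hl2]
      abel

theorem ndg_aff {g : Finset V} {p : V → K × K} (h : Ndg p g) {l : Fin 4 → K}
    (hl : l 0 * l 3 - l 1 * l 2 ≠ 0) (s : K × K) : Ndg (fun v => s + mulL l (p v)) g := by
  intro a b c ha hb hc hab hbc hac
  dsimp only
  rw [add_sub_add_left_eq_sub, add_sub_add_left_eq_sub, ← mulL_sub, ← mulL_sub, br_mulL]
  exact mul_ne_zero hl (h a b c ha hb hc hab hbc hac)

end Pool.Agent.SplD
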