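import Pool.Agent.SplD.Cut

/-!
# Coarse complexes and the root block

`Coarse T R f D`: `R` is a sphere which contains the triangle `f`, and `T \ {f}` is the disjoint
union of regions `D g`, `g ∈ R \ {f}`, with `bdry (D g) = bdry {g}`. Every sphere has a coarse
complex all of whose 3-cycles are triangles (`exists_root`).
-/

set_option autoImplicit false

namespace Pool.Agent.SplD

open Finset Pool.Agent.Spl1 Pool.Agent.Spl2

variable {V : Type*} [Fintype V] [DecidableEq V]

/-- coarse complexes -/
structure Coarse (T R : Finset (Finset V)) (f : Finset V) (D : Finset V → Finset (Finset V)) :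
    Prop where
  sph : Sph R
  mem : f ∈ R
  sub : ∀ g ∈ R, g ≠ f → D g ⊆ T.erase f
  bd : ∀ g ∈ R, g ≠ f → bdry (D g) = bdry {g}
  dis : ∀ g ∈ R, ∀ g' ∈ R, g ≠ f → g' ≠ f → g ≠ g' → Disjoint (D g) (D g')
  cov : ∀ t ∈ T, t ≠ f → ∃ g ∈ R, g ≠ f ∧ t ∈ D g

theorem coarse_self {T : Finset (Finset V)} (h : Sph T) {f : Finset V} (hf : f ∈ T) :
    Coarse T T f (fun g => {g}) := by
  refine ⟨h, hf, ?_, ?_, ?_, ?_⟩
  · intro g hg hgf t ht
    rw [Finset.mem_singleton] at ht
    rw [ht]
    exact Finset.mem_erase.2 ⟨hgf, hg⟩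
  · intro g _ _
    rfl
  · intro g _ g' _ _ _ h1
    exact Finset.disjoint_singleton.2 h1
  · intro t ht htf
    exact ⟨t, ht, htf, Finset.mem_singleton_self t⟩

theorem insert_eq_symmDiff {α : Type*} [DecidableEq α] {t : α} {A : Finset α} (h : t ∉ A) :
    insert t A = symmDiff {t} A := by
  ext s
  rw [Finset.mem_insert, Finset.mem_symmDiff, Finset.mem_singleton]
  constructor
  · rintro (rfl | h1)
    · exact Or.inl ⟨rfl, h⟩
    · refine Or.inr ⟨h1, ?_⟩
      rintro rfl
      exact h h1
  · rintro (h1 | h1)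
    · exact Or.inl h1.1
    · exact Or.inr h1.1

theorem union_eq_symmDiff {α : Type*} [DecidableEq α] {A B : Finset α} (h : Disjoint A B) :
    A ∪ B = symmDiff A B := by
  ext s
  rw [Finset.mem_union, Finset.mem_symmDiff]
  have h1 : s ∈ A → s ∉ B := fun h2 h3 => Finset.disjoint_left.1 h h2 h3
  tauto

/-- the boundary of a union of regions -/
theorem bdry_biUnion {R A : Finset (Finset V)} {f : Finset V} {D : Finset V → Finset (Finset V)}
    (bd : ∀ g ∈ R, g ≠ f → bdry (D g) = bdry {g})
    (dis : ∀ g ∈ R, ∀ g' ∈ R, g ≠ f → g' ≠ f → g ≠ g' → Disjoint (D g) (D g'))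
    (hA : A ⊆ R) (hf : f ∉ A) : bdry (A.biUnion D) = bdry A := by
  induction A using Finset.induction_on with
  | empty => rfl
  | insert t A ht ih =>
    have h1 : t ∈ R := hA (Finset.mem_insert_self _ _)
    have h2 : t ≠ f := fun h => hf (h ▸ Finset.mem_insert_self _ _)
    have h3 : A ⊆ R := (Finset.subset_insert _ _).trans hA
    have h4 : f ∉ A := fun h => hf (Finset.mem_insert_of_mem h)
    have h5 : Disjoint (D t) (A.biUnion D) := by
      rw [Finset.disjoint_biUnion_right]
      intro g hg
      refine dis t h1 g (h3 hg) h2 (fun h => h4 (h ▸ hg)) ?_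
      rintro rfl
      exact ht hg
    rw [Finset.biUnion_insert, union_eq_symmDiff h5, bdry_symm, bd t h1 h2, ih h3 h4,
      insert_eq_symmDiff ht, bdry_symm]

/-- the root block -/
theorem exists_root {T : Finset (Finset V)} (h : Sph T) {f : Finset V} (hf : f ∈ T) :
    ∃ R D, Coarse T R f D ∧ Fac3 R := by
  classical
  have hex : ∃ n, ∃ R D, Coarse T R f D ∧ R.card = n := ⟨_, T, _, coarse_self h hf, rfl⟩
  obtain ⟨R, D, hR, hn⟩ := Nat.find_spec hex
  have hmin : ∀ R' D', Coarse T R' f D' → R.card ≤ R'.card := by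
    intro R' D' h'
    rw [hn]
    exact Nat.find_min' hex ⟨R', D', h', rfl⟩
  refine ⟨R, D, hR, ?_⟩
  intro x y z hxy hyz hxz e1 e2 e3
  by_contra hg
  have hg3 : ({x, y, z} : Finset V).card = 3 := Finset.card_eq_three.2 ⟨x, y, z, hxy, hxz, hyz, rfl⟩
  obtain ⟨A, hA, hAb, hfA⟩ : ∃ A ⊆ R, bdry A = bdry {{x, y, z}} ∧ f ∉ A := by
    obtain ⟨A, hA, hAb⟩ := hR.sph.H1 (bdry {{x, y, z}}) (by
      rw [bdry_single hxy hyz hxz]
      intro e he
      simp only [Finset.mem_insert, Finset.mem_singleton] at he
      rcases he with rfl | rfl | rfl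
      · exact e1
      · exact e2
      · exact e3) (by
      rw [bdry_single hxy hyz hxz]
      exact isCyc_triangle hxy hyz hxz)
    by_cases hfA : f ∈ A
    · refine ⟨R \ A, Finset.sdiff_subset, ?_, fun h1 => (Finset.mem_sdiff.1 h1).2 hfA⟩
      rw [hR.sph.bdry_compl hA, hAb]
    · exact ⟨A, hA, hAb, hfA⟩
  set g : Finset V := {x, y, z} with hgdef
  have hBb : bdry (R \ A) = bdry {g} := by rw [hR.sph.bdry_compl hA, hAb]
  have hR' : Sph (insert g (R \ A)) := cut hR.sph Finset.sdiff_subset hg3 hg hBb
  have hgB : g ∉ R \ A := fun h1 => hg (Finset.mem_sdiff.1 h1).1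
  have hne : g ≠ f := fun h1 => hg (h1 ▸ hR.mem)
  -- `A` has at least two triangles
  have hA2 : 1 < A.card := by
    by_contra h1
    have h2 : A.card = 0 ∨ A.card = 1 := by omega
    rcases h2 with h2 | h2
    · rw [Finset.card_eq_zero] at h2
      rw [h2, bdry_empty, hgdef, bdry_single hxy hyz hxz] at hAb
      have h3 : ({x, y} : Finset V) ∈ (∅ : Finset (Finset V)) := by
        rw [hAb]
        simp
      simp at h3
    · obtain ⟨t, ht⟩ := Finset.card_eq_one.1 h2
      rw [ht] at hAb hA
      have ht3 : t.card = 3 := hR.sph.card3 t (hA (by simp))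
      have h3 : g ⊆ t := by
        intro u hu
        have h4 : ∃ e ∈ bdry {g}, u ∈ e := by
          rw [hgdef, bdry_single hxy hyz hxz]
          rw [hgdef] at hu
          simp only [Finset.mem_insert, Finset.mem_singleton] at hu
          rcases hu with rfl | rfl | rfl
          · exact ⟨{u, y}, by simp, by simp⟩
          · exact ⟨{x, u}, by simp, by simp⟩
          · exact ⟨{y, u}, by simp, by simp⟩
        obtain ⟨e, he, hu'⟩ := h4
        rw [← hAb, mem_bdry_single ht3] at he
        exact he.2 hu'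
      have h5 : g = t := Finset.eq_of_subset_of_card_le h3 (by rw [hg3, ht3])
      exact hg (h5 ▸ hA (by simp))
  have hcard : (insert g (R \ A)).card < R.card := by
    rw [Finset.card_insert_of_notMem hgB, Finset.card_sdiff_of_subset hA]
    have := Finset.card_le_card hA
    omega
  have hco : Coarse T (insert g (R \ A)) f (fun t => if t = g then A.biUnion D else D t) := by
    refine ⟨hR', ?_, ?_, ?_, ?_, ?_⟩
    · exact Finset.mem_insert_of_mem (Finset.mem_sdiff.2 ⟨hR.mem, hfA⟩)
    · intro t ht htf
      split_ifs with h1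
      · intro s hs
        rw [Finset.mem_biUnion] at hs
        obtain ⟨a, ha, hsa⟩ := hs
        exact hR.sub a (hA ha) (fun h2 => hfA (h2 ▸ ha)) hsa
      · rw [Finset.mem_insert] at ht
        rcases ht with ht | ht
        · exact absurd ht h1
        · exact hR.sub t (Finset.mem_sdiff.1 ht).1 htf
    · intro t ht htf
      split_ifs with h1
      · rw [bdry_biUnion hR.bd hR.dis hA hfA, hAb, h1]
      · rw [Finset.mem_insert] at ht
        rcases ht with ht | ht
        · exact absurd ht h1
        · exact hR.bd t (Finset.mem_sdiff.1 ht).1 htf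
    · intro t ht t' ht' htf htf' htt
      rw [Finset.mem_insert] at ht ht'
      split_ifs with h1 h2 h2
      · exact absurd (h1.trans h2.symm) htt
      · rcases ht' with ht' | ht'
        · exact absurd ht' h2
        · rw [Finset.disjoint_biUnion_left]
          intro a ha
          refine hR.dis a (hA ha) t' (Finset.mem_sdiff.1 ht').1 (fun h3 => hfA (h3 ▸ ha)) htf' ?_
          rintro rfl
          exact (Finset.mem_sdiff.1 ht').2 ha
      · rcases ht with ht | ht
        · exact absurd ht h1
        · rw [Finset.disjoint_biUnion_right]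
          intro a ha
          refine hR.dis t (Finset.mem_sdiff.1 ht).1 a (hA ha) htf (fun h3 => hfA (h3 ▸ ha)) ?_
          rintro rfl
          exact (Finset.mem_sdiff.1 ht).2 ha
      · rcases ht with ht | ht
        · exact absurd ht h1
        · rcases ht' with ht' | ht'
          · exact absurd ht' h2
          · exact hR.dis t (Finset.mem_sdiff.1 ht).1 t' (Finset.mem_sdiff.1 ht').1 htf htf' htt
    · intro t ht htf
      obtain ⟨a, ha, haf, hta⟩ := hR.cov t ht htf
      by_cases h1 : a ∈ A
      · refine ⟨g, Finset.mem_insert_self _ _, hne, ?_⟩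
        rw [if_pos rfl]
        exact Finset.mem_biUnion.2 ⟨a, h1, hta⟩
      · refine ⟨a, Finset.mem_insert_of_mem (Finset.mem_sdiff.2 ⟨ha, h1⟩), haf, ?_⟩
        rw [if_neg (fun h2 : a = g => hg (by rw [← h2]; exact ha))]
        exact hta
  have := hmin _ _ hco
  omega

end Pool.Agent.SplD
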