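import Pool.Agent.SplD.Defs

/-!
# Vertices and edges of coarse complexes
-/

set_option autoImplicit false

namespace Pool.Agent.SplD

open Finset Pool.Agent.Spl1 Pool.Agent.Spl2

variable {V : Type*} [Fintype V] [DecidableEq V]

theorem pair_sub {x y : V} {t : Finset V} (hx : x ∈ t) (hy : y ∈ t) : ({x, y} : Finset V) ⊆ t := by
  intro z hz
  simp only [Finset.mem_insert, Finset.mem_singleton] at hz
  rcases hz with rfl | rfl
  · exact hx
  · exact hy

variable {T R : Finset (Finset V)} {f : Finset V} {D : Finset V → Finset (Finset V)}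

theorem co_sub (hc : Coarse T R f D) {g : Finset V} (hg : g ∈ R) (hgf : g ≠ f) : D g ⊆ T :=
  (hc.sub g hg hgf).trans (Finset.erase_subset _ _)

theorem co_notf (hc : Coarse T R f D) {g : Finset V} (hg : g ∈ R) (hgf : g ≠ f) : f ∉ D g :=
  fun h => (Finset.mem_erase.1 (hc.sub g hg hgf h)).1 rfl

theorem co_bd (hc : Coarse T R f D) {g : Finset V} (hg : g ∈ R) (hgf : g ≠ f) {x y : V}
    (hxy : x ≠ y) (hx : x ∈ g) (hy : y ∈ g) : ({x, y} : Finset V) ∈ edges (D g) := by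
  have h1 : ({x, y} : Finset V) ∈ bdry {g} :=
    (mem_bdry_single (hc.sph.card3 g hg)).2 ⟨Finset.card_pair hxy, pair_sub hx hy⟩
  rw [← hc.bd g hg hgf] at h1
  exact bdry_subset_edges (Finset.Subset.refl _) h1

theorem edge_mem {T : Finset (Finset V)} {x y : V} (h : ({x, y} : Finset V) ∈ edges T) :
    ∃ t ∈ T, x ∈ t ∧ y ∈ t := by
  rw [mem_edges] at h
  obtain ⟨-, t, ht, h1⟩ := h
  exact ⟨t, ht, h1 (by simp), h1 (by simp)⟩

/-- every edge of `R` is in a triangle different from `f` -/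
theorem co_other {R : Finset (Finset V)} (hR : Sph R) (f : Finset V) {x y : V}
    (h : ({x, y} : Finset V) ∈ edges R) : ∃ g ∈ R, g ≠ f ∧ x ∈ g ∧ y ∈ g := by
  obtain ⟨w, w', hww, h1, h2, h3, h4, h5, h6, h7, -⟩ := hR.link_two h
  by_cases h8 : ({x, y, w} : Finset V) = f
  · refine ⟨{x, y, w'}, h7, ?_, by simp, by simp⟩
    rintro h9
    rw [← h9] at h8
    have : w ∈ ({x, y, w'} : Finset V) := by
      rw [← h8]
      simp
    simp only [Finset.mem_insert, Finset.mem_singleton] at this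
    rcases this with h | h | h
    · exact h1 h
    · exact h2 h
    · exact hww h
  · exact ⟨{x, y, w}, h6, h8, by simp, by simp⟩

theorem exists_pair {R : Finset (Finset V)} (hR : Sph R) {t : Finset V} (ht : t ∈ R) {x : V}
    (hx : x ∈ t) : ∃ y ∈ t, x ≠ y ∧ ({x, y} : Finset V) ∈ edges R := by
  obtain ⟨y, hy, hyx⟩ := Finset.exists_mem_ne (s := t) (by rw [hR.card3 t ht]; norm_num) x
  exact ⟨y, hy, hyx.symm, edge_of_tri ht hyx.symm hx hy⟩

theorem co_edges_sub (hc : Coarse T R f D) : edges R ⊆ edges T := by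
  intro e he
  have h1 : e.card = 2 := (mem_edges.1 he).1
  obtain ⟨x, y, hxy, rfl⟩ := Finset.card_eq_two.1 h1
  obtain ⟨g, hg, hgf, hx, hy⟩ := co_other hc.sph f he
  exact edges_mono (co_sub hc hg hgf) (co_bd hc hg hgf hxy hx hy)

theorem vs_of_edge {T : Finset (Finset V)} {x y : V} (h : ({x, y} : Finset V) ∈ edges T) :
    x ∈ vs T := by
  obtain ⟨t, ht, hx, -⟩ := edge_mem h
  exact mem_vs.2 ⟨t, ht, hx⟩

theorem co_vs_sub (hc : Coarse T R f D) : vs R ⊆ vs T := by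
  intro v hv
  obtain ⟨t, ht, hvt⟩ := mem_vs.1 hv
  obtain ⟨y, -, -, he⟩ := exists_pair hc.sph ht hvt
  exact vs_of_edge (co_edges_sub hc he)

theorem co_face_vs (hc : Coarse T R f D) {g : Finset V} (hg : g ∈ R) : g ⊆ vs R :=
  fun v hv => mem_vs.2 ⟨g, hg, hv⟩

theorem co_inner (h : Sph T) (hc : Coarse T R f D) {g : Finset V} (hg : g ∈ R) (hgf : g ≠ f) {v : V}
    (hv : v ∉ g) (hne : (star (D g) v).Nonempty) : star T v ⊆ D g := by
  apply h.inside (co_sub hc hg hgf) _ hne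
  intro e he hve
  rw [hc.bd g hg hgf, mem_bdry_single (hc.sph.card3 g hg)] at he
  exact hv (he.2 hve)

theorem co_meet (h : Sph T) (hc : Coarse T R f D) {g : Finset V} (hg : g ∈ R) (hgf : g ≠ f) {v : V}
    (hv : v ∈ vs R) (hne : (star (D g) v).Nonempty) : v ∈ g := by
  by_contra hvg
  have h1 := co_inner h hc hg hgf hvg hne
  obtain ⟨t, ht, hvt⟩ := mem_vs.1 hv
  obtain ⟨y, hyt, hvy, he⟩ := exists_pair hc.sph ht hvt
  obtain ⟨t', ht', htf', hvt', hyt'⟩ := co_other hc.sph f he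
  obtain ⟨s, hs, hvs, -⟩ := edge_mem (co_bd hc ht' htf' hvy hvt' hyt')
  have h2 : s ∈ D g := h1 (mem_star.2 ⟨co_sub hc ht' htf' hs, hvs⟩)
  have h3 : t' ≠ g := fun h4 => hvg (h4 ▸ hvt')
  exact Finset.disjoint_left.1 (hc.dis t' ht' g hg htf' hgf h3) hs h2

theorem co_facial (h : Sph T) (hf : f ∈ T) (hc : Coarse T R f D) {g : Finset V} (hg : g ∈ R)
    (hgf : g ≠ f) (hgT : g ∈ T) : D g = {g} := by
  rcases h.uniq (co_sub hc hg hgf) (Finset.singleton_subset_iff.2 hgT) (hc.bd g hg hgf) with h1 | h1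
  · exact h1
  · exfalso
    apply co_notf hc hg hgf
    rw [h1, Finset.mem_sdiff, Finset.mem_singleton]
    exact ⟨hf, hgf.symm⟩

theorem co_edgeR (h : Sph T) (hc : Coarse T R f D) {x y : V}
    (he : ({x, y} : Finset V) ∈ edges T) (hx : x ∈ vs R) (hy : y ∈ vs R) :
    ({x, y} : Finset V) ∈ edges R := by
  have hxy := edge_ne he
  obtain ⟨t, ht, hxt, hyt⟩ := edge_mem he
  by_cases htf : t = f
  · exact edge_of_tri (htf ▸ hc.mem) hxy hxt hyt
  · obtain ⟨g, hg, hgf, htg⟩ := hc.cov t ht htf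
    have h1 := co_meet h hc hg hgf hx ⟨t, mem_star.2 ⟨htg, hxt⟩⟩
    have h2 := co_meet h hc hg hgf hy ⟨t, mem_star.2 ⟨htg, hyt⟩⟩
    exact edge_of_tri hg hxy h1 h2

/-- the attached spheres -/
def Tg (D : Finset V → Finset (Finset V)) (g : Finset V) : Finset (Finset V) := insert g (D g)

theorem co_sph (h : Sph T) (hc : Coarse T R f D) {g : Finset V} (hg : g ∈ R) (hgf : g ≠ f)
    (hgT : g ∉ T) : Sph (Tg D g) :=
  cut h (co_sub hc hg hgf) (hc.sph.card3 g hg) hgT (hc.bd g hg hgf)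

theorem mem_Tg (D : Finset V → Finset (Finset V)) (g : Finset V) : g ∈ Tg D g :=
  Finset.mem_insert_self _ _

theorem co_card (hf : f ∈ T) (hc : Coarse T R f D) {g : Finset V} (hg : g ∈ R)
    (hgf : g ≠ f) (hgT : g ∉ T) : (Tg D g).card < T.card := by
  have h1 : ∃ u ∈ g, u ∉ f := by
    by_contra h1
    push Not at h1
    apply hgf
    exact Finset.eq_of_subset_of_card_le h1 (by rw [hc.sph.card3 g hg, hc.sph.card3 f hc.mem])
  obtain ⟨u, hug, huf⟩ := h1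
  obtain ⟨y, hyg, huy, he⟩ := exists_pair hc.sph hg hug
  obtain ⟨g', hg', hgg', hug', hyg'⟩ := co_other hc.sph g he
  have hgf' : g' ≠ f := fun h => huf (h ▸ hug')
  obtain ⟨s, hs, -, -⟩ := edge_mem (co_bd hc hg' hgf' huy hug' hyg')
  have h2 : D g ⊆ (T.erase f).erase s := by
    intro t ht
    rw [Finset.mem_erase]
    refine ⟨?_, hc.sub g hg hgf ht⟩
    rintro rfl
    exact Finset.disjoint_left.1 (hc.dis g' hg' g hg hgf' hgf hgg') hs ht
  have h3 := Finset.card_le_card h2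
  have h4 : s ∈ T.erase f := hc.sub g' hg' hgf' hs
  rw [Finset.card_erase_of_mem h4, Finset.card_erase_of_mem hf] at h3
  have h5 : 2 ≤ T.card := by
    have h6 : ({f, s} : Finset (Finset V)) ⊆ T := by
      intro t ht
      simp only [Finset.mem_insert, Finset.mem_singleton] at ht
      rcases ht with rfl | rfl
      · exact hf
      · exact Finset.mem_of_mem_erase h4
    have h7 := Finset.card_le_card h6
    rwa [Finset.card_pair (Finset.mem_erase.1 h4).1.symm] at h7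
  have h6 : (Tg D g).card ≤ (D g).card + 1 := Finset.card_insert_le _ _
  omega

/-- the position of a vertex of `T` -/
theorem co_pos (h : Sph T) (hf : f ∈ T) (hc : Coarse T R f D) {v : V} (hv : v ∈ vs T) :
    v ∈ vs R ∨ ∃ g ∈ R, g ≠ f ∧ g ∉ T ∧ v ∉ g ∧ v ∉ vs R ∧ v ∈ vs (Tg D g) ∧ star T v ⊆ D g := by
  by_cases hvR : v ∈ vs R
  · exact Or.inl hvR
  right
  obtain ⟨t, ht, hvt⟩ := mem_vs.1 hv
  by_cases htf : t = f
  · exact absurd (mem_vs.2 ⟨f, hc.mem, htf ▸ hvt⟩) hvR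
  · obtain ⟨g, hg, hgf, htg⟩ := hc.cov t ht htf
    have hvg : v ∉ g := fun h1 => hvR (mem_vs.2 ⟨g, hg, h1⟩)
    refine ⟨g, hg, hgf, ?_, hvg, hvR, mem_vs.2 ⟨t, Finset.mem_insert_of_mem htg, hvt⟩,
      co_inner h hc hg hgf hvg ⟨t, mem_star.2 ⟨htg, hvt⟩⟩⟩
    intro hgT
    rw [co_facial h hf hc hg hgf hgT, Finset.mem_singleton] at htg
    exact hvg (htg ▸ hvt)

/-- the inner vertices of an attached sphere -/
theorem co_in (h : Sph T) (hc : Coarse T R f D) {g : Finset V} (hg : g ∈ R) (hgf : g ≠ f) {v : V}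
    (hv : v ∈ vs (Tg D g)) (hvg : v ∉ g) : star T v ⊆ D g ∧ v ∉ vs R ∧ v ∈ vs T := by
  obtain ⟨t, ht, hvt⟩ := mem_vs.1 hv
  unfold Tg at ht
  rw [Finset.mem_insert] at ht
  have htg : t ∈ D g := by
    rcases ht with ht | ht
    · exact absurd (ht ▸ hvt) hvg
    · exact ht
  have hne : (star (D g) v).Nonempty := ⟨t, mem_star.2 ⟨htg, hvt⟩⟩
  refine ⟨co_inner h hc hg hgf hvg hne, fun h1 => hvg (co_meet h hc hg hgf h1 hne),
    mem_vs.2 ⟨t, co_sub hc hg hgf htg, hvt⟩⟩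

theorem co_unique (h : Sph T) (hc : Coarse T R f D) {g g' : Finset V} (hg : g ∈ R) (hgf : g ≠ f)
    (hg' : g' ∈ R) (hgf' : g' ≠ f) {v : V}
    (hv : v ∈ vs (Tg D g)) (hvg : v ∉ g) (hv' : v ∈ vs (Tg D g')) (hvg' : v ∉ g') : g = g' := by
  by_contra hne
  obtain ⟨h1, -, h2⟩ := co_in h hc hg hgf hv hvg
  obtain ⟨h3, -, -⟩ := co_in h hc hg' hgf' hv' hvg'
  obtain ⟨t, ht, hvt⟩ := mem_vs.1 h2
  exact Finset.disjoint_left.1 (hc.dis g hg g' hg' hgf hgf' hne) (h1 (mem_star.2 ⟨ht, hvt⟩))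
    (h3 (mem_star.2 ⟨ht, hvt⟩))

/-- a vertex of two attached spheres is a vertex of `R` -/
theorem co_inter (h : Sph T) (hc : Coarse T R f D) {g g' : Finset V} (hg : g ∈ R) (hgf : g ≠ f)
    (hg' : g' ∈ R) (hgf' : g' ≠ f) (hne : g ≠ g') {v : V}
    (hv : v ∈ vs (Tg D g)) (hv' : v ∈ vs (Tg D g')) : v ∈ g := by
  by_contra hvg
  by_cases hvg' : v ∈ g'
  · exact (co_in h hc hg hgf hv hvg).2.1 (mem_vs.2 ⟨g', hg', hvg'⟩)
  · exact hne (co_unique h hc hg hgf hg' hgf' hv hvg hv' hvg')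

theorem co_edgesTg (hc : Coarse T R f D) {g : Finset V} (hg : g ∈ R) (hgf : g ≠ f) :
    edges (Tg D g) ⊆ edges T := by
  unfold Tg
  rw [cut_edges (hc.sph.card3 g hg) (hc.bd g hg hgf)]
  exact edges_mono (co_sub hc hg hgf)

theorem co_vsTg (hc : Coarse T R f D) {g : Finset V} (hg : g ∈ R) (hgf : g ≠ f) :
    vs (Tg D g) ⊆ vs T := by
  intro v hv
  obtain ⟨t, ht, hvt⟩ := mem_vs.1 hv
  unfold Tg at ht
  rw [Finset.mem_insert] at ht
  rcases ht with ht | ht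
  · exact co_vs_sub hc (mem_vs.2 ⟨g, hg, ht ▸ hvt⟩)
  · exact mem_vs.2 ⟨t, co_sub hc hg hgf ht, hvt⟩

/-- an edge at an inner vertex of an attached sphere -/
theorem co_edge_in (h : Sph T) (hc : Coarse T R f D) {g : Finset V} (hg : g ∈ R) (hgf : g ≠ f)
    {x y : V} (he : ({x, y} : Finset V) ∈ edges T) (hx : x ∈ vs (Tg D g)) (hxg : x ∉ g) :
    ({x, y} : Finset V) ∈ edges (Tg D g) ∧ y ∈ vs (Tg D g) := by
  obtain ⟨h1, -, -⟩ := co_in h hc hg hgf hx hxg
  obtain ⟨t, ht, hxt, hyt⟩ := edge_mem he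
  have h2 : t ∈ Tg D g := Finset.mem_insert_of_mem (h1 (mem_star.2 ⟨ht, hxt⟩))
  exact ⟨edge_of_tri h2 (edge_ne he) hxt hyt, mem_vs.2 ⟨t, h2, hyt⟩⟩

end Pool.Agent.SplD
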