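import Pool.Agent.SplD.ConeB

/-!
# The cone over the boundary of a triangulated disc

`cone T` (vertices `Option V`, the new vertex is `none`) is a triangulated sphere.
-/

set_option autoImplicit false

namespace Pool.Agent.SplD

open Finset Pool.Agent.Spl1 Pool.Agent.Spl2

variable {V : Type*} [Fintype V] [DecidableEq V]

/-- a set of vertices in `Option V` -/
def mp (t : Finset V) : Finset (Option V) := t.map Function.Embedding.some

/-- the cone over an edge -/
def cn (e : Finset V) : Finset (Option V) := insert none (mp e)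

/-- triangles of `V` and cones over edges -/
def lft (A P : Finset (Finset V)) : Finset (Finset (Option V)) := A.image mp ∪ P.image cn

/-- the cone over the boundary -/
def cone (T : Finset (Finset V)) : Finset (Finset (Option V)) := lft T (bdry T)

theorem some_mem_mp {t : Finset V} {x : V} : some x ∈ mp t ↔ x ∈ t := by
  unfold mp
  simp

theorem none_mem_mp {t : Finset V} : none ∉ mp t := by
  unfold mp
  simp

theorem some_mem_cn {t : Finset V} {x : V} : some x ∈ cn t ↔ x ∈ t := by
  unfold cn
  rw [Finset.mem_insert, some_mem_mp]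
  simp

theorem none_mem_cn {t : Finset V} : none ∈ cn t := Finset.mem_insert_self _ _

theorem mp_injective : Function.Injective (mp : Finset V → Finset (Option V)) :=
  Finset.map_injective _

theorem mp_sub_mp {e t : Finset V} : mp e ⊆ mp t ↔ e ⊆ t := Finset.map_subset_map

theorem mp_sub_cn {e t : Finset V} : mp e ⊆ cn t ↔ e ⊆ t := by
  constructor
  · intro h x hx
    exact some_mem_cn.1 (h (some_mem_mp.2 hx))
  · intro h
    exact (mp_sub_mp.2 h).trans (Finset.subset_insert _ _)

theorem cn_injective : Function.Injective (cn : Finset V → Finset (Option V)) := by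
  intro a b h
  ext x
  rw [← some_mem_cn, h, some_mem_cn]

theorem card_mp (t : Finset V) : (mp t).card = t.card := Finset.card_map _

theorem card_cn (t : Finset V) : (cn t).card = t.card + 1 := by
  unfold cn
  rw [Finset.card_insert_of_notMem none_mem_mp, card_mp]

theorem mp_pair (u v : V) : mp {u, v} = {some u, some v} := by
  unfold mp
  simp [Finset.map_insert]

theorem mem_lft {A P : Finset (Finset V)} {t : Finset (Option V)} :
    t ∈ lft A P ↔ (∃ a ∈ A, mp a = t) ∨ ∃ e ∈ P, cn e = t := by
  unfold lft
  rw [Finset.mem_union, Finset.mem_image, Finset.mem_image]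

theorem mp_mem_lft {A P : Finset (Finset V)} {a : Finset V} : mp a ∈ lft A P ↔ a ∈ A := by
  rw [mem_lft]
  constructor
  · rintro (⟨b, hb, hab⟩ | ⟨e, he, hea⟩)
    · rw [← mp_injective hab]
      exact hb
    · exfalso
      apply none_mem_mp (t := a)
      rw [← hea]
      exact none_mem_cn
  · intro h
    exact Or.inl ⟨a, h, rfl⟩

theorem cn_mem_lft {A P : Finset (Finset V)} {e : Finset V} : cn e ∈ lft A P ↔ e ∈ P := by
  rw [mem_lft]
  constructor
  · rintro (⟨b, hb, hab⟩ | ⟨e', he, hea⟩)
    · exfalso
      apply none_mem_mp (t := b)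
      rw [hab]
      exact none_mem_cn
    · rw [← cn_injective hea]
      exact he
  · intro h
    exact Or.inr ⟨e, h, rfl⟩

theorem pair_cases {e : Finset (Option V)} (h : e.card = 2) :
    (∃ e0 : Finset V, e0.card = 2 ∧ e = mp e0) ∨ ∃ x : V, e = {none, some x} := by
  obtain ⟨a, b, hab, rfl⟩ := Finset.card_eq_two.1 h
  rcases a with _ | a <;> rcases b with _ | b
  · exact absurd rfl hab
  · exact Or.inr ⟨b, rfl⟩
  · exact Or.inr ⟨a, Finset.pair_comm _ _⟩
  · left
    have hab' : a ≠ b := fun h1 => hab (by rw [h1])
    exact ⟨{a, b}, Finset.card_pair hab', (mp_pair a b).symm⟩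

theorem card_filter_lft (A P : Finset (Finset V)) (q : Finset (Option V) → Prop) [DecidablePred q] :
    ((lft A P).filter q).card = (A.filter (fun a => q (mp a))).card +
      (P.filter (fun e => q (cn e))).card := by
  unfold lft
  rw [Finset.filter_union, Finset.card_union_of_disjoint, Finset.filter_image, Finset.filter_image,
    Finset.card_image_of_injective _ mp_injective, Finset.card_image_of_injective _ cn_injective]
  rw [Finset.disjoint_left]
  intro t h1 h2
  rw [Finset.mem_filter, Finset.mem_image] at h1 h2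
  obtain ⟨⟨a, -, rfl⟩, -⟩ := h1
  obtain ⟨⟨e, -, he⟩, -⟩ := h2
  apply none_mem_mp (t := a)
  rw [← he]
  exact none_mem_cn

theorem tdeg_mp {A P : Finset (Finset V)} (hP : ∀ e ∈ P, e.card = 2) {e : Finset V}
    (he : e.card = 2) : tdeg (lft A P) (mp e) = tdeg A e + if e ∈ P then 1 else 0 := by
  unfold tdeg
  rw [card_filter_lft]
  have h1 : A.filter (fun a => mp e ⊆ mp a) = A.filter (fun a => e ⊆ a) := by
    apply Finset.filter_congr
    intro a _
    exact mp_sub_mp
  have h2 : P.filter (fun a => mp e ⊆ cn a) = P.filter (fun a => a = e) := by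
    apply Finset.filter_congr
    intro a ha
    rw [mp_sub_cn]
    constructor
    · intro h
      exact (Finset.eq_of_subset_of_card_le h (by rw [hP a ha, he])).symm
    · rintro rfl
      exact Finset.Subset.refl _
  rw [h1, h2]
  congr 1
  by_cases h3 : e ∈ P
  · rw [if_pos h3, Finset.card_eq_one]
    refine ⟨e, ?_⟩
    ext a
    rw [Finset.mem_filter, Finset.mem_singleton]
    constructor
    · exact fun h4 => h4.2
    · rintro rfl
      exact ⟨h3, rfl⟩
  · rw [if_neg h3, Finset.card_eq_zero, Finset.eq_empty_iff_forall_notMem]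
    intro a ha
    rw [Finset.mem_filter] at ha
    exact h3 (ha.2 ▸ ha.1)

theorem tdeg_none (A P : Finset (Finset V)) (x : V) :
    tdeg (lft A P) {none, some x} = vdeg P x := by
  unfold tdeg vdeg
  rw [card_filter_lft]
  have h1 : A.filter (fun a => {none, some x} ⊆ mp a) = ∅ := by
    rw [Finset.eq_empty_iff_forall_notMem]
    intro a ha
    exact none_mem_mp ((Finset.mem_filter.1 ha).2 (by simp))
  have h2 : P.filter (fun a => {none, some x} ⊆ cn a) = P.filter (fun a => x ∈ a) := by
    apply Finset.filter_congr
    intro a _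
    constructor
    · intro h
      exact some_mem_cn.1 (h (by simp))
    · intro h y hy
      simp only [Finset.mem_insert, Finset.mem_singleton] at hy
      rcases hy with rfl | rfl
      · exact none_mem_cn
      · exact some_mem_cn.2 h
  rw [h1, h2, Finset.card_empty, zero_add]

theorem sub_lft {A P : Finset (Finset V)} {D : Finset (Finset (Option V))} (hD : D ⊆ lft A P) :
    D = lft (A.filter (fun a => mp a ∈ D)) (P.filter (fun e => cn e ∈ D)) := by
  ext t
  constructor
  · intro h
    rcases mem_lft.1 (hD h) with ⟨a, ha, rfl⟩ | ⟨e, he, rfl⟩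
    · exact mp_mem_lft.2 (Finset.mem_filter.2 ⟨ha, h⟩)
    · exact cn_mem_lft.2 (Finset.mem_filter.2 ⟨he, h⟩)
  · intro h
    rcases mem_lft.1 h with ⟨a, ha, rfl⟩ | ⟨e, he, rfl⟩
    · exact (Finset.mem_filter.1 ha).2
    · exact (Finset.mem_filter.1 he).2

theorem pos_tdeg {T : Finset (Finset V)} {e : Finset V} :
    e ∈ edges T ↔ e.card = 2 ∧ 0 < tdeg T e := by
  unfold edges
  simp

section

variable {T : Finset (Finset V)}

theorem hB2 : ∀ e ∈ bdry T, e.card = 2 := fun _ he => bdry_card2 he

theorem mp_edge {e : Finset V} : mp e ∈ edges (cone T) ↔ e ∈ edges T := by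
  unfold cone
  rw [pos_tdeg, pos_tdeg, card_mp]
  constructor
  · rintro ⟨h1, h2⟩
    rw [tdeg_mp hB2 h1] at h2
    refine ⟨h1, ?_⟩
    by_cases h3 : e ∈ bdry T
    · exact (mem_bdry.1 h3).2.pos
    · rw [if_neg h3] at h2
      exact h2
  · rintro ⟨h1, h2⟩
    rw [tdeg_mp hB2 h1]
    exact ⟨h1, by omega⟩

theorem none_edge {x : V} : ({none, some x} : Finset (Option V)) ∈ edges (cone T) ↔ x ∈ bdv T := by
  unfold cone
  rw [pos_tdeg, tdeg_none]
  unfold bdv
  rw [Finset.mem_filter]
  constructor
  · exact fun h => ⟨Finset.mem_univ _, h.2⟩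
  · exact fun h => ⟨Finset.card_pair (by simp), h.2⟩

variable {I : Finset V}

theorem cone_sph (h : Good T I) (hd : DConn T) (hne : T.Nonempty) : Sph (cone T) := by
  have h3 : ∀ t ∈ cone T, t.card = 3 := by
    intro t ht
    unfold cone at ht
    rcases mem_lft.1 ht with ⟨a, ha, rfl⟩ | ⟨e, he, rfl⟩
    · rw [card_mp, h.card3 a ha]
    · rw [card_cn, bdry_card2 he]
  have h2 : ∀ e ∈ edges (cone T), tdeg (cone T) e = 2 := by
    intro e he
    have hc := (mem_edges.1 he).1
    rcases pair_cases hc with ⟨e0, h4, rfl⟩ | ⟨x, rfl⟩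
    · have h5 := mp_edge.1 he
      have h6 := (pos_tdeg.1 h5).2
      have h7 := h.le2 e0 h4
      unfold cone
      rw [tdeg_mp hB2 h4]
      by_cases h8 : e0 ∈ bdry T
      · rw [if_pos h8, tdeg_bdry h h8]
      · rw [if_neg h8, add_zero]
        have h9 : ¬ Odd (tdeg T e0) := fun h9 => h8 (mem_bdry.2 ⟨h4, h9⟩)
        have h10 : tdeg T e0 ≠ 1 := by
          intro h11
          rw [h11] at h9
          exact h9 odd_one
        omega
    · unfold cone
      rw [tdeg_none]
      exact bd_two h hd hne (none_edge.1 he)
  have H1 : ∀ C ⊆ edges (cone T), IsCyc C → ∃ D ⊆ cone T, bdry D = C := by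
    intro C hC hcyc
    obtain ⟨C0, hC0⟩ : ∃ C0, C0 = (edges T).filter (fun e => mp e ∈ C) := ⟨_, rfl⟩
    obtain ⟨X, hX⟩ : ∃ X : Finset V, X = univ.filter (fun x => {none, some x} ∈ C) := ⟨_, rfl⟩
    have mC0 : ∀ e, e ∈ C0 ↔ mp e ∈ C := by
      intro e
      rw [hC0, Finset.mem_filter]
      exact ⟨fun h4 => h4.2, fun h4 => ⟨mp_edge.1 (hC h4), h4⟩⟩
    have mX : ∀ x, x ∈ X ↔ ({none, some x} : Finset (Option V)) ∈ C := by
      intro x
      rw [hX, Finset.mem_filter]
      simp
    have hC02 : ∀ e ∈ C0, e.card = 2 := by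
      intro e he
      rw [← card_mp]
      exact hcyc.1 _ ((mC0 e).1 he)
    have hXB : X ⊆ bdv T := fun x hx => none_edge.1 (hC ((mX x).1 hx))
    have hXe : Even X.card := by
      have h4 := hcyc.2 none
      have h5 : vdeg C none = X.card := by
        unfold vdeg
        symm
        apply Finset.card_bij (fun x _ => ({none, some x} : Finset (Option V)))
        · intro x hx
          exact Finset.mem_filter.2 ⟨(mX x).1 hx, by simp⟩
        · intro x _ y _ hxy
          have h6 : some x ∈ ({none, some y} : Finset (Option V)) := by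
            rw [← hxy]
            simp
          simpa using h6
        · intro e he
          obtain ⟨h6, h7⟩ := Finset.mem_filter.1 he
          rcases pair_cases (hcyc.1 e h6) with ⟨e0, -, rfl⟩ | ⟨x, rfl⟩
          · exact absurd h7 none_mem_mp
          · exact ⟨x, (mX x).2 h6, rfl⟩
      rw [← h5]
      exact h4
    have hodd : oddv C0 = X := by
      ext x
      rw [mem_oddv]
      have h4 := hcyc.2 (some x)
      have h5 : vdeg C (some x) = vdeg C0 x + if x ∈ X then 1 else 0 := by
        unfold vdeg
        have h6 : C.filter (fun e => some x ∈ e) =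
            (C0.filter (fun e => x ∈ e)).image mp ∪
              (if x ∈ X then {{none, some x}} else ∅) := by
          ext e
          rw [Finset.mem_filter, Finset.mem_union, Finset.mem_image]
          constructor
          · rintro ⟨h6, h7⟩
            rcases pair_cases (hcyc.1 e h6) with ⟨e0, -, rfl⟩ | ⟨y, rfl⟩
            · left
              exact ⟨e0, Finset.mem_filter.2 ⟨(mC0 e0).2 h6, some_mem_mp.1 h7⟩, rfl⟩
            · right
              have hxy : x = y := by simpa using h7
              subst hxy
              rw [if_pos ((mX x).2 h6)]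
              simp
          · rintro (⟨e0, h6, rfl⟩ | h6)
            · obtain ⟨h7, h8⟩ := Finset.mem_filter.1 h6
              exact ⟨(mC0 e0).1 h7, some_mem_mp.2 h8⟩
            · by_cases h7 : x ∈ X
              · rw [if_pos h7, Finset.mem_singleton] at h6
                rw [h6]
                exact ⟨(mX x).1 h7, by simp⟩
              · rw [if_neg h7] at h6
                exact absurd h6 (Finset.notMem_empty _)
        rw [h6, Finset.card_union_of_disjoint, Finset.card_image_of_injective _ mp_injective]
        · congr 1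
          by_cases h7 : x ∈ X
          · rw [if_pos h7, if_pos h7, Finset.card_singleton]
          · rw [if_neg h7, if_neg h7, Finset.card_empty]
        · rw [Finset.disjoint_left]
          intro e h7 h8
          rw [Finset.mem_image] at h7
          obtain ⟨e0, -, rfl⟩ := h7
          by_cases h9 : x ∈ X
          · rw [if_pos h9, Finset.mem_singleton] at h8
            apply none_mem_mp (t := e0)
            rw [h8]
            simp
          · rw [if_neg h9] at h8
            exact absurd h8 (Finset.notMem_empty _)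
      by_cases h6 : x ∈ X
      · rw [if_pos h6] at h5
        rw [h5, Nat.even_add_one] at h4
        exact ⟨fun _ => h6, fun _ => Nat.not_even_iff_odd.1 h4⟩
      · rw [if_neg h6, add_zero] at h5
        rw [h5] at h4
        exact ⟨fun h7 => absurd h7 (Nat.not_odd_iff_even.2 h4), fun h7 => absurd h7 h6⟩
    obtain ⟨P, hP, hPX⟩ := bd_path h hd hne hXB hXe
    have hPe : P ⊆ edges T := hP.trans (bdry_subset_edges (Finset.Subset.refl _))
    have hP2 : ∀ e ∈ P, e.card = 2 := fun e he => bdry_card2 (hP he)
    have hs2 : ∀ e ∈ symmDiff C0 P, e.card = 2 := by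
      intro e he
      rcases Finset.mem_symmDiff.1 he with h4 | h4
      · exact hC02 e h4.1
      · exact hP2 e h4.1
    have hs : IsCyc (symmDiff C0 P) := by
      rw [isCyc_iff_oddv hs2, oddv_symm, hodd, hPX, symmDiff_self]
      rfl
    obtain ⟨A, hA, hAb⟩ := h.H1 _ (by
      intro e he
      rcases Finset.mem_symmDiff.1 he with h4 | h4
      · rw [hC0] at h4
        exact (Finset.mem_filter.1 h4.1).1
      · exact hPe h4.1) hs
    refine ⟨lft A P, ?_, ?_⟩
    · intro t ht
      rcases mem_lft.1 ht with ⟨a, ha, rfl⟩ | ⟨e, he, rfl⟩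
      · exact mp_mem_lft.2 (hA ha)
      · exact cn_mem_lft.2 (hP he)
    · ext e
      rw [mem_bdry]
      constructor
      · rintro ⟨h4, h5⟩
        rcases pair_cases h4 with ⟨e0, h6, rfl⟩ | ⟨x, rfl⟩
        · rw [tdeg_mp hP2 h6] at h5
          rw [← mC0]
          have h7 : e0 ∈ bdry A ↔ e0 ∈ symmDiff C0 P := by rw [hAb]
          rw [mem_bdry, Finset.mem_symmDiff] at h7
          by_cases h8 : e0 ∈ P
          · rw [if_pos h8, Nat.odd_add_one] at h5
            tauto
          · rw [if_neg h8, add_zero] at h5
            tauto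
        · rw [tdeg_none] at h5
          rw [← mX, ← hPX]
          exact mem_oddv.2 h5
      · intro h4
        have h5 := hcyc.1 e h4
        refine ⟨h5, ?_⟩
        rcases pair_cases h5 with ⟨e0, h6, rfl⟩ | ⟨x, rfl⟩
        · rw [tdeg_mp hP2 h6]
          rw [← mC0] at h4
          have h7 : e0 ∈ bdry A ↔ e0 ∈ symmDiff C0 P := by rw [hAb]
          rw [mem_bdry, Finset.mem_symmDiff] at h7
          by_cases h8 : e0 ∈ P
          · rw [if_pos h8, Nat.odd_add_one]
            tauto
          · rw [if_neg h8, add_zero]
            tauto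
        · rw [tdeg_none]
          rw [← mX, ← hPX] at h4
          exact mem_oddv.1 h4
  have H2 : ∀ D ⊆ cone T, bdry D = ∅ → D = ∅ ∨ D = cone T := by
    intro D hD hb
    have hDe := sub_lft hD
    obtain ⟨A, hA⟩ : ∃ A, A = T.filter (fun a => mp a ∈ D) := ⟨_, rfl⟩
    obtain ⟨P, hP⟩ : ∃ P, P = (bdry T).filter (fun e => cn e ∈ D) := ⟨_, rfl⟩
    rw [← hA, ← hP] at hDe
    have hAT : A ⊆ T := by rw [hA]; exact Finset.filter_subset _ _
    have hPB : P ⊆ bdry T := by rw [hP]; exact Finset.filter_subset _ _
    have hP2 : ∀ e ∈ P, e.card = 2 := fun e he => bdry_card2 (hPB he)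
    have hPc : IsCyc P := by
      refine ⟨hP2, fun x => ?_⟩
      by_contra h4
      rw [Nat.not_even_iff_odd] at h4
      have h5 : ({none, some x} : Finset (Option V)) ∈ bdry D := by
        rw [hDe, mem_bdry, tdeg_none]
        exact ⟨Finset.card_pair (by simp), h4⟩
      rw [hb] at h5
      exact absurd h5 (Finset.notMem_empty _)
    have hAP : bdry A = P := by
      ext e
      by_cases he : e.card = 2
      · have h4 : mp e ∉ bdry D := by
          rw [hb]
          exact Finset.notMem_empty _
        rw [hDe, mem_bdry, tdeg_mp hP2 he] at h4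
        rw [mem_bdry]
        have h5 : (mp e).card = 2 := by rw [card_mp, he]
        by_cases h8 : e ∈ P
        · rw [if_pos h8, Nat.odd_add_one] at h4
          tauto
        · rw [if_neg h8, add_zero] at h4
          tauto
      · constructor
        · intro h4
          exact absurd (mem_bdry.1 h4).1 he
        · intro h4
          exact absurd (hP2 e h4) he
    rcases bd_cyc h hd hPB hPc with h4 | h4
    · left
      have h5 : A = ∅ := h.H2 A hAT (by rw [hAP, h4])
      rw [hDe, h4, h5]
      rfl
    · right
      have h5 : A = T := bdry_inj h hAT (Finset.Subset.refl _) (by rw [hAP, h4])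
      rw [hDe, h4, h5]
      rfl
  exact ⟨h3, h2, fun v S hS hL => conn_of h3 h2 H1 H2 v S hS hL, H1, H2⟩

end

end Pool.Agent.SplD
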