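import Pool.Agent.Spl2.SphConn
import Pool.Agent.Spl2.SphEul
import Pool.Agent.Spl1.Cyc

/-!
# The boundary of a triangulated disc is one cycle

`DConn T`: strongly connected.  `bd_cyc`: the only cycles in the boundary are `∅` and the boundary.
`bd_path`: every even set of boundary vertices is the set of odd vertices of a set of boundary edges.
`bd_two`: every boundary vertex is on exactly two boundary edges.
-/

set_option autoImplicit false

namespace Pool.Agent.SplD

open Finset Pool.Agent.Spl1 Pool.Agent.Spl2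

variable {V : Type*} [Fintype V] [DecidableEq V]

/-- strongly connected -/
def DConn (T : Finset (Finset V)) : Prop :=
  ∀ S ⊆ T, S.Nonempty → (∀ s ∈ S, ∀ t ∈ T, (s ∩ t).card = 2 → t ∈ S) → S = T

/-- in a connected graph every even set of vertices is a set of odd vertices -/
theorem oddv_surj {E : Finset (Finset V)} {W : Finset V} (h2 : ∀ e ∈ E, e.card = 2)
    (hW : ∀ e ∈ E, e ⊆ W) (hne : W.Nonempty)
    (hconn : ∀ Z ⊆ W, Z.Nonempty → (∀ e ∈ E, (e ∩ Z).Nonempty → e ⊆ Z) → Z = W)
    {X : Finset V} (hX : X ⊆ W) (hXe : Even X.card) : ∃ S ⊆ E, oddv S = X := by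
  classical
  obtain ⟨w, hw⟩ := hne
  have hadd : ∀ X Y : Finset V, (∃ S ⊆ E, oddv S = X) → (∃ S ⊆ E, oddv S = Y) →
      ∃ S ⊆ E, oddv S = symmDiff X Y := by
    rintro X Y ⟨S, hS, rfl⟩ ⟨S', hS', rfl⟩
    refine ⟨symmDiff S S', ?_, oddv_symm S S'⟩
    intro e he
    rw [Finset.mem_symmDiff] at he
    rcases he with he | he
    · exact hS he.1
    · exact hS' he.1
  have hsingle : ∀ e ∈ E, oddv {e} = e := by
    intro e he
    ext v
    rw [mem_oddv]
    unfold vdeg
    by_cases hv : v ∈ e
    · rw [Finset.filter_singleton, if_pos hv]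
      simp [hv]
    · rw [Finset.filter_singleton, if_neg hv]
      simp [hv]
  have hpair : ∀ u ∈ W, ∃ S ⊆ E, oddv S = symmDiff {u} {w} := by
    have hZ : W.filter (fun u => ∃ S ⊆ E, oddv S = symmDiff {u} {w}) = W := by
      apply hconn _ (Finset.filter_subset _ _)
      · refine ⟨w, ?_⟩
        rw [mem_filter]
        refine ⟨hw, ∅, Finset.empty_subset _, ?_⟩
        rw [symmDiff_self]
        ext v
        rw [mem_oddv]
        simp [vdeg]
      · intro e he hez
        obtain ⟨u, hu⟩ := hez
        rw [mem_inter, mem_filter] at hu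
        intro u' hu'
        rw [mem_filter]
        refine ⟨hW e he hu', ?_⟩
        by_cases huu : u' = u
        · rw [huu]; exact hu.2.2
        · have h3 : e = symmDiff {u'} {u} := by
            have h4 : e = {u', u} := by
              symm
              apply Finset.eq_of_subset_of_card_le
              · intro x hx
                rw [mem_insert, mem_singleton] at hx
                rcases hx with rfl | rfl
                · exact hu'
                · exact hu.1
              · rw [h2 e he, Finset.card_pair huu]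
            rw [h4]
            ext x
            rw [mem_insert, mem_singleton, Finset.mem_symmDiff, mem_singleton, mem_singleton]
            constructor
            · rintro (rfl | rfl)
              · exact Or.inl ⟨rfl, huu⟩
              · exact Or.inr ⟨rfl, fun h => huu h.symm⟩
            · rintro (h | h)
              · exact Or.inl h.1
              · exact Or.inr h.1
          have h5 := hadd (symmDiff {u'} {u}) (symmDiff {u} {w})
            ⟨{e}, Finset.singleton_subset_iff.2 he, by rw [hsingle e he]; exact h3⟩ hu.2.2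
          have h6 : symmDiff (symmDiff {u'} {u}) (symmDiff {u} {w}) =
              (symmDiff {u'} {w} : Finset V) := by
            rw [symmDiff_assoc, symmDiff_symmDiff_cancel_left]
          rw [h6] at h5
          exact h5
    intro u hu
    rw [← hZ, mem_filter] at hu
    exact hu.2
  have hall : ∀ X : Finset V, X ⊆ W →
      (∃ S ⊆ E, oddv S = X) ∨ (∃ S ⊆ E, oddv S = symmDiff X {w}) := by
    intro X
    induction X using Finset.induction_on with
    | empty =>
      intro _
      left
      refine ⟨∅, Finset.empty_subset _, ?_⟩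
      ext v
      rw [mem_oddv]
      simp [vdeg]
    | insert a X ha ih =>
      intro hX
      have haW : a ∈ W := hX (mem_insert_self a X)
      have hins : insert a X = symmDiff X {a} := by
        ext x
        rw [Finset.mem_symmDiff, mem_singleton, mem_insert]
        by_cases hxa : x = a
        · subst hxa; simp [ha]
        · simp [hxa]
      rcases ih ((Finset.subset_insert a X).trans hX) with h | h
      · right
        have h3 := hadd _ _ h (hpair a haW)
        rw [hins]
        rw [← symmDiff_assoc] at h3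
        exact h3
      · left
        have h3 := hadd _ _ h (hpair a haW)
        rw [hins]
        have h4 : symmDiff (symmDiff X {w}) (symmDiff {a} {w}) = symmDiff X {a} := by
          rw [symmDiff_symmDiff_symmDiff_comm, symmDiff_self]
          exact symmDiff_bot _
        rw [h4] at h3
        exact h3
  rcases hall X hX with h | ⟨S, hS, hSX⟩
  · exact h
  · exfalso
    have h4 := handshake (fun e he => h2 e (hS he))
    change Even (oddv S).card at h4
    rw [hSX] at h4
    have h5 : Odd (symmDiff X {w}).card ↔ ¬ (Odd X.card ↔ Odd ({w} : Finset V).card) :=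
      odd_card_symmDiff X {w}
    have h6 : ¬ Odd X.card := Nat.not_odd_iff_even.2 hXe
    have h7 : Odd ({w} : Finset V).card := by rw [Finset.card_singleton]; exact odd_one
    have h8 : ¬ Odd (symmDiff X {w}).card := Nat.not_odd_iff_even.2 h4
    tauto

variable {T : Finset (Finset V)} {I : Finset V}

theorem bdry_card2 {D : Finset (Finset V)} {e : Finset V} (he : e ∈ bdry D) : e.card = 2 :=
  (mem_bdry.1 he).1

theorem tdeg_bdry (h : Good T I) {e : Finset V} (he : e ∈ bdry T) : tdeg T e = 1 := by
  obtain ⟨h1, h2⟩ := mem_bdry.1 he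
  have h3 := h.le2 e h1
  obtain ⟨k, hk⟩ := h2
  omega

/-- the only cycles in the boundary -/
theorem bd_cyc (h : Good T I) (hd : DConn T) {P : Finset (Finset V)} (hP : P ⊆ bdry T)
    (hc : IsCyc P) : P = ∅ ∨ P = bdry T := by
  obtain ⟨D, hD, hDP⟩ := h.H1 P (hP.trans (bdry_subset_edges (Finset.Subset.refl _))) hc
  rcases Finset.eq_empty_or_nonempty D with h1 | h1
  · left
    rw [← hDP, h1, bdry_empty]
  · right
    rw [← hDP]
    have h2 : D = T := by
      apply hd D hD h1
      intro s hs t ht hst
      by_contra htD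
      obtain ⟨e, he⟩ : ∃ e, e = s ∩ t := ⟨_, rfl⟩
      have hes : e ⊆ s := by rw [he]; exact Finset.inter_subset_left
      have het : e ⊆ t := by rw [he]; exact Finset.inter_subset_right
      have hec : e.card = 2 := by rw [he]; exact hst
      have hne : s ≠ t := fun h3 => htD (h3 ▸ hs)
      have hT2 : tdeg T e = 2 := by
        apply le_antisymm (h.le2 e hec)
        have : ({s, t} : Finset (Finset V)) ⊆ T.filter (fun t => e ⊆ t) := by
          intro x hx
          simp only [Finset.mem_insert, Finset.mem_singleton] at hx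
          rcases hx with rfl | rfl
          · exact Finset.mem_filter.2 ⟨hD hs, hes⟩
          · exact Finset.mem_filter.2 ⟨ht, het⟩
        have := Finset.card_le_card this
        rw [Finset.card_pair hne] at this
        exact this
      have hnb : e ∉ bdry D := by
        intro h3
        rw [hDP] at h3
        have := tdeg_bdry h (hP h3)
        omega
      have hD1 : tdeg D e = 1 := by
        have h3 : D.filter (fun t => e ⊆ t) ⊆ (T.filter (fun t => e ⊆ t)).erase t := by
          intro x hx
          rw [Finset.mem_filter] at hx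
          rw [Finset.mem_erase, Finset.mem_filter]
          exact ⟨fun h4 => htD (h4 ▸ hx.1), hD hx.1, hx.2⟩
        have htm : t ∈ T.filter (fun t => e ⊆ t) := Finset.mem_filter.2 ⟨ht, het⟩
        have h4 : (D.filter (fun t => e ⊆ t)).card ≤ (T.filter (fun t => e ⊆ t)).card - 1 := by
          rw [← Finset.card_erase_of_mem htm]
          exact Finset.card_le_card h3
        have h5 : 0 < tdeg D e := Finset.card_pos.2 ⟨s, Finset.mem_filter.2 ⟨hs, hes⟩⟩
        unfold tdeg at h5 hT2 ⊢
        omega
      apply hnb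
      rw [mem_bdry]
      exact ⟨hec, by rw [hD1]; exact odd_one⟩
    rw [h2]

/-- the boundary vertices -/
def bdv (T : Finset (Finset V)) : Finset V := univ.filter (fun x => 0 < vdeg (bdry T) x)

theorem mem_bdv {x : V} : x ∈ bdv T ↔ ∃ e ∈ bdry T, x ∈ e := by
  unfold bdv vdeg
  rw [Finset.mem_filter, Finset.card_pos]
  constructor
  · rintro ⟨-, e, he⟩
    exact ⟨e, (Finset.mem_filter.1 he).1, (Finset.mem_filter.1 he).2⟩
  · rintro ⟨e, he, hx⟩
    exact ⟨Finset.mem_univ _, e, Finset.mem_filter.2 ⟨he, hx⟩⟩

theorem bd_conn (h : Good T I) (hd : DConn T) : ∀ Z ⊆ bdv T, Z.Nonempty →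
    (∀ e ∈ bdry T, (e ∩ Z).Nonempty → e ⊆ Z) → Z = bdv T := by
  intro Z hZ hne hcl
  obtain ⟨P, hPe⟩ : ∃ P, P = (bdry T).filter (fun e => (e ∩ Z).Nonempty) := ⟨_, rfl⟩
  have hmem : ∀ e, e ∈ P ↔ e ∈ bdry T ∧ (e ∩ Z).Nonempty := by
    intro e
    rw [hPe, Finset.mem_filter]
  have hP : P ⊆ bdry T := fun e he => ((hmem e).1 he).1
  have hB : IsCyc (bdry T) := isCyc_bdry h.card3
  have hc : IsCyc P := by
    refine ⟨fun e he => bdry_card2 (hP he), fun v => ?_⟩
    by_cases hv : v ∈ Z
    · have h1 : vdeg P v = vdeg (bdry T) v := by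
        unfold vdeg
        congr 1
        ext e
        rw [Finset.mem_filter, Finset.mem_filter, hmem]
        constructor
        · rintro ⟨⟨h1, -⟩, h2⟩
          exact ⟨h1, h2⟩
        · rintro ⟨h1, h2⟩
          exact ⟨⟨h1, v, Finset.mem_inter.2 ⟨h2, hv⟩⟩, h2⟩
      rw [h1]
      exact hB.2 v
    · have h1 : vdeg P v = 0 := by
        unfold vdeg
        rw [Finset.card_eq_zero, Finset.eq_empty_iff_forall_notMem]
        intro e he
        obtain ⟨he1, he2⟩ := Finset.mem_filter.1 he
        obtain ⟨h2, h3⟩ := (hmem e).1 he1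
        exact hv (hcl e h2 h3 he2)
      rw [h1]
      exact Even.zero
  obtain ⟨z, hz⟩ := hne
  obtain ⟨e, he, hze⟩ := mem_bdv.1 (hZ hz)
  have heP : e ∈ P := (hmem e).2 ⟨he, z, Finset.mem_inter.2 ⟨hze, hz⟩⟩
  rcases bd_cyc h hd hP hc with h1 | h1
  · rw [h1] at heP
    exact absurd heP (Finset.notMem_empty _)
  · apply Finset.Subset.antisymm hZ
    intro x hx
    obtain ⟨e', he', hxe⟩ := mem_bdv.1 hx
    rw [← h1] at he'
    obtain ⟨h2, h3⟩ := (hmem e').1 he'
    exact hcl e' h2 h3 hxe

theorem bd_ne (h : Good T I) (hne : T.Nonempty) : (bdry T).Nonempty := by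
  rw [Finset.nonempty_iff_ne_empty]
  intro h1
  have := h.H2 T (Finset.Subset.refl _) h1
  rw [this] at hne
  exact Finset.not_nonempty_empty hne

theorem bdv_ne (h : Good T I) (hne : T.Nonempty) : (bdv T).Nonempty := by
  obtain ⟨e, he⟩ := bd_ne h hne
  have h1 : e.Nonempty := by
    rw [← Finset.card_pos, bdry_card2 he]
    norm_num
  obtain ⟨x, hx⟩ := h1
  exact ⟨x, mem_bdv.2 ⟨e, he, hx⟩⟩

theorem bd_path (h : Good T I) (hd : DConn T) (hne : T.Nonempty) {X : Finset V} (hX : X ⊆ bdv T)
    (hXe : Even X.card) : ∃ P ⊆ bdry T, oddv P = X :=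
  oddv_surj (fun _ he => bdry_card2 he) (fun e he x hx => mem_bdv.2 ⟨e, he, hx⟩) (bdv_ne h hne)
    (bd_conn h hd) hX hXe

theorem sum_vdeg {B : Finset (Finset V)} {W : Finset V} (h2 : ∀ e ∈ B, e.card = 2)
    (hW : ∀ e ∈ B, e ⊆ W) : ∑ v ∈ W, vdeg B v = 2 * B.card := by
  unfold vdeg
  simp_rw [Finset.card_filter]
  rw [Finset.sum_comm, Finset.sum_congr rfl (g := fun _ => 2), Finset.sum_const, smul_eq_mul,
    mul_comm]
  intro e he
  rw [← Finset.card_filter, ← h2 e he]
  congr 1
  ext x
  rw [Finset.mem_filter]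
  exact ⟨fun h1 => h1.2, fun h1 => ⟨hW e he h1, h1⟩⟩

/-- every boundary vertex is on exactly two boundary edges -/
theorem bd_two (h : Good T I) (hd : DConn T) (hne : T.Nonempty) {x : V} (hx : x ∈ bdv T) :
    vdeg (bdry T) x = 2 := by
  classical
  have hB : IsCyc (bdry T) := isCyc_bdry h.card3
  have hW : ∀ e ∈ bdry T, e ⊆ bdv T := fun e he _ hx => mem_bdv.2 ⟨e, he, hx⟩
  have h1 := cyc_count (E := bdry T) (W := bdv T) (fun _ he => bdry_card2 he) hW (bdv_ne h hne)
  have h2 : ((bdry T).powerset.filter (fun C => IsCyc C)).card ≤ 2 := by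
    have h3 : (bdry T).powerset.filter (fun C => IsCyc C) ⊆ {∅, bdry T} := by
      intro P hP
      rw [Finset.mem_filter, Finset.mem_powerset] at hP
      rcases bd_cyc h hd hP.1 hP.2 with h4 | h4
      · rw [h4]; simp
      · rw [h4]; simp
    exact (Finset.card_le_card h3).trans Finset.card_le_two
  have h3 : 2 ^ ((bdry T).card + 1) ≤ 2 ^ ((bdv T).card + 1) := by
    calc 2 ^ ((bdry T).card + 1) ≤ _ := h1
      _ ≤ 2 ^ (bdv T).card * 2 := Nat.mul_le_mul_left _ h2
      _ = _ := by rw [pow_succ]
  have h4 := (Nat.pow_le_pow_iff_right (by norm_num : 1 < 2)).1 h3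
  have h5 := sum_vdeg (B := bdry T) (W := bdv T) (fun _ he => bdry_card2 he) hW
  have h6 : ∀ v ∈ bdv T, 2 ≤ vdeg (bdry T) v := by
    intro v hv
    have h7 : 0 < vdeg (bdry T) v := (Finset.mem_filter.1 hv).2
    obtain ⟨k, hk⟩ := hB.2 v
    omega
  by_contra hcon
  have h7 : 2 < vdeg (bdry T) x := lt_of_le_of_ne (h6 x hx) (Ne.symm hcon)
  have h8 : ∑ v ∈ bdv T, 2 < ∑ v ∈ bdv T, vdeg (bdry T) v :=
    Finset.sum_lt_sum h6 ⟨x, hx, h7⟩
  rw [Finset.sum_const, smul_eq_mul, h5] at h8
  omega

end Pool.Agent.SplD
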