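import Pool.Agent.Spl2.SphBasic

/-!
# Closed triangulated spheres (mod 2 homology) and cutting along a non-facial 3-cycle
-/

set_option autoImplicit false

namespace Pool.Agent.SplD

open Finset Pool.Agent.Spl1 Pool.Agent.Spl2

variable {V : Type*} [Fintype V] [DecidableEq V]

theorem tdeg_union {A B : Finset (Finset V)} (h : Disjoint A B) (e : Finset V) :
    tdeg (A ∪ B) e = tdeg A e + tdeg B e := by
  unfold tdeg
  rw [Finset.filter_union, Finset.card_union_of_disjoint]
  exact Finset.disjoint_filter_filter h

theorem tdeg_insert {A : Finset (Finset V)} {g : Finset V} (h : g ∉ A) (e : Finset V) :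
    tdeg (insert g A) e = tdeg A e + if e ⊆ g then 1 else 0 := by
  unfold tdeg
  rw [Finset.filter_insert]
  split_ifs with h1
  · rw [Finset.card_insert_of_notMem]
    intro h2
    exact h (Finset.mem_filter.1 h2).1
  · rfl

theorem tdeg_split {T A : Finset (Finset V)} (hA : A ⊆ T) (e : Finset V) :
    tdeg T e = tdeg A e + tdeg (T \ A) e := by
  have h := tdeg_union (A := A) (B := T \ A) Finset.disjoint_sdiff e
  rw [Finset.union_sdiff_of_subset hA] at h
  exact h

theorem tdeg_mono {A B : Finset (Finset V)} (h : A ⊆ B) (e : Finset V) : tdeg A e ≤ tdeg B e :=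
  Finset.card_le_card (Finset.filter_subset_filter _ h)

theorem mem_edges_iff {T : Finset (Finset V)} {e : Finset V} :
    e ∈ edges T ↔ e.card = 2 ∧ 0 < tdeg T e := by
  unfold edges
  simp

/-- the edges of the new triangle are edges of `A` -/
theorem cut_edges {A : Finset (Finset V)} {g : Finset V} (hg : g.card = 3)
    (hb : bdry A = bdry {g}) : edges (insert g A) = edges A := by
  apply Finset.Subset.antisymm
  · intro e he
    rw [mem_edges] at he
    obtain ⟨h1, t, ht, h2⟩ := he
    rw [Finset.mem_insert] at ht
    rcases ht with rfl | ht
    · have h3 : e ∈ bdry {t} := (mem_bdry_single hg).2 ⟨h1, h2⟩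
      rw [← hb] at h3
      exact bdry_subset_edges (Finset.Subset.refl _) h3
    · exact mem_edges.2 ⟨h1, t, ht, h2⟩
  · exact edges_mono (Finset.subset_insert _ _)

/-- a common edge of the two sides is in the boundary -/
theorem cut_common {T A : Finset (Finset V)} (h : Sph T) (hA : A ⊆ T) {e : Finset V}
    (h1 : e ∈ edges A) (h2 : e ∈ edges (T \ A)) : e ∈ bdry A := by
  rw [mem_edges_iff] at h1 h2
  have h3 := h.le2 h1.1
  rw [tdeg_split hA] at h3
  rw [mem_bdry]
  refine ⟨h1.1, ?_⟩
  have h4 : tdeg A e = 1 := by omega
  rw [h4]
  decide

theorem tdeg_star {D : Finset (Finset V)} (v u : V) : tdeg (star D v) {v, u} = tdeg D {v, u} := by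
  unfold tdeg
  congr 1
  ext t
  simp only [Finset.mem_filter, mem_star]
  constructor
  · rintro ⟨⟨a1, -⟩, a2⟩
    exact ⟨a1, a2⟩
  · rintro ⟨a1, a2⟩
    exact ⟨⟨a1, a2 (by simp)⟩, a2⟩

/-- CUT LEMMA -/
theorem cut {T A : Finset (Finset V)} (h : Sph T) (hA : A ⊆ T) {g : Finset V}
    (hg : g.card = 3) (hgT : g ∉ T) (hb : bdry A = bdry {g}) : Sph (insert g A) := by
  have hgA : g ∉ A := fun h1 => hgT (hA h1)
  have hne : (bdry ({g} : Finset (Finset V))).Nonempty := by
    obtain ⟨x, y, z, hxy, hxz, hyz, rfl⟩ := Finset.card_eq_three.1 hg
    rw [bdry_single hxy hyz hxz]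
    exact ⟨{x, y}, by simp⟩
  have hAne : A ≠ ∅ := by
    rintro rfl
    rw [bdry_empty] at hb
    rw [← hb] at hne
    exact Finset.not_nonempty_empty hne
  have hAT : A ≠ T := by
    rintro rfl
    rw [h.bdry_self] at hb
    rw [← hb] at hne
    exact Finset.not_nonempty_empty hne
  have hbB : bdry (T \ A) = bdry {g} := by rw [h.bdry_compl hA, hb]
  have he := cut_edges hg hb
  refine ⟨?_, ?_, ?_, ?_, ?_⟩
  · intro t ht
    rw [Finset.mem_insert] at ht
    rcases ht with rfl | ht
    · exact hg
    · exact h.card3 t (hA ht)
  · intro e h1
    rw [he] at h1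
    have h2 : e.card = 2 ∧ 0 < tdeg A e := mem_edges_iff.1 h1
    rw [tdeg_insert hgA]
    have h3 : tdeg A e ≤ 2 := (tdeg_mono hA e).trans (h.le2 h2.1)
    by_cases h4 : e ⊆ g
    · rw [if_pos h4]
      have h5 : e ∈ bdry A := by
        rw [hb]
        exact (mem_bdry_single hg).2 ⟨h2.1, h4⟩
      obtain ⟨k, hk⟩ := (mem_bdry.1 h5).2
      omega
    · rw [if_neg h4]
      have h5 : e ∉ bdry A := by
        rw [hb]
        exact fun h6 => h4 ((mem_bdry_single hg).1 h6).2
      have h6 : Even (tdeg A e) := by
        rw [← Nat.not_odd_iff_even]
        exact fun h7 => h5 (mem_bdry.2 ⟨h2.1, h7⟩)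
      obtain ⟨k, hk⟩ := h6
      omega
  · intro v S hS hL
    by_cases hv : v ∈ g
    · -- the vertex is in the cycle
      have hB : (star (T \ A) v).Nonempty := by
        obtain ⟨u, hu, huv⟩ : ∃ u ∈ g, u ≠ v := Finset.exists_mem_ne (by omega) v
        have h1 : ({v, u} : Finset V) ∈ bdry (T \ A) := by
          rw [hbB]
          refine (mem_bdry_single hg).2 ⟨Finset.card_pair huv.symm, ?_⟩
          intro x hx
          simp only [Finset.mem_insert, Finset.mem_singleton] at hx
          rcases hx with rfl | rfl
          · exact hv
          · exact hu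
        have h2 := (mem_bdry.1 h1).2.pos
        unfold tdeg at h2
        obtain ⟨t, ht⟩ := Finset.card_pos.1 h2
        rw [Finset.mem_filter] at ht
        exact ⟨t, mem_star.2 ⟨ht.1, ht.2 (by simp)⟩⟩
      by_cases hgS : g ∈ S
      · right
        set S' := S.erase g ∪ star (T \ A) v with hS'
        have hdis : Disjoint (S.erase g) (star (T \ A) v) := by
          rw [Finset.disjoint_left]
          intro t h1 h2
          rw [Finset.mem_erase] at h1
          have h3 := mem_star.1 (hS h1.2)
          rw [Finset.mem_insert] at h3
          rcases h3.1 with h4 | h4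
          · exact h1.1 h4
          · exact (Finset.mem_sdiff.1 (mem_star.1 h2).1).2 h4
        have h1 : S' ⊆ star T v := by
          intro t ht
          rw [hS', Finset.mem_union, Finset.mem_erase] at ht
          rcases ht with ht | ht
          · have h3 := mem_star.1 (hS ht.2)
            rw [Finset.mem_insert] at h3
            rcases h3.1 with h4 | h4
            · exact absurd h4 ht.1
            · exact mem_star.2 ⟨hA h4, h3.2⟩
          · have h3 := mem_star.1 ht
            exact mem_star.2 ⟨(Finset.mem_sdiff.1 h3.1).1, h3.2⟩
        have h2 : LinkEven S' v := by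
          intro u hu
          have e1 := hL u hu
          have e2 : tdeg S {v, u} = tdeg (S.erase g) {v, u} + if {v, u} ⊆ g then 1 else 0 := by
            have e3 := tdeg_insert (A := S.erase g) (g := g) (by simp) {v, u}
            rw [Finset.insert_erase hgS] at e3
            exact e3
          have e4 : tdeg S' {v, u} = tdeg (S.erase g) {v, u} + tdeg (T \ A) {v, u} := by
            rw [hS', tdeg_union hdis, tdeg_star]
          have e5 : Odd (tdeg (T \ A) {v, u}) ↔ {v, u} ⊆ g := by
            have e6 : ({v, u} : Finset V) ∈ bdry (T \ A) ↔ ({v, u} : Finset V) ∈ bdry {g} := by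
              rw [hbB]
            rw [mem_bdry, mem_bdry_single hg] at e6
            have e7 : ({v, u} : Finset V).card = 2 := Finset.card_pair (Ne.symm hu)
            tauto
          rw [e4]
          rw [e2] at e1
          by_cases e8 : ({v, u} : Finset V) ⊆ g
          · rw [if_pos e8] at e1
            have e9 := e5.2 e8
            obtain ⟨k, hk⟩ := e1
            obtain ⟨l, hl⟩ := e9
            exact ⟨k + l, by omega⟩
          · rw [if_neg e8] at e1
            have e9 : Even (tdeg (T \ A) {v, u}) := by
              rw [← Nat.not_odd_iff_even]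
              exact fun e10 => e8 (e5.1 e10)
            obtain ⟨k, hk⟩ := e1
            obtain ⟨l, hl⟩ := e9
            exact ⟨k + l, by omega⟩
        rcases h.conn v S' h1 h2 with h3 | h3
        · obtain ⟨t, ht⟩ := hB
          have : t ∈ S' := by
            rw [hS', Finset.mem_union]
            exact Or.inr ht
          rw [h3] at this
          simp at this
        · apply Finset.Subset.antisymm hS
          intro t ht
          rw [mem_star, Finset.mem_insert] at ht
          rcases ht.1 with h4 | h4
          · rw [h4]
            exact hgS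
          · have h5 : t ∈ S' := by
              rw [h3]
              exact mem_star.2 ⟨hA h4, ht.2⟩
            rw [hS', Finset.mem_union, Finset.mem_erase] at h5
            rcases h5 with h5 | h5
            · exact h5.2
            · exact absurd h4 (Finset.mem_sdiff.1 (mem_star.1 h5).1).2
      · left
        have h1 : S ⊆ star T v := by
          intro t ht
          have h3 := mem_star.1 (hS ht)
          rw [Finset.mem_insert] at h3
          rcases h3.1 with h4 | h4
          · rw [h4] at ht
            exact absurd ht hgS
          · exact mem_star.2 ⟨hA h4, h3.2⟩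
        rcases h.conn v S h1 hL with h2 | h2
        · exact h2
        · exfalso
          obtain ⟨t, ht⟩ := hB
          have h3 : t ∈ S := by
            rw [h2]
            exact mem_star.2 ⟨(Finset.mem_sdiff.1 (mem_star.1 ht).1).1, (mem_star.1 ht).2⟩
          have h4 := mem_star.1 (hS h3)
          rw [Finset.mem_insert] at h4
          rcases h4.1 with h5 | h5
          · rw [h5] at h3
            exact hgS h3
          · exact (Finset.mem_sdiff.1 (mem_star.1 ht).1).2 h5
    · -- the vertex is not in the cycle
      have h0 : star (insert g A) v = star A v := by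
        ext t
        rw [mem_star, mem_star, Finset.mem_insert]
        constructor
        · rintro ⟨rfl | h1, h2⟩
          · exact absurd h2 hv
          · exact ⟨h1, h2⟩
        · rintro ⟨h1, h2⟩
          exact ⟨Or.inr h1, h2⟩
      rw [h0] at hS ⊢
      by_cases hne' : (star A v).Nonempty
      · have h1 : star A v = star T v := by
          have h2 : LinkEven (star A v) v := by
            intro u hu
            rw [tdeg_star, ← Nat.not_odd_iff_even]
            intro h3
            have h4 : ({v, u} : Finset V) ∈ bdry A := mem_bdry.2 ⟨Finset.card_pair (Ne.symm hu), h3⟩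
            rw [hb, mem_bdry_single hg] at h4
            exact hv (h4.2 (by simp))
          rcases h.conn v _ (star_mono hA v) h2 with h3 | h3
          · rw [h3] at hne'
            exact absurd hne' Finset.not_nonempty_empty
          · exact h3
        rw [h1] at hS ⊢
        exact h.conn v S hS hL
      · rw [Finset.not_nonempty_iff_eq_empty] at hne'
        rw [hne'] at hS
        left
        exact Finset.subset_empty.1 hS
  · intro C hC hcyc
    rw [he] at hC
    obtain ⟨D, hD, hDC⟩ := h.H1 C (hC.trans (edges_mono hA)) hcyc
    -- the part outside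
    have h1 : bdry (D ∩ (T \ A)) ⊆ bdry {g} := by
      intro e h2
      rw [mem_bdry] at h2
      have h3 : e ∈ edges (T \ A) := by
        rw [mem_edges_iff]
        exact ⟨h2.1, lt_of_lt_of_le h2.2.pos (tdeg_mono Finset.inter_subset_right e)⟩
      by_cases h4 : e ∈ edges A
      · rw [← hb]
        exact cut_common h hA h4 h3
      · exfalso
        have h5 : tdeg (D ∩ A) e = 0 := by
          have h6 : tdeg A e = 0 := by
            by_contra h7
            exact h4 (mem_edges_iff.2 ⟨h2.1, by omega⟩)
          have := tdeg_mono (Finset.inter_subset_right : D ∩ A ⊆ A) e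
          omega
        have h6 : tdeg D e = tdeg (D ∩ A) e + tdeg (D ∩ (T \ A)) e := by
          rw [← tdeg_union]
          · congr 1
            ext t
            simp only [Finset.mem_union, Finset.mem_inter, Finset.mem_sdiff]
            have := @hD t
            tauto
          · rw [Finset.disjoint_left]
            intro t h7 h8
            exact (Finset.mem_sdiff.1 (Finset.mem_inter.1 h8).2).2 (Finset.mem_inter.1 h7).2
        have h7 : e ∈ bdry D := by
          rw [mem_bdry, h6, h5, Nat.zero_add]
          exact h2
        rw [hDC] at h7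
        exact h4 (hC h7)
    have h2 : IsCyc (bdry (D ∩ (T \ A))) := isCyc_bdry fun t ht =>
      h.card3 t (Finset.mem_sdiff.1 (Finset.mem_inter.1 ht).2).1
    have h3 : bdry (D ∩ (T \ A)) = ∅ ∨ bdry (D ∩ (T \ A)) = bdry {g} := by
      by_cases h4 : bdry (D ∩ (T \ A)) = ∅
      · exact Or.inl h4
      · right
        apply Finset.eq_of_subset_of_card_le h1
        have h5 := three_le_card_of_isCyc h2 (Finset.nonempty_iff_ne_empty.2 h4)
        refine le_trans ?_ h5
        obtain ⟨x, y, z, hxy, hxz, hyz, rfl⟩ := Finset.card_eq_three.1 hg
        rw [bdry_single hxy hyz hxz]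
        exact Finset.card_le_three
    have h6 : D ∩ (T \ A) = ∅ ∨ D ∩ (T \ A) = T \ A := by
      rcases h3 with h3 | h3
      · rcases h.H2 _ (Finset.inter_subset_left.trans hD) h3 with h4 | h4
        · exact Or.inl h4
        · exfalso
          obtain ⟨t, ht⟩ := Finset.nonempty_iff_ne_empty.2 hAne
          have h5 : t ∈ D ∩ (T \ A) := by
            rw [h4]
            exact hA ht
          exact (Finset.mem_sdiff.1 (Finset.mem_inter.1 h5).2).2 ht
      · rw [← hbB] at h3
        rcases h.uniq (Finset.inter_subset_left.trans hD) Finset.sdiff_subset h3 with h4 | h4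
        · exact Or.inr h4
        · exfalso
          obtain ⟨t, ht⟩ := Finset.nonempty_iff_ne_empty.2 hAne
          have h5 : t ∈ D ∩ (T \ A) := by
            rw [h4, Finset.mem_sdiff, Finset.mem_sdiff]
            exact ⟨hA ht, fun h6 => h6.2 ht⟩
          exact (Finset.mem_sdiff.1 (Finset.mem_inter.1 h5).2).2 ht
    rcases h6 with h6 | h6
    · refine ⟨D, ?_, hDC⟩
      intro t ht
      rw [Finset.mem_insert]
      right
      by_contra h7
      have h8 : t ∈ D ∩ (T \ A) := Finset.mem_inter.2 ⟨ht, Finset.mem_sdiff.2 ⟨hD ht, h7⟩⟩
      rw [h6] at h8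
      simp at h8
    · refine ⟨insert g (D ∩ A), ?_, ?_⟩
      · exact Finset.insert_subset_insert _ Finset.inter_subset_right
      · have e1 : insert g (D ∩ A) = symmDiff {g} (D ∩ A) := by
          ext t
          rw [Finset.mem_insert, Finset.mem_symmDiff, Finset.mem_singleton]
          constructor
          · rintro (rfl | h7)
            · exact Or.inl ⟨rfl, fun h8 => hgA (Finset.mem_inter.1 h8).2⟩
            · refine Or.inr ⟨h7, ?_⟩
              rintro rfl
              exact hgA (Finset.mem_inter.1 h7).2
          · rintro (h7 | h7)
            · exact Or.inl h7.1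
            · exact Or.inr h7.1
        have e2 : D = symmDiff (D ∩ A) (T \ A) := by
          ext t
          have h7 : t ∈ D ∩ (T \ A) ↔ t ∈ T \ A := by rw [h6]
          rw [Finset.mem_inter, Finset.mem_sdiff] at h7
          rw [Finset.mem_symmDiff, Finset.mem_inter, Finset.mem_sdiff]
          have := @hD t
          tauto
        rw [e1, bdry_symm, ← hbB, ← hDC]
        conv_rhs => rw [e2, bdry_symm]
        rw [symmDiff_comm]
  · intro D hD hDb
    by_cases hgD : g ∈ D
    · right
      have h1 : D.erase g ⊆ A := by
        intro t ht
        rw [Finset.mem_erase] at ht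
        have := hD ht.2
        rw [Finset.mem_insert] at this
        rcases this with h2 | h2
        · exact absurd h2 ht.1
        · exact h2
      have h2 : bdry (D.erase g) = bdry {g} := by
        have e1 : D = symmDiff {g} (D.erase g) := by
          ext t
          rw [Finset.mem_symmDiff, Finset.mem_singleton, Finset.mem_erase]
          by_cases h3 : t = g
          · subst h3
            simp [hgD]
          · simp [h3]
        rw [e1, bdry_symm] at hDb
        exact (symmDiff_eq_bot.1 hDb).symm
      rw [← hb] at h2
      rcases h.uniq (h1.trans hA) hA h2 with h3 | h3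
      · rw [← h3, Finset.insert_erase hgD]
      · exfalso
        obtain ⟨t, ht⟩ : (T \ A).Nonempty := by
          rw [Finset.nonempty_iff_ne_empty]
          intro h4
          rw [Finset.sdiff_eq_empty_iff_subset] at h4
          exact hAT (Finset.Subset.antisymm hA h4)
        rw [← h3] at ht
        have h5 := h1 ht
        rw [h3] at ht
        exact (Finset.mem_sdiff.1 ht).2 h5
    · left
      have h1 : D ⊆ A := by
        intro t ht
        have := hD ht
        rw [Finset.mem_insert] at this
        rcases this with h2 | h2
        · rw [h2] at ht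
          exact absurd ht hgD
        · exact h2
      rcases h.H2 D (h1.trans hA) hDb with h2 | h2
      · exact h2
      · rw [h2] at h1
        exact absurd (Finset.Subset.antisymm hA h1) hAT

end Pool.Agent.SplD
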