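import Pool.Agent.SplD.Coarse
import Pool.Agent.Spl2.Util

/-!
# General triangulated discs, `r = 2`, `k = 4`: definitions (the characteristic 2 system)

Everything is over a field `K` of characteristic 2; positions `p : V → K × K`, motions `w : V → Fin 6 → K`
(`Spl2/Defs.lean`: `cu (w v) x x` is the cubic form `C_v(x)`, `ad (w v) x` the additive form `h_v(x)`).

`Eqs p E w`: the equations of the edges in `E` (no pinned vertices).
`NSp p E I`: the space of motions which vanish outside `I`.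
`tr o t`: the trivial motions centred at `o`: with `y = x - o`
`C_x(d) = C(d) + [y,d]² ℓ(d)`, `h_x(d) = C~(y;d) + h(d) + (ℓ(y) + c) [y,d]²`, where
`C(d) = t0 d₁³ + t1 d₁² d₂ + t2 d₁ d₂² + t3 d₂³`, `C~(y;d) = d₁² (t0 y₁ + t1 y₂) + d₂² (t2 y₁ + t3 y₂)`,
`h(d) = t4 d₁² + t5 d₂²`, `ℓ(d) = t6 d₁ + t7 d₂`, `c = t8`.
`Triv p f w`: `w` is trivial on the set `f` of vertices.
`Ndg p f`: the vertices of `f` are not collinear.
`gn`, `ls`, `kap`: for `a : V → {0, 1, 2}` the number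
`kap T a = ∑_v (binom(a v + 4, 2) - 6) - ∑_{e ∈ edges T} min 3 (∑_{v ∈ e} binom(a v + 1, 2))`.
`Att K T f a`: the statement proved by induction for a sphere `T` with a pinned triangle `f`.
-/

set_option autoImplicit false

namespace Pool.Agent.SplD

open Finset Pool.Agent.Spl1 Pool.Agent.Spl2

variable {V : Type*} [Fintype V] [DecidableEq V] {K : Type*} [Field K]

/-- the equations of the edges of `E` -/
def Eqs (p : V → K × K) (E : Finset (Finset V)) (w : V → Fin 6 → K) : Prop :=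
  ∀ u v, u ≠ v → ({u, v} : Finset V) ∈ E →
    cu (w u) (p v - p u) (p v - p u) = ad (w u) (p v - p u) + ad (w v) (p v - p u)

/-- the space of motions -/
def NSp (p : V → K × K) (E : Finset (Finset V)) (I : Finset V) : Submodule K (V → Fin 6 → K) where
  carrier := {w | NMot p E I w}
  zero_mem' := ⟨fun v _ => rfl, fun u v _ _ => by
    rw [Pi.zero_apply, Pi.zero_apply, cu_zero, ad_zero, add_zero]⟩
  add_mem' := by
    intro x y hx hy
    refine ⟨fun v hv => ?_, fun u v huv he => ?_⟩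
    · rw [Pi.add_apply, hx.pin v hv, hy.pin v hv, add_zero]
    · rw [Pi.add_apply, Pi.add_apply, cu_addw, ad_addw, ad_addw, hx.eq u v huv he, hy.eq u v huv he]
      ring
  smul_mem' := by
    intro c x hx
    refine ⟨fun v hv => ?_, fun u v huv he => ?_⟩
    · rw [Pi.smul_apply, hx.pin v hv, smul_zero]
    · rw [Pi.smul_apply, Pi.smul_apply, cu_smulw, ad_smulw, ad_smulw, hx.eq u v huv he, mul_add]

theorem mem_NSp {p : V → K × K} {E : Finset (Finset V)} {I : Finset V} {w : V → Fin 6 → K} :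
    w ∈ NSp p E I ↔ NMot p E I w := Iff.rfl

/-- the trivial motions centred at `o` -/
def tr (o : K × K) (t : Fin 9 → K) (x : K × K) : Fin 6 → K :=
  ![t 0 + t 6 * (x.2 - o.2) ^ 2, t 1 + t 7 * (x.2 - o.2) ^ 2,
    t 2 + t 6 * (x.1 - o.1) ^ 2, t 3 + t 7 * (x.1 - o.1) ^ 2,
    t 4 + t 0 * (x.1 - o.1) + t 1 * (x.2 - o.2) +
      (t 6 * (x.1 - o.1) + t 7 * (x.2 - o.2) + t 8) * (x.2 - o.2) ^ 2,
    t 5 + t 2 * (x.1 - o.1) + t 3 * (x.2 - o.2) +
      (t 6 * (x.1 - o.1) + t 7 * (x.2 - o.2) + t 8) * (x.1 - o.1) ^ 2]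

/-- `w` is a trivial motion on `f` -/
def Triv (p : V → K × K) (f : Finset V) (w : V → Fin 6 → K) : Prop :=
  ∃ o t, ∀ v ∈ f, w v = tr o t (p v)

/-- no three vertices of `f` are collinear -/
def Ndg (p : V → K × K) (f : Finset V) : Prop :=
  ∀ a b c, a ∈ f → b ∈ f → c ∈ f → a ≠ b → b ≠ c → a ≠ c → br (p b - p a) (p c - p a) ≠ 0

/-- the gain of a vertex -/
def gn (x : ℕ) : ℤ := ((x + 4).choose 2 : ℤ) - 6

/-- the loss of an edge -/
def ls (a : V → ℕ) (e : Finset V) : ℕ := min 3 (∑ v ∈ e, (a v + 1).choose 2)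

/-- the excess of `a` -/
def kap (T : Finset (Finset V)) (a : V → ℕ) : ℤ :=
  ∑ v ∈ vs T, gn (a v) - ∑ e ∈ edges T, (ls a e : ℤ)

variable (K) in
/-- the statement proved by induction -/
structure Att (T : Finset (Finset V)) (f : Finset V) (a : V → ℕ) : Prop where
  le2 : ∀ v, a v ≤ 2
  supp : ∀ v, a v ≠ 0 → v ∈ vs T ∧ v ∉ f
  ext : ∀ (q : V → K × K) (μ : V → Fin 6 → K), Ndg q f → Eqs q (bdry {f}) μ → ¬ Triv q f μ →
    ∃ p : V → K × K, (∀ v ∈ f, p v = q v) ∧
      (Module.finrank K (NSp p (edges T) (vs T \ f)) : ℤ) ≤ kap T a ∧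
      (0 < kap T a → ∀ w : V → Fin 6 → K, (∀ v ∈ f, w v = μ v) → ¬ Eqs p (edges T) w)

end Pool.Agent.SplD
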