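import Pool.Agent.SplD.PInd

/-!
# Spheres with all the neighbours of a vertex pinned
-/

set_option autoImplicit false

namespace Pool.Agent.SplD

open Finset Pool.Agent.Spl1 Pool.Agent.Spl2

variable {V : Type*} [Fintype V] [DecidableEq V]

variable {T R : Finset (Finset V)} {f : Finset V} {D : Finset V → Finset (Finset V)}

theorem star_self {o : V} (h : o ∈ vs T) : o ∈ vs (star T o) := by
  obtain ⟨t, ht, hot⟩ := mem_vs.1 h
  exact mem_vs.2 ⟨t, mem_star.2 ⟨ht, hot⟩, hot⟩

theorem star_edge {o v : V} (h : ({v, o} : Finset V) ∈ edges T) : v ∈ vs (star T o) := by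
  obtain ⟨t, ht, h1, h2⟩ := edge_mem h
  exact mem_vs.2 ⟨t, mem_star.2 ⟨ht, h2⟩, h1⟩

theorem star_cases {o v : V} (h : v ∈ vs (star T o)) :
    v = o ∨ ({v, o} : Finset V) ∈ edges T := by
  obtain ⟨t, ht, hv⟩ := mem_vs.1 h
  obtain ⟨ht, ho⟩ := mem_star.1 ht
  by_cases hvo : v = o
  · exact Or.inl hvo
  · exact Or.inr (edge_of_tri ht hvo hv ho)

theorem star_mono {T T' : Finset (Finset V)} (hE : edges T ⊆ edges T') (hV : vs T ⊆ vs T') {o v : V}
    (h : v ∈ vs (star T o)) : v ∈ vs (star T' o) := by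
  rcases star_cases h with h1 | h1
  · have ho : o ∈ vs T := by
      obtain ⟨t, ht, -⟩ := mem_vs.1 h
      exact mem_vs.2 ⟨t, (mem_star.1 ht).1, (mem_star.1 ht).2⟩
    rw [h1]
    exact star_self (hV ho)
  · exact star_edge (hE h1)

section

variable {K : Type} [Field K]

/-- a nontrivial motion of a triangle -/
theorem exists_nontriv [CharP K 2] {g : Finset V} (hg : g.card = 3) {p : V → K × K}
    (hp : Ndg p g) : ∃ μ : V → Fin 6 → K, Eqs p (bdry {g}) μ ∧ ¬ Triv p g μ := by
  obtain ⟨a, b, c, hab, hac, hbc, rfl⟩ := Finset.card_eq_three.1 hg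
  obtain ⟨la, hla⟩ : ∃ l, l = p b - p a := ⟨_, rfl⟩
  obtain ⟨lb, hlb⟩ : ∃ l, l = p c - p a := ⟨_, rfl⟩
  have bab : br la lb ≠ 0 := by
    rw [hla, hlb]
    exact hp a b c (by simp) (by simp) (by simp) hab hbc hac
  have hcw0 : cw la lb (la + lb) ≠ 0 := by
    intro h
    have h1 := cu_cw la lb (la + lb) la lb
    rw [h, cu_zero, br_self, br_add_right, br_self, br_swap lb la] at h1
    have h2 : br la lb * br la lb * br la lb = 0 := by linear_combination h1
    exact mul_ne_zero (mul_ne_zero bab bab) bab h2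
  refine ⟨fun u => if u = a then cw la lb (la + lb) else 0, ?_, ?_⟩
  · intro u u' huu he
    have he' := ((mem_bdry_single hg).1 he).2
    have hu : u ∈ ({a, b, c} : Finset V) := he' (by simp)
    have hu' : u' ∈ ({a, b, c} : Finset V) := he' (by simp)
    simp only [Finset.mem_insert, Finset.mem_singleton] at hu hu'
    beta_reduce
    by_cases h1 : u = a
    · have h2 : u' ≠ a := fun h3 => huu (h1.trans h3.symm)
      rw [h1, if_pos rfl, if_neg h2, ad_zero, ad_cw, add_zero, cu_cw_self]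
      rcases hu' with rfl | rfl | rfl
      · exact absurd rfl h2
      · rw [← hla, br_self]; ring
      · rw [← hlb, br_self]; ring
    · by_cases h2 : u' = a
      · rw [if_neg h1, if_pos h2, ad_zero, cu_zero, ad_cw, add_zero]
      · rw [if_neg h1, if_neg h2, ad_zero, cu_zero, add_zero]
  · rintro ⟨o, t, ht⟩
    have ta := ht a (by simp)
    have tb := ht b (by simp)
    have tc := ht c (by simp)
    beta_reduce at ta tb tc
    rw [if_neg hab.symm] at tb
    rw [if_neg hac.symm] at tc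
    rw [if_pos rfl, tr_zero_of (by rw [← hla, ← hlb]; exact bab) tb.symm tc.symm] at ta
    exact hcw0 ta

/-- good positions of the root block when all the neighbours of `o` are pinned -/
theorem exists_root_pos [CharP K 2] [Infinite K] (hNG : HNG V) (hR : Sph R) (hF : Fac3 R)
    (hfR : f ∈ R) {o : V} (hof : o ∈ f) {q : V → K × K} (hq : Ndg q f) :
    ∃ p0 : V → K × K, (∀ v ∈ f, p0 v = q v) ∧ (∀ g ∈ R, Ndg p0 g) ∧
      ∀ w : V → Fin 6 → K, Eqs p0 (edges R) w → (∀ v ∈ vs (star R o), w v = 0) →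
        ∀ v ∈ vs R, w v = 0 := by
  have hfs : ∀ x ∈ f, x ∈ vs (star R o) := fun x hx =>
    mem_vs.2 ⟨f, mem_star.2 ⟨hfR, hof⟩, hx⟩
  by_cases h5 : 4 < R.card
  · obtain ⟨p0, h1, h2, h3⟩ := exists_pos K hR hfR (hNG R hR hF (hR.eight_le hF h5)) hq
    exact ⟨p0, h1, h2, fun w hw hz =>
      nns_zero (h3 f hfR) hw (fun _ _ => rfl) fun v hv => hz v (hfs v hv)⟩
  · obtain ⟨v, hT⟩ := four_struct hR hfR (not_lt.1 h5)
    obtain ⟨a, b, c, hab, hac, hbc, hfe⟩ := Finset.card_eq_three.1 (hR.card3 f hfR)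
    have ha : a ∈ f := by rw [hfe]; simp
    have hb : b ∈ f := by rw [hfe]; simp
    have hc : c ∈ f := by rw [hfe]; simp
    have hne : ∀ x ∈ f, x ≠ v := fun x hx h1 => hT.notMem (h1 ▸ hx)
    obtain ⟨p0, hp0⟩ : ∃ p0 : V → K × K, p0 = fun u => if u = v then q a + q b + q c else q u :=
      ⟨_, rfl⟩
    have hp0v : p0 v = q a + q b + q c := by rw [hp0]; exact if_pos rfl
    have hp0f : ∀ x ∈ f, p0 x = q x := by
      intro x hx
      rw [hp0]
      exact if_neg (hne x hx)
    have hN := hq a b c ha hb hc hab hbc hac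
    have key : ∀ y ∈ f, ∀ z ∈ f, y ≠ z → br (p0 y - p0 v) (p0 z - p0 v) ≠ 0 := by
      have e1 : br (q a - (q a + q b + q c)) (q b - (q a + q b + q c)) ≠ 0 := by
        intro h
        apply hN
        rw [← h]
        simp only [br, Prod.fst_sub, Prod.snd_sub, Prod.fst_add, Prod.snd_add]
        (rw [← sub_eq_zero]; ring_nf; try reduce_mod_char!)
      have e2 : br (q a - (q a + q b + q c)) (q c - (q a + q b + q c)) ≠ 0 := by
        intro h
        apply hN
        rw [← h]
        simp only [br, Prod.fst_sub, Prod.snd_sub, Prod.fst_add, Prod.snd_add]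
        (rw [← sub_eq_zero]; ring_nf; try reduce_mod_char!)
      have e3 : br (q b - (q a + q b + q c)) (q c - (q a + q b + q c)) ≠ 0 := by
        intro h
        apply hN
        rw [← h]
        simp only [br, Prod.fst_sub, Prod.snd_sub, Prod.fst_add, Prod.snd_add]
        (rw [← sub_eq_zero]; ring_nf; try reduce_mod_char!)
      intro y hy z hz hyz
      rw [hp0v, hp0f y hy, hp0f z hz]
      rw [hfe] at hy hz
      simp only [Finset.mem_insert, Finset.mem_singleton] at hy hz
      rcases hy with rfl | rfl | rfl <;> rcases hz with rfl | rfl | rfl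
      · exact absurd rfl hyz
      · exact e1
      · exact e2
      · rw [br_swap]; exact neg_ne_zero.2 e1
      · exact absurd rfl hyz
      · exact e3
      · rw [br_swap]; exact neg_ne_zero.2 e2
      · rw [br_swap]; exact neg_ne_zero.2 e3
      · exact absurd rfl hyz
    obtain ⟨w0, hw0⟩ := exists_tetM hR hfR hT key
    refine ⟨p0, hp0f, ?_, ?_⟩
    · intro g hg
      by_cases hgf : g = f
      · rw [hgf]
        exact ndg_congr hq hp0f
      · exact hw0.ndg g hg hgf
    · intro w _ hz u hu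
      apply hz
      rw [hT.vs_eq, Finset.mem_insert] at hu
      rcases hu with rfl | hu
      · exact star_edge (hT.edge o hof)
      · exact hfs u hu

theorem p_o [CharP K 2] [Infinite K] (hNG : HNG V) (o : V) :
    ∀ n : ℕ, ∀ T : Finset (Finset V), T.card = n → Sph T → ∀ f ∈ T, o ∈ f → ∀ q : V → K × K,
      Ndg q f → ∃ (a : V → ℕ) (p : V → K × K), (∀ v, a v ≤ 2) ∧
        (∀ v, a v ≠ 0 → v ∈ vs T ∧ v ∉ vs (star T o)) ∧ (∀ v ∈ f, p v = q v) ∧
        (Module.finrank K (NSp p (edges T) (vs T \ vs (star T o))) : ℤ) ≤ kap T a := by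
  intro n
  induction n using Nat.strong_induction_on with
  | _ n ih =>
  intro T hn h f hf hof q hq
  obtain ⟨R, D, hc, hF⟩ := exists_root h hf
  have hf3 := h.card3 f hf
  have hR := hc.sph
  have hfR := hc.mem
  have hoR : o ∈ vs R := co_face_vs hc hfR hof
  obtain ⟨p0, hp0f, hp0N, hp0z⟩ := exists_root_pos hNG hR hF hfR hof hq
  have hA' : ∀ g : Finset V, ∃ (a : V → ℕ) (p : V → K × K), g ∈ att T R f → (∀ v, a v ≤ 2) ∧
      (∀ v, a v ≠ 0 → v ∈ vs (Tg D g) ∧ v ∉ g ∧ v ∉ vs (star (Tg D g) o)) ∧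
      (∀ v ∈ g, p v = p0 v) ∧ (Module.finrank K (NSp p (edges (Tg D g))
        (vs (Tg D g) \ (g ∪ vs (star (Tg D g) o)))) : ℤ) ≤ kap (Tg D g) a := by
    intro g
    by_cases hg : g ∈ att T R f
    · obtain ⟨g1, g2, g3⟩ := mem_att.1 hg
      by_cases hog : o ∈ g
      · have h1 := co_card hf hc g1 g2 g3
        rw [hn] at h1
        obtain ⟨a, p, a1, a2, a3, a4⟩ := ih _ h1 (Tg D g) rfl (co_sph h hc g1 g2 g3) g
          (mem_Tg D g) hog p0 (hp0N g g1)
        have hgs : g ⊆ vs (star (Tg D g) o) := fun x hx =>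
          mem_vs.2 ⟨g, mem_star.2 ⟨mem_Tg D g, hog⟩, hx⟩
        refine ⟨a, p, fun _ => ⟨a1, ?_, a3, ?_⟩⟩
        · intro v hv
          exact ⟨(a2 v hv).1, fun h2 => (a2 v hv).2 (hgs h2), (a2 v hv).2⟩
        · rw [Finset.union_eq_right.2 hgs]
          exact a4
      · obtain ⟨a, ha⟩ := exists_att K hNG (co_sph h hc g1 g2 g3) (mem_Tg D g)
        obtain ⟨μ, m1, m2⟩ := exists_nontriv (hR.card3 g g1) (hp0N g g1)
        obtain ⟨p, b1, b2, -⟩ := ha.ext p0 μ (hp0N g g1) m1 m2
        have hos : o ∉ vs (Tg D g) := by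
          intro h1
          exact (co_in h hc g1 g2 h1 hog).2.1 hoR
        have hse : vs (star (Tg D g) o) = ∅ := by
          rw [Finset.eq_empty_iff_forall_notMem]
          intro x hx
          obtain ⟨t, ht, -⟩ := mem_vs.1 hx
          exact hos (mem_vs.2 ⟨t, (mem_star.1 ht).1, (mem_star.1 ht).2⟩)
        refine ⟨a, p, fun _ => ⟨ha.le2, ?_, b1, ?_⟩⟩
        · intro v hv
          refine ⟨(ha.supp v hv).1, (ha.supp v hv).2, ?_⟩
          rw [hse]
          exact Finset.notMem_empty _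
        · rw [hse, Finset.union_empty]
          exact b2
    · exact ⟨0, p0, fun h1 => absurd h1 hg⟩
  choose A P hAP using hA'
  obtain ⟨p, hpR, hpg⟩ := exists_glue h hc p0 P (fun g hg => (hAP g hg).2.2.1)
  have hsupp : Supp R f D (att T R f) A :=
    { mem := fun _ hg => ⟨(mem_att.1 hg).1, (mem_att.1 hg).2.1⟩
      supp := fun g hg v hv => ⟨((hAP g hg).2.1 v hv).1, ((hAP g hg).2.1 v hv).2.1⟩ }
  have hz : ∀ w ∈ NSp p (edges T) (vs T \ vs (star T o)), ∀ v ∈ vs R, w v = 0 := by
    intro w hw v hv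
    have hw' := mem_NSp.1 hw
    refine hp0z w ?_ ?_ v hv
    · refine eqs_congr (S := vs R) (show Eqs p (edges T) w from hw'.eq) ?_
        (fun v hv => (hpR v hv).symm) (fun _ _ => rfl)
      intro u v he
      exact ⟨(edge_vs he).1, (edge_vs he).2, co_edges_sub hc he⟩
    · intro u hu
      apply hw'.pin
      intro h1
      exact (Finset.mem_sdiff.1 h1).2 (star_mono (co_edges_sub hc) (co_vs_sub hc) hu)
  refine ⟨fun v => ∑ g ∈ att T R f, A g v, p, ?_, ?_, ?_, ?_⟩
  · intro v
    beta_reduce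
    by_cases h1 : ∃ g ∈ att T R f, A g v ≠ 0
    · obtain ⟨g, hg, hgv⟩ := h1
      rw [supp_sum h hc hsupp hg hgv]
      exact (hAP g hg).1 v
    · push Not at h1
      rw [Finset.sum_eq_zero h1]
      exact Nat.zero_le _
  · intro v hv
    beta_reduce at hv
    obtain ⟨g, hg, hgv⟩ := Finset.exists_ne_zero_of_sum_ne_zero hv
    obtain ⟨h1, h2, h3⟩ := (hAP g hg).2.1 v hgv
    obtain ⟨g1, g2, g3⟩ := mem_att.1 hg
    obtain ⟨-, h4, h5⟩ := co_in h hc g1 g2 h1 h2
    refine ⟨h5, fun h6 => ?_⟩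
    rcases star_cases h6 with h7 | h7
    · exact h4 (h7 ▸ hoR)
    · exact h3 (star_edge (co_edge_in h hc g1 g2 h7 h1 h2).1)
  · intro v hv
    rw [hpR v (co_face_vs hc hfR hv), hp0f v hv]
  · rw [kap_sum h hc hsupp]
    have h1 := finrank_glue (W := NSp p (edges T) (vs T \ vs (star T o))) h hf hc
      (fun g => NSp (P g) (edges (Tg D g)) (vs (Tg D g) \ (g ∪ vs (star (Tg D g) o))))
      (fun w hw => ⟨fun v hv => (mem_NSp.1 hw).pin v
        (fun h1 => hv (Finset.mem_sdiff.1 h1).1), hz w hw⟩) (by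
        intro g hg w hw
        obtain ⟨g1, g2, g3⟩ := mem_att.1 hg
        have hw' := mem_NSp.1 hw
        have h2 := restr_att hc hg hw'.eq (fun v hv => hz w hw v (co_face_vs hc g1 hv)) (hpg g hg)
        refine ⟨fun v hv => ?_, h2.eq⟩
        rw [Finset.mem_sdiff, not_and, not_not] at hv
        by_cases hvT : v ∈ vs (Tg D g)
        · rcases Finset.mem_union.1 (hv hvT) with h3 | h3
          · exact h2.pin v (fun h4 => (Finset.mem_sdiff.1 h4).2 h3)
          · rw [restr_mem w hvT]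
            apply hw'.pin
            intro h4
            exact (Finset.mem_sdiff.1 h4).2 (star_mono (co_edgesTg hc g1 g2) (co_vsTg hc g1 g2) h3)
        · exact restr_not w hvT)
    calc (Module.finrank K (NSp p (edges T) (vs T \ vs (star T o))) : ℤ)
        ≤ ((∑ g ∈ att T R f, Module.finrank K (NSp (P g) (edges (Tg D g))
          (vs (Tg D g) \ (g ∪ vs (star (Tg D g) o)))) : ℕ) : ℤ) := by exact_mod_cast h1
      _ = ∑ g ∈ att T R f, (Module.finrank K (NSp (P g) (edges (Tg D g))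
          (vs (Tg D g) \ (g ∪ vs (star (Tg D g) o)))) : ℤ) := by push_cast; rfl
      _ ≤ _ := Finset.sum_le_sum fun g hg => (hAP g hg).2.2.2

end

end Pool.Agent.SplD
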