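import Pool.Agent.SplD.Cone
import Pool.Agent.SplD.Po
import Pool.Agent.Spl1.Tri

/-!
# The upper bound for discs over a field of characteristic 2
-/

set_option autoImplicit false

namespace Pool.Agent.SplD

open Finset Pool.Agent.Spl1 Pool.Agent.Spl2

variable {V : Type*} [Fintype V] [DecidableEq V] {T : Finset (Finset V)}

theorem bdv_iff (h : Good T (intV T)) {x : V} : x ∈ bdv T ↔ x ∉ intV T := by
  unfold intV
  rw [mem_bdv, Finset.mem_filter]
  constructor
  · rintro ⟨e, he, hx⟩ ⟨-, h1⟩
    have h2 := h1 e (bdry_subset_edges (Finset.Subset.refl _) he) hx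
    have h3 := tdeg_bdry h he
    omega
  · intro h1
    rw [not_and] at h1
    have h2 := h1 (Finset.mem_univ _)
    push Not at h2
    obtain ⟨e, he, hx, hne⟩ := h2
    obtain ⟨h3, h4⟩ := pos_tdeg.1 he
    have h5 := h.le2 e h3
    refine ⟨e, mem_bdry.2 ⟨h3, ?_⟩, hx⟩
    have h6 : tdeg T e = 1 := by omega
    rw [h6]
    exact odd_one

theorem none_mem_vs (h : Good T (intV T)) (hne : T.Nonempty) : none ∈ vs (cone T) := by
  obtain ⟨e, he⟩ := bd_ne h hne
  exact mem_vs.2 ⟨cn e, cn_mem_lft.2 he, none_mem_cn⟩

theorem star_none (h : Good T (intV T)) {x : V} :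
    some x ∈ vs (Spl1.star (cone T) none) ↔ x ∉ intV T := by
  rw [← bdv_iff h, ← none_edge]
  constructor
  · intro h1
    rcases star_cases h1 with h2 | h2
    · simp at h2
    · exact edge_swap h2
  · intro h1
    exact star_edge (edge_swap h1)

theorem some_mem_vs {x : V} (hu : x ∈ vs T) : some x ∈ vs (cone T) := by
  obtain ⟨t, ht, hx⟩ := mem_vs.1 hu
  exact mem_vs.2 ⟨mp t, mp_mem_lft.2 ht, some_mem_mp.2 hx⟩

theorem intV_sub (h : Good T (intV T)) : intV T ⊆ vs T := by
  intro x hx
  obtain ⟨t, ht⟩ := h.ne x hx
  exact mem_vs.2 ⟨t, (mem_star.1 ht).1, (mem_star.1 ht).2⟩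

/-- the excess of a function on the cone -/
theorem kap_cone (h : Good T (intV T)) {a : Option V → ℕ}
    (ha : ∀ v, a v ≠ 0 → v ∈ vs (cone T) ∧ v ∉ vs (Spl1.star (cone T) none)) :
    kap (cone T) a = ∑ v ∈ intV T, gn (a (some v)) -
      ∑ e ∈ intE T, (ls (fun v => a (some v)) e : ℤ) := by
  have hsome : ∀ v : V, a (some v) ≠ 0 → v ∈ intV T := by
    intro v hv
    by_contra h1
    exact (ha _ hv).2 ((star_none h).2 h1)
  have hnone : a none = 0 := by
    by_contra h1
    obtain ⟨h2, h3⟩ := ha _ h1
    exact h3 (star_self h2)
  have hls : ∀ e : Finset V, ls a (mp e) = ls (fun v => a (some v)) e := by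
    intro e
    unfold ls mp
    rw [Finset.sum_map]
    rfl
  unfold kap
  congr 1
  · have h1 : ∑ v ∈ intV T, gn (a (some v)) =
        ∑ v ∈ (intV T).map Function.Embedding.some, gn (a v) := by
      rw [Finset.sum_map]
      rfl
    rw [h1]
    symm
    apply Finset.sum_subset
    · intro v hv
      obtain ⟨x, hx, rfl⟩ := Finset.mem_map.1 hv
      exact some_mem_vs (intV_sub h hx)
    · intro v _ hv
      have : a v = 0 := by
        by_contra h2
        rcases v with _ | v
        · exact h2 hnone
        · exact hv (Finset.mem_map.2 ⟨v, hsome v h2, rfl⟩)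
      rw [this, gn_zero]
  · have h1 : ∑ e ∈ intE T, (ls (fun v => a (some v)) e : ℤ) =
        ∑ e ∈ (intE T).image mp, (ls a e : ℤ) := by
      rw [Finset.sum_image (fun _ _ _ _ h2 => mp_injective h2)]
      exact Finset.sum_congr rfl fun e _ => by rw [hls]
    rw [h1]
    symm
    apply Finset.sum_subset
    · intro e he
      obtain ⟨e0, he0, rfl⟩ := Finset.mem_image.1 he
      unfold intE at he0
      exact mp_edge.2 (Finset.mem_filter.1 he0).1
    · intro e he hn
      rw [ls_zero]
      · rfl
      · intro x hx
        by_contra h2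
        rcases pair_cases (mem_edges.1 he).1 with ⟨e0, h3, rfl⟩ | ⟨y, rfl⟩
        · rcases x with _ | x
          · exact h2 hnone
          · have h4 := hsome x h2
            unfold intV at h4
            apply hn
            refine Finset.mem_image.2 ⟨e0, ?_, rfl⟩
            unfold intE
            have h5 := mp_edge.1 he
            exact Finset.mem_filter.2 ⟨h5, (Finset.mem_filter.1 h4).2 e0 h5 (some_mem_mp.1 hx)⟩
        · have h4 := none_edge.1 he
          simp only [Finset.mem_insert, Finset.mem_singleton] at hx
          rcases hx with rfl | rfl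
          · exact h2 hnone
          · exact (bdv_iff h).1 h4 (hsome y h2)

section

variable {K : Type} [Field K]

theorem exists_ndg (K : Type) [Field K] {W : Type*} [DecidableEq W] {f : Finset W}
    (hf : f.card = 3) : ∃ q : W → K × K, Ndg q f := by
  obtain ⟨a, b, c, hab, hac, hbc, rfl⟩ := Finset.card_eq_three.1 hf
  refine ⟨fun u => if u = a then (0, 0) else if u = b then (1, 0) else (0, 1), ?_⟩
  intro x y z hx hy hz hxy hyz hxz
  simp only [Finset.mem_insert, Finset.mem_singleton] at hx hy hz
  rcases hx with rfl | rfl | rfl <;> rcases hy with rfl | rfl | rfl <;>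
    rcases hz with rfl | rfl | rfl <;>
    first
    | exact absurd rfl hxy
    | exact absurd rfl hyz
    | exact absurd rfl hxz
    | simp [br, hab, hab.symm, hac, hac.symm, hbc, hbc.symm]

/-- the extension of a motion by `0` -/
def extO (w : V → Fin 6 → K) : Option V → Fin 6 → K := fun v => v.elim 0 w

theorem disc_bound [CharP K 2] [Infinite K] (hNG : HNG (Option V)) (h : Good T (intV T))
    (hd : DConn T) (hne : T.Nonempty) :
    ∃ (a : V → ℕ) (p : V → K × K), (∀ v, a v ≤ 2) ∧ (∀ v, a v ≠ 0 → v ∈ intV T) ∧
      (Module.finrank K (NSp p (intE T) (intV T)) : ℤ) ≤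
        ∑ v ∈ intV T, gn (a v) - ∑ e ∈ intE T, (ls a e : ℤ) := by
  obtain ⟨e, he⟩ := bd_ne h hne
  have hS := cone_sph h hd hne
  have hf : cn e ∈ cone T := cn_mem_lft.2 he
  obtain ⟨q, hq⟩ := exists_ndg K (hS.card3 _ hf)
  obtain ⟨a, p, a1, a2, -, a4⟩ := p_o hNG none _ (cone T) rfl hS (cn e) hf none_mem_cn q hq
  have hsome : ∀ v : V, a (some v) ≠ 0 → v ∈ intV T := by
    intro v hv
    by_contra h1
    exact (a2 _ hv).2 ((star_none h).2 h1)
  refine ⟨fun v => a (some v), fun v => p (some v), fun v => a1 _, hsome, ?_⟩
  rw [kap_cone h a2] at a4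
  refine le_trans ?_ a4
  -- the map
  let L : NSp (fun v => p (some v)) (intE T) (intV T) →ₗ[K]
      NSp p (edges (cone T)) (vs (cone T) \ vs (Spl1.star (cone T) none)) :=
    { toFun := fun w => ⟨extO w.1, by
        have hw := mem_NSp.1 w.2
        refine ⟨fun v hv => ?_, fun u v huv he => ?_⟩
        · rcases v with _ | v
          · rfl
          · apply hw.pin
            intro h1
            apply hv
            refine Finset.mem_sdiff.2 ⟨some_mem_vs (intV_sub h h1), ?_⟩
            rw [star_none h]
            exact fun h2 => h2 h1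
        · rcases u with _ | u <;> rcases v with _ | v
          · exact absurd rfl huv
          · have h1 : v ∉ intV T := (bdv_iff h).1 (none_edge.1 he)
            have h2 : extO w.1 (some v) = 0 := hw.pin v h1
            have h3 : extO w.1 none = 0 := rfl
            rw [h2, h3, cu_zero, ad_zero, add_zero]
          · have h1 : u ∉ intV T := (bdv_iff h).1 (none_edge.1 (edge_swap he))
            have h2 : extO w.1 (some u) = 0 := hw.pin u h1
            have h3 : extO w.1 none = 0 := rfl
            rw [h2, h3, cu_zero, ad_zero, add_zero]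
          · have huv' : u ≠ v := fun h1 => huv (by rw [h1])
            have he' : ({u, v} : Finset V) ∈ edges T := by
              rw [← mp_edge, mp_pair]
              exact he
            show cu (w.1 u) (p (some v) - p (some u)) (p (some v) - p (some u)) =
              ad (w.1 u) (p (some v) - p (some u)) + ad (w.1 v) (p (some v) - p (some u))
            by_cases h1 : ({u, v} : Finset V) ∈ intE T
            · exact hw.eq u v huv' h1
            · have h2 : tdeg T {u, v} ≠ 2 := by
                intro h2
                apply h1
                unfold intE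
                exact Finset.mem_filter.2 ⟨he', h2⟩
              have h3 : u ∉ intV T := by
                intro h4
                unfold intV at h4
                exact h2 ((Finset.mem_filter.1 h4).2 _ he' (by simp))
              have h5 : v ∉ intV T := by
                intro h4
                unfold intV at h4
                exact h2 ((Finset.mem_filter.1 h4).2 _ he' (by simp))
              rw [hw.pin u h3, hw.pin v h5, cu_zero, ad_zero, add_zero]⟩
      map_add' := by
        intro x y
        apply Subtype.ext
        funext v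
        rcases v with _ | v
        · show (0 : Fin 6 → K) = 0 + 0
          rw [add_zero]
        · rfl
      map_smul' := by
        intro c x
        apply Subtype.ext
        funext v
        rcases v with _ | v
        · show (0 : Fin 6 → K) = c • 0
          rw [smul_zero]
        · rfl }
  have hL : Function.Injective L := by
    intro x y hxy
    apply Subtype.ext
    funext v
    have h1 := congrFun (congrArg Subtype.val hxy) (some v)
    exact h1
  exact_mod_cast LinearMap.finrank_le_finrank_of_injective hL

end

end Pool.Agent.SplD
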