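import Pool.Agent.SplD.Kap

/-!
# Extension of motions from a triangle to a nonsingular sphere
-/

set_option autoImplicit false

namespace Pool.Agent.SplD

open Finset Pool.Agent.Spl1 Pool.Agent.Spl2

variable {V : Type*} [Fintype V] [DecidableEq V] {K : Type*} [Field K]

/-- the equation of an ordered edge -/
def eqL (p : V → K × K) (a b : V) : (V → Fin 6 → K) →ₗ[K] K where
  toFun w := cu (w a) (p b - p a) (p b - p a) - ad (w a) (p b - p a) - ad (w b) (p b - p a)
  map_add' := by
    intro x y
    rw [Pi.add_apply, Pi.add_apply, cu_addw, ad_addw, ad_addw]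
    ring
  map_smul' := by
    intro c x
    rw [Pi.smul_apply, Pi.smul_apply, cu_smulw, ad_smulw, ad_smulw, RingHom.id_apply, smul_eq_mul]
    ring

theorem eqL_apply (p : V → K × K) (a b : V) (w : V → Fin 6 → K) :
    eqL p a b w = cu (w a) (p b - p a) (p b - p a) - ad (w a) (p b - p a) - ad (w b) (p b - p a) :=
  rfl

theorem eqs_iff {p : V → K × K} {E : Finset (Finset V)} {w : V → Fin 6 → K} :
    Eqs p E w ↔ ∀ a b, a ≠ b → ({a, b} : Finset V) ∈ E → eqL p a b w = 0 := by
  constructor
  · intro h a b hab he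
    rw [eqL_apply, h a b hab he]
    ring
  · intro h a b hab he
    have := h a b hab he
    rw [eqL_apply] at this
    linear_combination this

/-- extension by zero -/
def ext0 (I : Finset V) : ({v // v ∈ I} → Fin 6 → K) →ₗ[K] (V → Fin 6 → K) where
  toFun x v := if h : v ∈ I then x ⟨v, h⟩ else 0
  map_add' := by
    intro x y
    funext v
    by_cases h : v ∈ I
    · simp [h]
    · simp [h]
  map_smul' := by
    intro c x
    funext v
    by_cases h : v ∈ I
    · simp [h]
    · simp [h]

theorem ext0_mem {I : Finset V} (x : {v // v ∈ I} → Fin 6 → K) {v : V} (h : v ∈ I) :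
    ext0 I x v = x ⟨v, h⟩ := by
  show (if h : v ∈ I then x ⟨v, h⟩ else 0) = _
  rw [dif_pos h]

theorem ext0_not {I : Finset V} (x : {v // v ∈ I} → Fin 6 → K) {v : V} (h : v ∉ I) :
    ext0 I x v = 0 := by
  show (if h : v ∈ I then x ⟨v, h⟩ else 0) = _
  rw [dif_neg h]

/-- ordered pairs -/
def opairs (E : Finset (Finset V)) : Finset (V × V) :=
  univ.filter fun s => s.1 ≠ s.2 ∧ ({s.1, s.2} : Finset V) ∈ E

theorem card_opairs {E : Finset (Finset V)} (two : ∀ e ∈ E, e.card = 2) :
    (opairs E).card = 2 * E.card := by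
  have h : ∀ s ∈ opairs E, ({s.1, s.2} : Finset V) ∈ E := by
    intro s hs
    exact (Finset.mem_filter.1 hs).2.2
  rw [Finset.card_eq_sum_card_fiberwise h]
  rw [Finset.sum_congr rfl (g := fun _ => 2), Finset.sum_const, smul_eq_mul, mul_comm]
  intro e he
  obtain ⟨x, y, hxy, rfl⟩ := Finset.card_eq_two.1 (two e he)
  have h1 : (opairs E).filter (fun s => ({s.1, s.2} : Finset V) = {x, y}) = {(x, y), (y, x)} := by
    ext ⟨a, b⟩
    simp only [opairs, Finset.mem_filter, Finset.mem_univ, true_and, Finset.mem_insert,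
      Finset.mem_singleton, Prod.mk.injEq]
    constructor
    · rintro ⟨⟨hab, -⟩, h2⟩
      have ha : a ∈ ({x, y} : Finset V) := by rw [← h2]; simp
      have hb : b ∈ ({x, y} : Finset V) := by rw [← h2]; simp
      simp only [Finset.mem_insert, Finset.mem_singleton] at ha hb
      rcases ha with rfl | rfl <;> rcases hb with rfl | rfl
      · exact absurd rfl hab
      · exact Or.inl ⟨rfl, rfl⟩
      · exact Or.inr ⟨rfl, rfl⟩
      · exact absurd rfl hab
    · rintro (⟨rfl, rfl⟩ | ⟨rfl, rfl⟩)
      · exact ⟨⟨hxy, he⟩, rfl⟩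
      · exact ⟨⟨hxy.symm, by rw [Finset.pair_comm]; exact he⟩, Finset.pair_comm _ _⟩
  rw [h1, Finset.card_pair]
  intro h2
  exact hxy (Prod.ext_iff.1 h2).1

theorem ext_exists {p : V → K × K} {R : Finset (Finset V)} (hR : Sph R) {f : Finset V}
    (hf : f ∈ R) (hN : NNS p (edges R) (vs R \ f)) {μ : V → Fin 6 → K}
    (hμ : Eqs p (bdry {f}) μ) :
    ∃ w : V → Fin 6 → K, (∀ v ∈ f, w v = μ v) ∧ Eqs p (edges R) w := by
  classical
  obtain ⟨I, hI⟩ : ∃ I, I = vs R \ f := ⟨_, rfl⟩
  rw [← hI] at hN
  obtain ⟨E', hE'⟩ : ∃ E', E' = (edges R).filter (fun e => ¬ e ⊆ f) := ⟨_, rfl⟩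
  have hcard : (opairs E').card = 6 * I.card := by
    rw [card_opairs, hE', hR.card_inner hf, hI, ← vs_eq_uv]
    · ring
    · intro e he
      rw [hE', Finset.mem_filter] at he
      exact (mem_edges.1 he.1).1
  let Φ : ({v // v ∈ I} → Fin 6 → K) →ₗ[K] ({s // s ∈ opairs E'} → K) :=
    LinearMap.pi fun s => (eqL p s.1.1 s.1.2).comp (ext0 I)
  have hΦ : ∀ x s, Φ x s = eqL p s.1.1 s.1.2 (ext0 I x) := fun x s => rfl
  have hinj : Function.Injective Φ := by
    rw [← LinearMap.ker_eq_bot, LinearMap.ker_eq_bot']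
    intro x hx
    have h1 : NMot p (edges R) I (ext0 I x) := by
      refine ⟨fun v hv => ext0_not x hv, ?_⟩
      have h2 : Eqs p (edges R) (ext0 I x) := by
        rw [eqs_iff]
        intro a b hab he
        by_cases h3 : ({a, b} : Finset V) ⊆ f
        · have ha : ext0 I x a = 0 := by
            apply ext0_not
            rw [hI, Finset.mem_sdiff]
            exact fun h4 => h4.2 (h3 (by simp))
          have hb : ext0 I x b = 0 := by
            apply ext0_not
            rw [hI, Finset.mem_sdiff]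
            exact fun h4 => h4.2 (h3 (by simp))
          rw [eqL_apply, ha, hb, cu_zero, ad_zero]
          ring
        · have h4 : (a, b) ∈ opairs E' := by
            unfold opairs
            rw [Finset.mem_filter, hE', Finset.mem_filter]
            exact ⟨Finset.mem_univ _, hab, he, h3⟩
          have h5 := congrFun hx ⟨(a, b), h4⟩
          rw [hΦ] at h5
          exact h5
      exact h2
    have h2 := hN _ h1
    funext v
    have h3 := congrFun h2 v.1
    rw [ext0_mem x v.2] at h3
    exact h3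
  have hdim : Module.finrank K ({v // v ∈ I} → Fin 6 → K) =
      Module.finrank K ({s // s ∈ opairs E'} → K) := by
    rw [Module.finrank_fintype_fun_eq_card, Module.finrank_pi_fintype]
    simp only [Module.finrank_fintype_fun_eq_card, Fintype.card_fin, Fintype.card_coe, hcard,
      Finset.sum_const, Finset.card_univ, smul_eq_mul]
    ring
  have hsurj : Function.Surjective Φ :=
    (LinearMap.injective_iff_surjective_of_finrank_eq_finrank hdim).1 hinj
  let μ' : V → Fin 6 → K := fun v => if v ∈ f then μ v else 0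
  obtain ⟨x, hx⟩ := hsurj fun s => - eqL p s.1.1 s.1.2 μ'
  have hμf : ∀ v ∈ f, (ext0 I x + μ') v = μ v := by
    intro v hv
    have h1 : ext0 I x v = 0 := by
      apply ext0_not
      rw [hI, Finset.mem_sdiff]
      exact fun h4 => h4.2 hv
    show ext0 I x v + (if v ∈ f then μ v else 0) = μ v
    rw [h1, if_pos hv, zero_add]
  refine ⟨ext0 I x + μ', hμf, ?_⟩
  rw [eqs_iff]
  intro a b hab he
  by_cases h3 : ({a, b} : Finset V) ⊆ f
  · have h4 : ({a, b} : Finset V) ∈ bdry {f} :=
      (mem_bdry_single (hR.card3 f hf)).2 ⟨Finset.card_pair hab, h3⟩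
    have h5 := (eqs_iff.1 hμ) a b hab h4
    rw [eqL_apply] at h5 ⊢
    rw [hμf a (h3 (by simp)), hμf b (h3 (by simp))]
    exact h5
  · have h4 : (a, b) ∈ opairs E' := by
      unfold opairs
      rw [Finset.mem_filter, hE', Finset.mem_filter]
      exact ⟨Finset.mem_univ _, hab, he, h3⟩
    have h5 := congrFun hx ⟨(a, b), h4⟩
    rw [hΦ] at h5
    rw [map_add, h5]
    ring

end Pool.Agent.SplD
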