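import Pool.Agent.SplD.TriM

/-!
# The face lemma

If a motion of the three edges of a triangle `a b c` can be extended to a vertex of degree 3 at every
position, then it is trivial.
-/

set_option autoImplicit false

namespace Pool.Agent.SplD

open Finset Pool.Agent.Spl1 Pool.Agent.Spl2 Polynomial

variable {K : Type*} [Field K]

theorem cubic_zero [Infinite K] {c0 c1 c2 c3 s1 s2 : K}
    (h : ∀ α, α ≠ s1 → α ≠ s2 → c0 + c1 * α + c2 * α ^ 2 + c3 * α ^ 3 = 0) :
    c0 = 0 ∧ c1 = 0 ∧ c2 = 0 ∧ c3 = 0 := by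
  set P : K[X] := C c0 + C c1 * X + C c2 * X ^ 2 + C c3 * X ^ 3 with hP
  have h1 : P * ((X - C s1) * (X - C s2)) = 0 := by
    apply Polynomial.funext
    intro α
    rw [eval_mul, eval_mul, eval_sub, eval_sub, eval_X, eval_C, eval_C, eval_zero]
    by_cases e1 : α = s1
    · rw [e1, sub_self, zero_mul, mul_zero]
    · by_cases e2 : α = s2
      · rw [e2, sub_self, mul_zero, mul_zero]
      · have h2 := h α e1 e2
        have h3 : eval α P = 0 := by
          rw [hP]
          simp only [eval_add, eval_mul, eval_C, eval_X, eval_pow]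
          exact h2
        rw [h3, zero_mul]
  have h2 : P = 0 := by
    rcases mul_eq_zero.1 h1 with h2 | h2
    · exact h2
    · exact absurd h2 (mul_ne_zero (X_sub_C_ne_zero s1) (X_sub_C_ne_zero s2))
  have e : ∀ n, P.coeff n = 0 := fun n => by rw [h2, coeff_zero]
  have e0 := e 0
  have e1 := e 1
  have e2 := e 2
  have e3 := e 3
  rw [hP] at e0 e1 e2 e3
  simp [coeff_X, coeff_C] at e0 e1 e2 e3
  exact ⟨e0, e1, e2, e3⟩

theorem cu_comb [CharP K 2] (w : Fin 6 → K) (y z : K × K) (p q : K) :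
    cu w (p • y + q • z) (p • y + q • z) = p ^ 3 * cu w y y + p ^ 2 * q * cu w y z +
      q ^ 2 * p * cu w z y + q ^ 3 * cu w z z := by
  simp only [cu, Prod.fst_add, Prod.snd_add, Prod.smul_fst, Prod.smul_snd, smul_eq_mul]
  (rw [← sub_eq_zero]; ring_nf; try reduce_mod_char!)

theorem ad_comb [CharP K 2] (w : Fin 6 → K) (y z : K × K) (p q : K) :
    ad w (p • y + q • z) = p ^ 2 * ad w y + q ^ 2 * ad w z := by
  simp only [ad, Prod.fst_add, Prod.snd_add, Prod.smul_fst, Prod.smul_snd, smul_eq_mul]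
  (rw [← sub_eq_zero]; ring_nf; try reduce_mod_char!)

theorem eq_of_basis [CharP K 2] {w w' : Fin 6 → K} {y z : K × K} (h : br y z ≠ 0)
    (h1 : cu w y y = cu w' y y) (h2 : cu w y z = cu w' y z) (h3 : cu w z y = cu w' z y)
    (h4 : cu w z z = cu w' z z) (h5 : ad w y = ad w' y) (h6 : ad w z = ad w' z) : w = w' := by
  have e : ∀ x x', cu (w + w') x x' = cu w x x' + cu w' x x' := fun x x' => cu_addw w w' x x'
  have ea : ∀ x, ad (w + w') x = ad w x + ad w' x := fun x => ad_addw w w' x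
  have z1 : ∀ u : K, u + u = 0 := fun u => CharTwo.add_self_eq_zero u
  have g1 : ∀ x, cu (w + w') y x = 0 := by
    intro x
    have h7 := cu_pr (w + w') y z y x
    rw [e, e, e, h1, h2, z1, z1, mul_zero, mul_zero, sub_zero, ← e] at h7
    exact (mul_eq_zero.1 h7).resolve_left h
  have g2 : ∀ x, cu (w + w') z x = 0 := by
    intro x
    have h7 := cu_pr (w + w') y z z x
    rw [e, e, e, h3, h4, z1, z1, mul_zero, mul_zero, sub_zero, ← e] at h7
    exact (mul_eq_zero.1 h7).resolve_left h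
  have g3 := cu_eq_zero h g1 g2
  have g4 : ad (w + w') y = 0 := by rw [ea, h5, z1]
  have g5 : ad (w + w') z = 0 := by rw [ea, h6, z1]
  have g6 := ad_eq_zero h g4 g5
  have g : ∀ i, (w + w') i = 0 → w i = w' i := by
    intro i hi
    rw [Pi.add_apply] at hi
    exact CharTwo.add_eq_zero.1 hi
  funext i
  fin_cases i
  · exact g 0 g3.1
  · exact g 1 g3.2.1
  · exact g 2 g3.2.2.1
  · exact g 3 g3.2.2.2
  · exact g 4 g6.1
  · exact g 5 g6.2

/-- the obstruction for a vertex at `x` -/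
theorem obstr [CharP K 2] {a b c x : K × K} {ma mb mc ω : Fin 6 → K}
    (ha : cu ma (a - x) (a - x) = ad ω (a - x) + ad ma (a - x))
    (hb : cu mb (b - x) (b - x) = ad ω (b - x) + ad mb (b - x))
    (hc : cu mc (c - x) (c - x) = ad ω (c - x) + ad mc (c - x)) :
    br (b - x) (c - x) ^ 2 * (cu ma (a - x) (a - x) + ad ma (a - x)) =
      br (a - x) (c - x) ^ 2 * (cu mb (b - x) (b - x) + ad mb (b - x)) +
      br (a - x) (b - x) ^ 2 * (cu mc (c - x) (c - x) + ad mc (c - x)) := by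
  have h := ad_pl ω (b - x) (c - x) (a - x)
  rw [ha, hb, hc]
  linear_combination (norm := (ring_nf; try reduce_mod_char!)) h

theorem face_lemma [CharP K 2] [Infinite K] {a b c : K × K} (h : br (b - a) (c - a) ≠ 0)
    {ma mb mc : Fin 6 → K}
    (hab : cu ma (b - a) (b - a) = ad ma (b - a) + ad mb (b - a))
    (hba : cu mb (b - a) (b - a) = ad ma (b - a) + ad mb (b - a))
    (hac : cu ma (c - a) (c - a) = ad ma (c - a) + ad mc (c - a))
    (hca : cu mc (c - a) (c - a) = ad ma (c - a) + ad mc (c - a))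
    (hbc : cu mb (c - b) (c - b) = ad mb (c - b) + ad mc (c - b))
    (hcb : cu mc (c - b) (c - b) = ad mb (c - b) + ad mc (c - b))
    (hx : ∀ x : K × K, br (b - x) (c - x) ≠ 0 → br (a - x) (c - x) ≠ 0 →
      br (a - x) (b - x) ≠ 0 → ∃ ω : Fin 6 → K,
        cu ma (a - x) (a - x) = ad ω (a - x) + ad ma (a - x) ∧
        cu mb (b - x) (b - x) = ad ω (b - x) + ad mb (b - x) ∧
        cu mc (c - x) (c - x) = ad ω (c - x) + ad mc (c - x)) :
    ∃ t : Fin 9 → K, ma = tr a t a ∧ mb = tr a t b ∧ mc = tr a t c := by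
  obtain ⟨y, hy⟩ : ∃ y, y = b - a := ⟨_, rfl⟩
  obtain ⟨z, hz⟩ : ∃ z, z = c - a := ⟨_, rfl⟩
  obtain ⟨D, hD⟩ : ∃ D, D = br y z := ⟨_, rfl⟩
  have hD0 : D ≠ 0 := by
    rw [hD, hy, hz]
    exact h
  -- subtract the trivial motion with the value of `ma`
  set t0 : Fin 9 → K := ![ma 0, ma 1, ma 2, ma 3, ma 4, ma 5, 0, 0, 0] with ht0
  have hma : ma = tr a t0 a := by
    funext i
    fin_cases i <;> simp [tr, ht0]
  obtain ⟨nb, hnb⟩ : ∃ nb, nb = mb + tr a t0 b := ⟨_, rfl⟩
  obtain ⟨nc, hnc⟩ : ∃ nc, nc = mc + tr a t0 c := ⟨_, rfl⟩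
  have zz : ∀ u : K, u + u = 0 := fun u => CharTwo.add_self_eq_zero u
  have e1 : cu nb y y = 0 := by
    rw [hnb, cu_addw, hy, hba, ← tr_smooth a t0 a b, tr_eq a t0 a b, ← hma]
    have : ad mb (b - a) = ad (tr a t0 b) (b - a) := by
      have h1 := hab
      rw [hma, tr_eq a t0 a b] at h1
      exact (add_left_cancel h1).symm
    rw [this]
    (rw [← sub_eq_zero]; ring_nf; try reduce_mod_char!)
  have e2 : ad nb y = 0 := by
    rw [hnb, ad_addw, hy]
    have h1 := hab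
    rw [hma, tr_eq a t0 a b] at h1
    rw [add_left_cancel h1]
    exact zz _
  have e3 : cu nc z z = 0 := by
    rw [hnc, cu_addw, hz, hca, ← tr_smooth a t0 a c, tr_eq a t0 a c, ← hma]
    have : ad mc (c - a) = ad (tr a t0 c) (c - a) := by
      have h1 := hac
      rw [hma, tr_eq a t0 a c] at h1
      exact (add_left_cancel h1).symm
    rw [this]
    (rw [← sub_eq_zero]; ring_nf; try reduce_mod_char!)
  have e4 : ad nc z = 0 := by
    rw [hnc, ad_addw, hz]
    have h1 := hac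
    rw [hma, tr_eq a t0 a c] at h1
    rw [add_left_cancel h1]
    exact zz _
  -- the relation for all positions
  have star : ∀ α β : K, α ≠ 0 → β ≠ 0 → α + β ≠ 1 →
      α ^ 2 * (cu nb ((1 + α) • y + β • z) ((1 + α) • y + β • z) + ad nb ((1 + α) • y + β • z)) +
        β ^ 2 * (cu nc (α • y + (1 + β) • z) (α • y + (1 + β) • z) + ad nc (α • y + (1 + β) • z)) =
          0 := by
    intro α β hα hβ hαβ
    obtain ⟨x, hxdef⟩ : ∃ x, x = a - (α • y + β • z) := ⟨_, rfl⟩
    have la : a - x = α • y + β • z := by rw [hxdef]; abel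
    have lb : b - x = (1 + α) • y + β • z := by
      rw [hxdef, hy]
      module
    have lc : c - x = α • y + (1 + β) • z := by
      rw [hxdef, hz]
      module
    have b1 : br (b - x) (c - x) = (1 + α + β) * D := by
      rw [lb, lc, hD]
      simp only [br, Prod.fst_add, Prod.snd_add, Prod.smul_fst, Prod.smul_snd, smul_eq_mul]
      ring
    have b2 : br (a - x) (c - x) = α * D := by
      rw [la, lc, hD]
      simp only [br, Prod.fst_add, Prod.snd_add, Prod.smul_fst, Prod.smul_snd, smul_eq_mul]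
      ring
    have b3 : br (a - x) (b - x) = β * D := by
      rw [la, lb, hD]
      simp only [br, Prod.fst_add, Prod.snd_add, Prod.smul_fst, Prod.smul_snd, smul_eq_mul]
      (rw [← sub_eq_zero]; ring_nf; try reduce_mod_char!)
    have n1 : (1 + α + β) * D ≠ 0 := by
      refine mul_ne_zero ?_ hD0
      intro h1
      apply hαβ
      have h2 : α + β + 1 = 0 := by rw [← h1]; ring
      exact CharTwo.add_eq_zero.1 h2
    obtain ⟨ω, w1, w2, w3⟩ := hx x (b1 ▸ n1) (b2 ▸ mul_ne_zero hα hD0) (b3 ▸ mul_ne_zero hβ hD0)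
    have o1 := obstr w1 w2 w3
    have o2 := obstr (a := a) (b := b) (c := c) (x := x) (ma := tr a t0 a) (mb := tr a t0 b)
      (mc := tr a t0 c) (ω := tr a t0 x)
      (by rw [← tr_smooth a t0 x a]; exact tr_eq a t0 x a)
      (by rw [← tr_smooth a t0 x b]; exact tr_eq a t0 x b)
      (by rw [← tr_smooth a t0 x c]; exact tr_eq a t0 x c)
    rw [← hma] at o2
    have o3 := o1.symm.trans o2
    have o4 : br (a - x) (c - x) ^ 2 * (cu nb (b - x) (b - x) + ad nb (b - x)) +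
        br (a - x) (b - x) ^ 2 * (cu nc (c - x) (c - x) + ad nc (c - x)) = 0 := by
      rw [hnb, hnc, cu_addw, cu_addw, ad_addw, ad_addw]
      linear_combination (norm := (ring_nf; try reduce_mod_char!)) o3
    rw [b2, b3, lb, lc] at o4
    have o5 : D ^ 2 * (α ^ 2 * (cu nb ((1 + α) • y + β • z) ((1 + α) • y + β • z) +
        ad nb ((1 + α) • y + β • z)) +
        β ^ 2 * (cu nc (α • y + (1 + β) • z) (α • y + (1 + β) • z) +
          ad nc (α • y + (1 + β) • z))) = 0 := by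
      rw [← o4]
      ring
    exact (mul_eq_zero.1 o5).resolve_left (pow_ne_zero 2 hD0)
  obtain ⟨B1, hB1⟩ : ∃ B, B = cu nb y z := ⟨_, rfl⟩
  obtain ⟨B2, hB2⟩ : ∃ B, B = cu nb z y := ⟨_, rfl⟩
  obtain ⟨B3, hB3⟩ : ∃ B, B = cu nb z z := ⟨_, rfl⟩
  obtain ⟨Hb, hHb⟩ : ∃ B, B = ad nb z := ⟨_, rfl⟩
  obtain ⟨C1, hC1⟩ : ∃ B, B = cu nc z y := ⟨_, rfl⟩
  obtain ⟨C2, hC2⟩ : ∃ B, B = cu nc y z := ⟨_, rfl⟩
  obtain ⟨C3, hC3⟩ : ∃ B, B = cu nc y y := ⟨_, rfl⟩
  obtain ⟨Hc, hHc⟩ : ∃ B, B = ad nc y := ⟨_, rfl⟩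
  have star2 : ∀ β : K, β ≠ 0 → ∀ α : K, α ≠ 0 → α ≠ 1 + β →
      C1 * (β + β ^ 3) + (B1 + β * (B2 + C2 + Hb + Hc) + β ^ 2 * (B3 + C2)) * α +
        β * (B2 + C3) * α ^ 2 + B1 * α ^ 3 = 0 := by
    intro β hβ α hα h1
    have h2 := star α β hα hβ (by
      intro h3
      apply h1
      have : α = 1 - β := by rw [← h3]; ring
      rw [this]
      (rw [← sub_eq_zero]; ring_nf; try reduce_mod_char!))
    rw [cu_comb, cu_comb, ad_comb, ad_comb, e1, e2, e3, e4, ← hB1, ← hB2, ← hB3, ← hHb, ← hC1, ← hC2,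
      ← hC3, ← hHc] at h2
    have h3 : α * β * (C1 * (β + β ^ 3) + (B1 + β * (B2 + C2 + Hb + Hc) + β ^ 2 * (B3 + C2)) * α +
        β * (B2 + C3) * α ^ 2 + B1 * α ^ 3) = 0 := by
      linear_combination (norm := (ring_nf; try reduce_mod_char!)) h2
    exact (mul_eq_zero.1 h3).resolve_left (mul_ne_zero hα hβ)
  have star3 := fun β hβ => cubic_zero (star2 β hβ)
  have r1 : B1 = 0 := (star3 1 one_ne_zero).2.2.2
  have r2 : B2 + C3 = 0 := by
    have := (star3 1 one_ne_zero).2.2.1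
    rwa [one_mul] at this
  have r3 : C1 = 0 := by
    have : ∀ β : K, β ≠ 0 → β ≠ 0 → 0 + C1 * β + 0 * β ^ 2 + C1 * β ^ 3 = 0 := by
      intro β hβ _
      linear_combination (star3 β hβ).1
    exact (cubic_zero this).2.1
  have r4 : B2 + C2 + Hb + Hc = 0 ∧ B3 + C2 = 0 := by
    have : ∀ β : K, β ≠ 0 → β ≠ 0 →
        0 + (B2 + C2 + Hb + Hc) * β + (B3 + C2) * β ^ 2 + 0 * β ^ 3 = 0 := by
      intro β hβ _
      have := (star3 β hβ).2.1
      rw [r1] at this
      linear_combination this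
    have h1 := cubic_zero this
    exact ⟨h1.2.1, h1.2.2.1⟩
  have D3 : D ^ 3 ≠ 0 := pow_ne_zero 3 hD0
  have D2 : D ^ 2 ≠ 0 := pow_ne_zero 2 hD0
  obtain ⟨t6, ht6⟩ : ∃ t, t = (B2 * z.2 + B3 * y.2) / D ^ 3 := ⟨_, rfl⟩
  obtain ⟨t7, ht7⟩ : ∃ t, t = (B2 * z.1 + B3 * y.1) / D ^ 3 := ⟨_, rfl⟩
  obtain ⟨t8, ht8⟩ : ∃ t, t = (Hb + B2) / D ^ 2 := ⟨_, rfl⟩
  have l1 : D ^ 2 * (t6 * y.1 + t7 * y.2) = B2 := by
    rw [ht6, ht7]
    field_simp
    rw [hD]
    simp only [br]
    (rw [← sub_eq_zero]; ring_nf; try reduce_mod_char!)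
  have l2 : D ^ 2 * (t6 * z.1 + t7 * z.2) = B3 := by
    rw [ht6, ht7]
    field_simp
    rw [hD]
    simp only [br]
    (rw [← sub_eq_zero]; ring_nf; try reduce_mod_char!)
  have l3 : D ^ 2 * t8 = Hb + B2 := by
    rw [ht8]
    field_simp
  refine ⟨![ma 0, ma 1, ma 2, ma 3, ma 4, ma 5, t6, t7, t8], ?_, ?_, ?_⟩
  · funext i
    fin_cases i <;> simp [tr]
  · have g : ∀ d x : K × K, cu (tr a ![ma 0, ma 1, ma 2, ma 3, ma 4, ma 5, t6, t7, t8] b) d x =
        cu (tr a t0 b) d x + br y d ^ 2 * (t6 * x.1 + t7 * x.2) := by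
      intro d x
      rw [cu_tr, cu_tr, ht0, hy]
      simp
    have ga : ∀ d : K × K, ad (tr a ![ma 0, ma 1, ma 2, ma 3, ma 4, ma 5, t6, t7, t8] b) d =
        ad (tr a t0 b) d + (t6 * y.1 + t7 * y.2 + t8) * br y d ^ 2 := by
      intro d
      rw [ad_tr, ad_tr, ht0, hy]
      simp
    have gn : ∀ d x : K × K, cu mb d x = cu nb d x + cu (tr a t0 b) d x := by
      intro d x
      rw [hnb, cu_addw]
      (rw [← sub_eq_zero]; ring_nf; try reduce_mod_char!)
    have gna : ∀ d : K × K, ad mb d = ad nb d + ad (tr a t0 b) d := by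
      intro d
      rw [hnb, ad_addw]
      (rw [← sub_eq_zero]; ring_nf; try reduce_mod_char!)
    have hD' : br y z = D := hD.symm
    have hyz : br y z ≠ 0 := by rw [hD']; exact hD0
    refine eq_of_basis hyz ?_ ?_ ?_ ?_ ?_ ?_
    · rw [g, gn, e1, br_self]; ring
    · rw [g, gn, ← hB1, r1, br_self]; ring
    · rw [g, gn, ← hB2, hD', l1, add_comm]
    · rw [g, gn, ← hB3, hD', l2, add_comm]
    · rw [ga, gna, e2, br_self]; ring
    · rw [ga, gna, ← hHb, hD']
      have : (t6 * y.1 + t7 * y.2 + t8) * D ^ 2 = Hb := by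
        have : (t6 * y.1 + t7 * y.2 + t8) * D ^ 2 = B2 + (Hb + B2) := by
          rw [← l3]
          nth_rewrite 1 [← l1]
          ring
        rw [this]
        (rw [← sub_eq_zero]; ring_nf; try reduce_mod_char!)
      rw [this, add_comm]
  · have g : ∀ d x : K × K, cu (tr a ![ma 0, ma 1, ma 2, ma 3, ma 4, ma 5, t6, t7, t8] c) d x =
        cu (tr a t0 c) d x + br z d ^ 2 * (t6 * x.1 + t7 * x.2) := by
      intro d x
      rw [cu_tr, cu_tr, ht0, hz]
      simp
    have ga : ∀ d : K × K, ad (tr a ![ma 0, ma 1, ma 2, ma 3, ma 4, ma 5, t6, t7, t8] c) d =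
        ad (tr a t0 c) d + (t6 * z.1 + t7 * z.2 + t8) * br z d ^ 2 := by
      intro d
      rw [ad_tr, ad_tr, ht0, hz]
      simp
    have gn : ∀ d x : K × K, cu mc d x = cu nc d x + cu (tr a t0 c) d x := by
      intro d x
      rw [hnc, cu_addw]
      (rw [← sub_eq_zero]; ring_nf; try reduce_mod_char!)
    have gna : ∀ d : K × K, ad mc d = ad nc d + ad (tr a t0 c) d := by
      intro d
      rw [hnc, ad_addw]
      (rw [← sub_eq_zero]; ring_nf; try reduce_mod_char!)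
    have hD' : br z y = D := by rw [br_comm]; exact hD.symm
    have hyz : br y z ≠ 0 := by rw [← hD]; exact hD0
    have r5 : C2 = B3 := (CharTwo.add_eq_zero.1 r4.2).symm
    have r6 : C3 = B2 := (CharTwo.add_eq_zero.1 r2).symm
    refine eq_of_basis hyz ?_ ?_ ?_ ?_ ?_ ?_
    · rw [g, gn, ← hC3, hD', l1, r6, add_comm]
    · rw [g, gn, ← hC2, hD', l2, r5, add_comm]
    · rw [g, gn, ← hC1, r3, br_self]; ring
    · rw [g, gn, e3, br_self]; ring
    · rw [ga, gna, ← hHc, hD']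
      have : (t6 * z.1 + t7 * z.2 + t8) * D ^ 2 = Hc := by
        have h1 : (t6 * z.1 + t7 * z.2 + t8) * D ^ 2 = B3 + (Hb + B2) := by
          rw [← l3]
          nth_rewrite 1 [← l2]
          ring
        rw [h1]
        have h2 := r4.1
        rw [r5] at h2
        linear_combination (norm := (ring_nf; try reduce_mod_char!)) h2
      rw [this, add_comm]
    · rw [ga, gna, e4, br_self]; ring

end Pool.Agent.SplD
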