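import Pool.Agent.SplD.GluD

/-!
# The generic upper bound for the real cofactor system, `r = 2`, `k = 4`
-/

set_option autoImplicit false

namespace Pool.Agent.SplD

open Finset Pool.Agent.Spl1 Pool.Agent.Spl2 MvPolynomial

variable {V : Type*} [Fintype V] [DecidableEq V] {K : Type} [Field K]

/-- the vector of a pair of forms -/
def vec6 (c : Fin 4 → K) (h : Fin 2 → K) : Fin 6 → K := ![c 3, c 2, c 1, c 0, h 0, h 1]

theorem vec6_inj {c c' : Fin 4 → K} {h h' : Fin 2 → K} (e : vec6 c h = vec6 c' h') :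
    c = c' ∧ h = h' := by
  have e0 : c 3 = c' 3 := congrFun e 0
  have e1 : c 2 = c' 2 := congrFun e 1
  have e2 : c 1 = c' 1 := congrFun e 2
  have e3 : c 0 = c' 0 := congrFun e 3
  have e4 : h 0 = h' 0 := congrFun e 4
  have e5 : h 1 = h' 1 := congrFun e 5
  constructor
  · funext j
    fin_cases j
    · exact e3
    · exact e2
    · exact e1
    · exact e0
  · funext j
    fin_cases j
    · exact e4
    · exact e5

theorem vec6_add (c c' : Fin 4 → K) (h h' : Fin 2 → K) :
    vec6 (c + c') (h + h') = vec6 c h + vec6 c' h' := by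
  funext j
  fin_cases j <;> rfl

theorem vec6_smul (a : K) (c : Fin 4 → K) (h : Fin 2 → K) :
    vec6 (a • c) (a • h) = a • vec6 c h := by
  funext j
  fin_cases j <;> rfl

theorem finrank_nsol_le (p : V → K × K) (E : Finset (Finset V)) (I : Finset V) :
    Module.finrank K (NSol (pos2 p) E I) ≤ Module.finrank K (NSp p E I) := by
  let L : NSol (pos2 p) E I →ₗ[K] NSp p E I :=
    { toFun := fun x => ⟨fun v => vec6 (x.1.1 v) (x.1.2 v), by
        obtain ⟨h1, h2⟩ := x.2
        refine ⟨fun v hv => ?_, fun u v huv he => ?_⟩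
        · obtain ⟨h3, h4⟩ := h1 v hv
          rw [h3, h4]
          funext j
          fin_cases j <;> rfl
        · have h4 := h2 u v huv he
          simp only [bev, pos2, Fin.sum_univ_succ, Fin.sum_univ_zero] at h4
          simp at h4
          simp only [cu, ad, vec6, Prod.fst_sub, Prod.snd_sub]
          simp
          linear_combination h4⟩
      map_add' := by
        intro x y
        apply Subtype.ext
        funext v
        exact vec6_add _ _ _ _
      map_smul' := by
        intro c x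
        apply Subtype.ext
        funext v
        exact vec6_smul _ _ _ }
  have hval : ∀ x v, (L x).1 v = vec6 (x.1.1 v) (x.1.2 v) := fun _ _ => rfl
  apply LinearMap.finrank_le_finrank_of_injective (f := L)
  intro x y hxy
  have h : ∀ v, x.1.1 v = y.1.1 v ∧ x.1.2 v = y.1.2 v := by
    intro v
    apply vec6_inj
    rw [← hval, ← hval, hxy]
  apply Subtype.ext
  apply Prod.ext
  · funext v
    exact (h v).1
  · funext v
    exact (h v).2

theorem upper [CharP K 2] [Infinite K] {T : Finset (Finset V)} (hNG : HNG (Option V))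
    (hGl : HGl K (Option V)) (h : Good T (intV T)) (hd : DConn T) (hne : T.Nonempty) :
    ∃ a : V → ℕ, (∀ v, a v ≤ 2) ∧ (∀ v, a v ≠ 0 → v ∈ intV T) ∧
      ∃ Q : MvPolynomial (V × Fin 2) ℝ, Q ≠ 0 ∧ ∀ p : V × Fin 2 → ℝ, eval p Q ≠ 0 →
        (Module.finrank ℝ (CofSys 2 1 p T) : ℤ) ≤ 3 * (intE T).card - 9 * (intV T).card +
          (∑ v ∈ intV T, gn (a v) - ∑ e ∈ intE T, (ls a e : ℤ)) := by
  classical
  obtain ⟨a, p1, a1, a2, a3⟩ := disc_bound (K := K) hNG h hd hne
  obtain ⟨p2, hp2⟩ := gl_disc (K := K) hGl h hd hne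
  obtain ⟨Q₁, hQ₁, h₁⟩ := nsol_generic (pos2 p1) (intE T) (intV T) K
  obtain ⟨Q₂, hQ₂, h₂⟩ := gb_of_char2 2 p2 (intE T) (intV T) hp2 K
  obtain ⟨P, hP⟩ : ∃ P : MvPolynomial (V × Fin 2) K, P = ∏ e : V × V,
      if e.1 ≠ e.2 then X (e.1, 1) - X (e.2, 1) else 1 := ⟨_, rfl⟩
  have hP0 : P ≠ 0 := by
    rw [hP, Finset.prod_ne_zero_iff]
    rintro ⟨u, v⟩ _
    by_cases h : u ≠ v
    · rw [if_pos h, sub_ne_zero]
      intro he
      have := X_injective (R := K) he
      simp only [Prod.mk.injEq, and_true] at this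
      exact h this
    · rw [if_neg h]
      exact one_ne_zero
  obtain ⟨p, hp⟩ := exists_ne (mul_ne_zero (mul_ne_zero hQ₁
    ((expand_ne_zero (by norm_num : 0 < 2)).2 hQ₂)) hP0)
  rw [map_mul, map_mul, mul_ne_zero_iff, mul_ne_zero_iff, eval_expand] at hp
  have hp3 : ∀ u v, u ≠ v → p (u, 1) ≠ p (v, 1) := by
    intro u v huv he
    apply hp.2
    rw [hP, map_prod]
    refine Finset.prod_eq_zero (Finset.mem_univ (u, v)) ?_
    rw [if_pos huv, map_sub, eval_X, eval_X, he, sub_self]
  obtain ⟨Q, hQ, hQ'⟩ := bridge_le K T p (fun u v huv _ => hp3 u v huv) (h₂ _ hp.1.2)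
  refine ⟨a, a1, a2, Q, hQ, fun q hq => ?_⟩
  have e1 := hQ' q hq
  have e2 := h₁ p hp.1.1
  have e3 := finrank_nsol_le p1 (intE T) (intV T)
  have e4 : (Module.finrank K (NSol p (intE T) (intV T)) : ℤ) ≤
      ∑ v ∈ intV T, gn (a v) - ∑ e ∈ intE T, (ls a e : ℤ) :=
    le_trans (by exact_mod_cast e2.trans e3) a3
  have e5 : (Module.finrank ℝ (CofSys 2 1 q T) : ℤ) + 9 * ((intV T).card : ℤ) ≤
      3 * ((intE T).card : ℤ) + (Module.finrank K (NSol p (intE T) (intV T)) : ℤ) := by
    exact_mod_cast e1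
  linarith

end Pool.Agent.SplD
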