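import Pool.Agent.SplD.Fin
import Pool.Agent.Spl1.TriFinal
import Pool.Agent.Spl2.SphNG

/-!
# The generic upper bound for `S²_4`
-/

set_option autoImplicit false

namespace Pool.Agent.SplD

open Finset Pool.Agent.Spl1 Pool.Agent.Spl2 MvPolynomial

variable {V : Type*} [Fintype V] [DecidableEq V]

theorem hng_all : HNG V := fun _ hR hF h8 _ hg => ng_sphere hR hF hg h8

/-- the value of the function `a` for `r = 2`, `k = 4` -/
def val4 (T : Finset (Finset V)) (a : V → ℕ) : ℤ :=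
  15 + ∑ e ∈ intE T, ((3 - ∑ v ∈ e, (a v + 1).choose 2 : ℕ) : ℤ) -
    ∑ v ∈ intV T, (15 - ((a v + 4).choose 2 : ℤ))

theorem val4_eq (T : Finset (Finset V)) (a : V → ℕ) : val4 T a =
    15 + (3 * (intE T).card - 9 * (intV T).card +
      (∑ v ∈ intV T, gn (a v) - ∑ e ∈ intE T, (ls a e : ℤ))) := by
  unfold val4
  have e1 : ∑ e ∈ intE T, ((3 - ∑ v ∈ e, (a v + 1).choose 2 : ℕ) : ℤ) =
      3 * (intE T).card - ∑ e ∈ intE T, (ls a e : ℤ) := by
    rw [eq_sub_iff_add_eq, ← Finset.sum_add_distrib, Finset.sum_congr rfl (g := fun _ => (3 : ℤ)),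
      Finset.sum_const, nsmul_eq_mul, mul_comm]
    intro e _
    unfold ls
    omega
  have e2 : ∑ v ∈ intV T, (15 - ((a v + 4).choose 2 : ℤ)) =
      9 * (intV T).card - ∑ v ∈ intV T, gn (a v) := by
    rw [eq_sub_iff_add_eq, ← Finset.sum_add_distrib, Finset.sum_congr rfl (g := fun _ => (9 : ℤ)),
      Finset.sum_const, nsmul_eq_mul, mul_comm]
    intro v _
    unfold gn
    ring
  rw [e1, e2]
  ring

theorem dconn_of_disc {T : Finset (Finset V)} (hT : Disc T) : DConn T := hT.dconn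

/-- the generic upper bound -/
theorem four_up {K : Type} [Field K] [CharP K 2] [Infinite K] (hGl : HGl K (Option V))
    {T : Finset (Finset V)} {p₀ : V × Fin 2 → ℝ} (hp₀ : IsTriang p₀ T) (hT : Disc T) :
    ∃ a : V → ℕ, (∀ v, a v ≤ 2) ∧ ∃ Q : MvPolynomial (V × Fin 2) ℝ, Q ≠ 0 ∧
      ∀ p : V × Fin 2 → ℝ, IsTriang p T → eval p Q ≠ 0 →
        (Module.finrank ℝ (SplineFn 2 4 p T) : ℤ) ≤ val4 T a := by
  obtain ⟨a, a1, -, Q, hQ, hQ'⟩ := upper (K := K) hng_all hGl (good_of_disc hp₀ hT)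
    (dconn_of_disc hT) hT.ne
  refine ⟨a, a1, Q, hQ, fun p hp hpQ => ?_⟩
  have e1 := hQ' p hpQ
  have e2 : Module.finrank ℝ (SplineFn 2 4 p T) = (4 + 2).choose 2 +
      Module.finrank ℝ (CofSys 2 1 p T) := by
    rw [finrank_splineFn hp hT]
    exact finrank_splineAlg hp hT 2 1
  rw [e2, val4_eq]
  push_cast
  have e3 : ((4 + 2).choose 2 : ℤ) = 15 := by decide
  have e4 : (((4 + 2).choose 2 : ℕ) : ℤ) = 15 := by decide
  rw [e4]
  linarith

end Pool.Agent.SplD
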