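import Pool.Agent.SplD.Aff
import Pool.Agent.Spl2.BrNG

/-!
# Good positions of a sphere without separating triangles, prescribed on a triangle
-/

set_option autoImplicit false

namespace Pool.Agent.SplD

open Finset Pool.Agent.Spl1 Pool.Agent.Spl2 MvPolynomial

variable {V : Type*} [Fintype V] [DecidableEq V] {K : Type*} [Field K]

/-- positions `V × Fin 2 → K` as functions `V → K × K` -/
def pr (p : V × Fin 2 → K) (v : V) : K × K := (p (v, 0), p (v, 1))

theorem nns_of_nz {p : V × Fin 2 → K} {E : Finset (Finset V)} {I : Finset V} (h : NZ p E I) :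
    NNS (pr p) E I := by
  intro w hw
  have h1 := h (fun v => ![w v 3, w v 2, w v 1, w v 0]) (fun v => ![w v 4, w v 5]) ?_ ?_
  · funext v
    obtain ⟨h2, h3⟩ := h1 v
    funext i
    fin_cases i
    · exact congrFun h2 3
    · exact congrFun h2 2
    · exact congrFun h2 1
    · exact congrFun h2 0
    · exact congrFun h3 0
    · exact congrFun h3 1
  · intro v hv
    rw [hw.pin v hv]
    constructor
    · funext i
      fin_cases i <;> rfl
    · funext i
      fin_cases i <;> rfl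
  · intro u v huv he
    have h2 := hw.eq u v huv he
    simp only [cu, ad, pr, Prod.fst_sub, Prod.snd_sub] at h2
    simp [bev, Fin.sum_univ_succ]
    linear_combination h2

/-- the bracket of three points as a polynomial -/
noncomputable def brP (K : Type*) [Field K] (a b c : V) : MvPolynomial (V × Fin 2) K :=
  (X (b, 0) - X (a, 0)) * (X (c, 1) - X (a, 1)) - (X (b, 1) - X (a, 1)) * (X (c, 0) - X (a, 0))

theorem eval_brP (p : V × Fin 2 → K) (a b c : V) :
    eval p (brP K a b c) = br (pr p b - pr p a) (pr p c - pr p a) := by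
  simp [brP, br, pr]

theorem brP_ne (K : Type*) [Field K] {a b c : V} (hab : a ≠ b) (hbc : b ≠ c) (hac : a ≠ c) :
    brP K a b c ≠ 0 := by
  intro h
  have h1 := congrArg (eval (fun x : V × Fin 2 => if x = (b, 0) then (1 : K) else
    if x = (c, 1) then 1 else 0)) h
  rw [map_zero] at h1
  simp [brP, hab, hac, hac.symm, hbc, hbc.symm, hab.symm, Prod.ext_iff] at h1

theorem exists_ne {Q : MvPolynomial (V × Fin 2) K} [Infinite K] (hQ : Q ≠ 0) :
    ∃ p : V × Fin 2 → K, eval p Q ≠ 0 := by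
  by_contra h
  push Not at h
  exact hQ (MvPolynomial.funext fun p => by rw [h p, map_zero])

theorem exists_pos (K : Type) [Field K] [CharP K 2] [Infinite K] {R : Finset (Finset V)}
    (hR : Sph R) {f : Finset V} (hf : f ∈ R) (hNG : ∀ g ∈ R, NG (edges R) (vs R \ g))
    {q : V → K × K} (hq : Ndg q f) :
    ∃ p : V → K × K, (∀ v ∈ f, p v = q v) ∧ (∀ g ∈ R, Ndg p g) ∧
      ∀ g ∈ R, NNS p (edges R) (vs R \ g) := by
  classical
  have hQ : ∀ g : Finset V, ∃ Q : MvPolynomial (V × Fin 2) K, Q ≠ 0 ∧ (g ∈ R →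
      ∀ p : V × Fin 2 → K, eval p Q ≠ 0 → NZ p (edges R) (vs R \ g)) := by
    intro g
    by_cases hg : g ∈ R
    · obtain ⟨Q, h1, h2⟩ := gn_of_ng (hNG g hg) K
      exact ⟨Q, h1, fun _ => h2⟩
    · exact ⟨1, one_ne_zero, fun h => absurd h hg⟩
  choose Q hQ0 hQ1 using hQ
  let S : Finset (V × V × V) := univ.filter fun x => x.1 ≠ x.2.1 ∧ x.2.1 ≠ x.2.2 ∧ x.1 ≠ x.2.2
  obtain ⟨p, hp⟩ := exists_ne (K := K) (Q := (∏ g ∈ R, Q g) * ∏ x ∈ S, brP K x.1 x.2.1 x.2.2) (by
    refine mul_ne_zero (Finset.prod_ne_zero_iff.2 fun g _ => hQ0 g)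
      (Finset.prod_ne_zero_iff.2 fun x hx => ?_)
    obtain ⟨-, h1, h2, h3⟩ := Finset.mem_filter.1 hx
    exact brP_ne K h1 h2 h3)
  rw [map_mul, map_prod, map_prod] at hp
  have hp1 := Finset.prod_ne_zero_iff.1 (left_ne_zero_of_mul hp)
  have hp2 := Finset.prod_ne_zero_iff.1 (right_ne_zero_of_mul hp)
  have hN : ∀ g : Finset V, Ndg (pr p) g := by
    intro g a b c _ _ _ hab hbc hac
    have h1 := hp2 (a, b, c) (Finset.mem_filter.2 ⟨Finset.mem_univ _, hab, hbc, hac⟩)
    rwa [eval_brP] at h1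
  obtain ⟨l, s, hl, hls⟩ := exists_aff (hR.card3 f hf) hq (hN f)
  refine ⟨fun v => s + mulL l (pr p v), hls, fun g _ => ndg_aff (hN g) hl s, fun g hg => ?_⟩
  exact nns_aff (nns_of_nz (hQ1 g hg p (hp1 g hg))) hl s

end Pool.Agent.SplD
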