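import Pool.Agent.SplD.DiscB

/-!
# Gluck's theorem for all spheres and discs from the spheres without separating triangles
-/

set_option autoImplicit false

namespace Pool.Agent.SplD

open Finset Pool.Agent.Spl1 Pool.Agent.Spl2 MvPolynomial

/-- Gluck's theorem for the spheres without separating triangles -/
def HGl (K : Type) [Field K] (V : Type*) [Fintype V] [DecidableEq V] : Prop :=
  ∀ R : Finset (Finset V), Sph R → Fac3 R → 8 ≤ R.card → ∀ g ∈ R, GB 2 K (edges R) (vs R \ g)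

section

variable {V : Type*} [Fintype V] [DecidableEq V] {K : Type} [Field K]

theorem bev2 (q : Fin 3 → K) (a b : K) : bev 2 q a b = q 0 * b ^ 2 + q 1 * (a * b) + q 2 * a ^ 2 := by
  simp [bev, Fin.sum_univ_succ]
  ring

theorem bev_zero2 (a b : K) : bev 2 (0 : Fin 3 → K) a b = 0 := by
  rw [bev2]
  simp

/-- a binary quadratic form with three zeros vanishes -/
theorem quad_zero {q : Fin 3 → K} {a1 b1 a2 b2 a3 b3 : K} (h1 : bev 2 q a1 b1 = 0)
    (h2 : bev 2 q a2 b2 = 0) (h3 : bev 2 q a3 b3 = 0) (h12 : a1 * b2 - b1 * a2 ≠ 0)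
    (h13 : a1 * b3 - b1 * a3 ≠ 0) (h23 : a2 * b3 - b2 * a3 ≠ 0) : q = 0 := by
  rw [bev2] at h1 h2 h3
  have hne := mul_ne_zero (mul_ne_zero h12 h13) h23
  have e0 : (a1 * b2 - b1 * a2) * (a1 * b3 - b1 * a3) * (a2 * b3 - b2 * a3) * q 0 = 0 := by
    linear_combination (a2 * a3 * (a2 * b3 - b2 * a3)) * h1 - (a1 * a3 * (a1 * b3 - b1 * a3)) * h2 +
      (a1 * a2 * (a1 * b2 - b1 * a2)) * h3
  have e2 : (a1 * b2 - b1 * a2) * (a1 * b3 - b1 * a3) * (a2 * b3 - b2 * a3) * q 2 = 0 := by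
    linear_combination (b2 * b3 * (a2 * b3 - b2 * a3)) * h1 - (b1 * b3 * (a1 * b3 - b1 * a3)) * h2 +
      (b1 * b2 * (a1 * b2 - b1 * a2)) * h3
  have e1 : (a1 * b2 - b1 * a2) * (a1 * b3 - b1 * a3) * (a2 * b3 - b2 * a3) * q 1 = 0 := by
    linear_combination (-(a2 * b3 + b2 * a3) * (a2 * b3 - b2 * a3)) * h1 +
      ((a1 * b3 + b1 * a3) * (a1 * b3 - b1 * a3)) * h2 -
      ((a1 * b2 + b1 * a2) * (a1 * b2 - b1 * a2)) * h3
  funext i
  fin_cases i
  · exact (mul_eq_zero.1 e0).resolve_left hne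
  · exact (mul_eq_zero.1 e1).resolve_left hne
  · exact (mul_eq_zero.1 e2).resolve_left hne

variable {T R : Finset (Finset V)} {f : Finset V} {D : Finset V → Finset (Finset V)}

/-- restriction of a solution to a subcomplex -/
theorem bz_restr {p : V × Fin 2 → K} {E E' : Finset (Finset V)} {I' S : Finset V}
    (hB : BZ 2 p E' I') {q : V → Fin 3 → K}
    (hq : ∀ u v, u ≠ v → ({u, v} : Finset V) ∈ E →
      bev 2 (q u) (p (v, 0) - p (u, 0)) (p (v, 1) - p (u, 1)) =
        bev 2 (q v) (p (v, 0) - p (u, 0)) (p (v, 1) - p (u, 1)))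
    (hE : ∀ u v, ({u, v} : Finset V) ∈ E' → u ∈ S ∧ v ∈ S ∧ ({u, v} : Finset V) ∈ E)
    (hz : ∀ v, v ∈ S → v ∉ I' → q v = 0) : ∀ v ∈ S, q v = 0 := by
  intro v hv
  have h1 := hB (restr S q) (by
    intro v hv
    by_cases hvS : v ∈ S
    · rw [restr_mem q hvS]
      exact hz v hvS hv
    · exact restr_not q hvS) (by
    intro u v huv he
    obtain ⟨hu, hv, he'⟩ := hE u v he
    rw [restr_mem q hu, restr_mem q hv]
    exact hq u v huv he') v
  rwa [restr_mem q hv] at h1

theorem gl_all [Infinite K] (hGl : HGl K V) :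
    ∀ n : ℕ, ∀ T : Finset (Finset V), T.card = n → Sph T → ∀ f ∈ T,
      GB 2 K (edges T) (vs T \ f) := by
  classical
  intro n
  induction n using Nat.strong_induction_on with
  | _ n ih =>
  intro T hn h f hf
  obtain ⟨R, D, hc, hF⟩ := exists_root h hf
  have hf3 := h.card3 f hf
  have hR := hc.sph
  have hfR := hc.mem
  -- the root block
  have hroot : ∃ Q : MvPolynomial (V × Fin 2) K, Q ≠ 0 ∧ ∀ p : V × Fin 2 → K, eval p Q ≠ 0 →
      ∀ q : V → Fin 3 → K, (∀ u v, u ≠ v → ({u, v} : Finset V) ∈ edges R →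
        bev 2 (q u) (p (v, 0) - p (u, 0)) (p (v, 1) - p (u, 1)) =
          bev 2 (q v) (p (v, 0) - p (u, 0)) (p (v, 1) - p (u, 1))) → (∀ v ∈ f, q v = 0) →
        ∀ v ∈ vs R, q v = 0 := by
    by_cases h5 : 4 < R.card
    · obtain ⟨Q, hQ, hQ'⟩ := hGl R hR hF (hR.eight_le hF h5) f hfR
      refine ⟨Q, hQ, fun p hp q hq hz => ?_⟩
      refine bz_restr (S := vs R) (hQ' p hp) hq ?_ ?_
      · intro u v he
        exact ⟨(edge_vs he).1, (edge_vs he).2, he⟩
      · intro v hv hvn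
        apply hz
        by_contra h1
        exact hvn (Finset.mem_sdiff.2 ⟨hv, h1⟩)
    · obtain ⟨v, hT⟩ := four_struct hR hfR (not_lt.1 h5)
      obtain ⟨a, b, c, hab, hac, hbc, hfe⟩ := Finset.card_eq_three.1 (hR.card3 f hfR)
      have ha : a ∈ f := by rw [hfe]; simp
      have hb : b ∈ f := by rw [hfe]; simp
      have hcf : c ∈ f := by rw [hfe]; simp
      have hne : ∀ x ∈ f, v ≠ x := fun x hx h1 => hT.notMem (h1 ▸ hx)
      refine ⟨brP K v a b * brP K v a c * brP K v b c, mul_ne_zero (mul_ne_zero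
        (brP_ne K (hne a ha) hab (hne b hb)) (brP_ne K (hne a ha) hac (hne c hcf)))
        (brP_ne K (hne b hb) hbc (hne c hcf)), fun p hp q hq hz => ?_⟩
      rw [map_mul, map_mul, mul_ne_zero_iff, mul_ne_zero_iff, eval_brP, eval_brP, eval_brP] at hp
      have key : ∀ x ∈ f, bev 2 (q v) (p (x, 0) - p (v, 0)) (p (x, 1) - p (v, 1)) = 0 := by
        intro x hx
        rw [hq v x (hne x hx) (hT.edge x hx), hz x hx, bev_zero2]
      have hqv : q v = 0 := quad_zero (key a ha) (key b hb) (key c hcf) hp.1.1 hp.1.2 hp.2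
      intro u hu
      rw [hT.vs_eq, Finset.mem_insert] at hu
      rcases hu with rfl | hu
      · exact hqv
      · exact hz u hu
  have hatt : ∀ g : Finset V, ∃ Q : MvPolynomial (V × Fin 2) K, Q ≠ 0 ∧ (g ∈ att T R f →
      ∀ p : V × Fin 2 → K, eval p Q ≠ 0 → BZ 2 p (edges (Tg D g)) (vs (Tg D g) \ g)) := by
    intro g
    by_cases hg : g ∈ att T R f
    · obtain ⟨g1, g2, g3⟩ := mem_att.1 hg
      have h1 := co_card hf hc g1 g2 g3
      rw [hn] at h1
      obtain ⟨Q, hQ, hQ'⟩ := ih _ h1 (Tg D g) rfl (co_sph h hc g1 g2 g3) g (mem_Tg D g)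
      exact ⟨Q, hQ, fun _ => hQ'⟩
    · exact ⟨1, one_ne_zero, fun h1 => absurd h1 hg⟩
  obtain ⟨Q0, hQ0, hQ0'⟩ := hroot
  choose Q hQ hQ' using hatt
  refine ⟨Q0 * ∏ g ∈ att T R f, Q g, mul_ne_zero hQ0 (Finset.prod_ne_zero_iff.2 fun g _ => hQ g),
    fun p hp q hq1 hq2 => ?_⟩
  rw [map_mul, map_prod] at hp
  have hp0 := left_ne_zero_of_mul hp
  have hp1 := Finset.prod_ne_zero_iff.1 (right_ne_zero_of_mul hp)
  have hzR : ∀ v ∈ vs R, q v = 0 := by
    refine hQ0' p hp0 q (fun u v huv he => hq2 u v huv (co_edges_sub hc he)) ?_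
    intro v hv
    exact hq1 v (fun h1 => (Finset.mem_sdiff.1 h1).2 hv)
  intro v
  by_contra hv0
  have hvT : v ∈ vs T := by
    by_contra h2
    exact hv0 (hq1 v (fun h3 => h2 (Finset.mem_sdiff.1 h3).1))
  rcases co_pos h hf hc hvT with h2 | ⟨g, g1, g2, g3, g4, -, g6, -⟩
  · exact hv0 (hzR v h2)
  · have hg := mem_att.2 ⟨g1, g2, g3⟩
    refine hv0 (bz_restr (S := vs (Tg D g)) (hQ' g hg p (hp1 g hg)) hq2 ?_ ?_ v g6)
    · intro u v he
      exact ⟨(edge_vs he).1, (edge_vs he).2, co_edgesTg hc g1 g2 he⟩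
    · intro u hu hun
      apply hzR
      apply co_face_vs hc g1
      by_contra h1
      exact hun (Finset.mem_sdiff.2 ⟨hu, h1⟩)

/-- Gluck's theorem for discs, at some position -/
theorem gl_disc [Infinite K] {T : Finset (Finset V)} (hGl : HGl K (Option V))
    (h : Good T (intV T)) (hd : DConn T) (hne : T.Nonempty) :
    ∃ p : V × Fin 2 → K, BZ 2 p (intE T) (intV T) := by
  obtain ⟨e, he⟩ := bd_ne h hne
  have hS := cone_sph h hd hne
  have hf : cn e ∈ cone T := cn_mem_lft.2 he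
  obtain ⟨Q, hQ, hQ'⟩ := gl_all hGl _ (cone T) rfl hS (cn e) hf
  obtain ⟨p, hp⟩ := exists_ne hQ
  have hB := hQ' p hp
  refine ⟨fun x => p (some x.1, x.2), fun q hq1 hq2 => ?_⟩
  have h1 := hB (fun v => v.elim 0 q) (by
    intro v hv
    rcases v with _ | v
    · rfl
    · apply hq1
      intro h2
      apply hv
      refine Finset.mem_sdiff.2 ⟨some_mem_vs (intV_sub h h2), fun h3 => ?_⟩
      exact (bdv_iff h).1 (mem_bdv.2 ⟨e, he, some_mem_cn.1 h3⟩) h2) (by
    intro u v huv he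
    rcases u with _ | u <;> rcases v with _ | v
    · exact absurd rfl huv
    · have h2 : v ∉ intV T := (bdv_iff h).1 (none_edge.1 he)
      have h3 : q v = 0 := hq1 v h2
      show bev 2 (0 : Fin 3 → K) _ _ = bev 2 (q v) _ _
      rw [h3]
    · have h2 : u ∉ intV T := (bdv_iff h).1 (none_edge.1 (edge_swap he))
      have h3 : q u = 0 := hq1 u h2
      show bev 2 (q u) _ _ = bev 2 (0 : Fin 3 → K) _ _
      rw [h3]
    · have huv' : u ≠ v := fun h1 => huv (by rw [h1])
      have he' : ({u, v} : Finset V) ∈ edges T := by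
        rw [← mp_edge, mp_pair]
        exact he
      show bev 2 (q u) _ _ = bev 2 (q v) _ _
      by_cases h1 : ({u, v} : Finset V) ∈ intE T
      · exact hq2 u v huv' h1
      · have h2 : tdeg T {u, v} ≠ 2 := by
          intro h2
          apply h1
          unfold intE
          exact Finset.mem_filter.2 ⟨he', h2⟩
        have h3 : u ∉ intV T := by
          intro h4
          unfold intV at h4
          exact h2 ((Finset.mem_filter.1 h4).2 _ he' (by simp))
        have h5 : v ∉ intV T := by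
          intro h4
          unfold intV at h4
          exact h2 ((Finset.mem_filter.1 h4).2 _ he' (by simp))
        rw [hq1 u h3, hq1 v h5])
  intro v
  exact h1 (some v)

end

end Pool.Agent.SplD
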