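import Pool.Agent.SplD.Defs

/-!
# Trivial motions
-/

set_option autoImplicit false

namespace Pool.Agent.SplD

open Finset Pool.Agent.Spl1 Pool.Agent.Spl2

variable {K : Type*} [Field K]

theorem cu_tr [CharP K 2] (o : K × K) (t : Fin 9 → K) (x d z : K × K) :
    cu (tr o t x) d z = z.1 * (t 0 * d.1 ^ 2 + t 2 * d.2 ^ 2) + z.2 * (t 1 * d.1 ^ 2 + t 3 * d.2 ^ 2) +
      br (x - o) d ^ 2 * (t 6 * z.1 + t 7 * z.2) := by
  simp only [cu, tr, br, Matrix.cons_val_zero, Matrix.cons_val_one, Matrix.cons_val, Prod.fst_sub,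
    Prod.snd_sub]
  (rw [← sub_eq_zero]; ring_nf; try reduce_mod_char!)

theorem ad_tr [CharP K 2] (o : K × K) (t : Fin 9 → K) (x d : K × K) :
    ad (tr o t x) d = t 4 * d.1 ^ 2 + t 5 * d.2 ^ 2 +
      d.1 ^ 2 * (t 0 * (x.1 - o.1) + t 1 * (x.2 - o.2)) +
      d.2 ^ 2 * (t 2 * (x.1 - o.1) + t 3 * (x.2 - o.2)) +
      (t 6 * (x.1 - o.1) + t 7 * (x.2 - o.2) + t 8) * br (x - o) d ^ 2 := by
  simp only [ad, tr, br, Matrix.cons_val_zero, Matrix.cons_val_one, Matrix.cons_val, Prod.fst_sub,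
    Prod.snd_sub]
  (rw [← sub_eq_zero]; ring_nf; try reduce_mod_char!)

theorem tr_smooth [CharP K 2] (o : K × K) (t : Fin 9 → K) (x y z : K × K) :
    cu (tr o t x) (y - x) z = cu (tr o t y) (y - x) z := by
  rw [cu_tr, cu_tr]
  simp only [br, Prod.fst_sub, Prod.snd_sub]
  (rw [← sub_eq_zero]; ring_nf; try reduce_mod_char!)

theorem tr_eq [CharP K 2] (o : K × K) (t : Fin 9 → K) (x y : K × K) :
    cu (tr o t x) (y - x) (y - x) = ad (tr o t x) (y - x) + ad (tr o t y) (y - x) := by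
  rw [cu_tr, ad_tr, ad_tr]
  simp only [br, Prod.fst_sub, Prod.snd_sub]
  (rw [← sub_eq_zero]; ring_nf; try reduce_mod_char!)

theorem tr_zero_of [CharP K 2] {o : K × K} {t : Fin 9 → K} {a b c : K × K}
    (h : br (b - a) (c - a) ≠ 0) (hb : tr o t b = 0) (hc : tr o t c = 0) : tr o t a = 0 := by
  have h1 : ∀ z, cu (tr o t a) (b - a) z = 0 := by
    intro z
    rw [tr_smooth, hb, cu_zero]
  have h2 : ∀ z, cu (tr o t a) (c - a) z = 0 := by
    intro z
    rw [tr_smooth, hc, cu_zero]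
  have h3 := cu_eq_zero h h1 h2
  have h4 : ad (tr o t a) (b - a) = 0 := by
    have := tr_eq o t a b
    rw [h1, hb, ad_zero, add_zero] at this
    exact this.symm
  have h5 : ad (tr o t a) (c - a) = 0 := by
    have := tr_eq o t a c
    rw [h2, hc, ad_zero, add_zero] at this
    exact this.symm
  have h6 := ad_eq_zero h h4 h5
  funext i
  fin_cases i
  · exact h3.1
  · exact h3.2.1
  · exact h3.2.2.1
  · exact h3.2.2.2
  · exact h6.1
  · exact h6.2

end Pool.Agent.SplD
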