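import Pool.Agent.SplD.Ext
import Pool.Agent.SplD.TriM

/-!
# Gluing of motions and positions
-/

set_option autoImplicit false

namespace Pool.Agent.SplD

open Finset Pool.Agent.Spl1 Pool.Agent.Spl2

variable {V : Type*} [Fintype V] [DecidableEq V] {K : Type*} [Field K]

/-- restriction -/
def restr {M : Type*} [Zero M] (S : Finset V) (w : V → M) : V → M := fun v => if v ∈ S then w v else 0

theorem restr_mem {M : Type*} [Zero M] {S : Finset V} (w : V → M) {v : V} (h : v ∈ S) :
    restr S w v = w v := if_pos h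

theorem restr_not {M : Type*} [Zero M] {S : Finset V} (w : V → M) {v : V} (h : v ∉ S) :
    restr S w v = 0 := if_neg h

theorem eqs_congr {p p' : V → K × K} {E E' : Finset (Finset V)} {w w' : V → Fin 6 → K}
    {S : Finset V} (h : Eqs p E w) (hE : ∀ u v, ({u, v} : Finset V) ∈ E' → u ∈ S ∧ v ∈ S ∧
      ({u, v} : Finset V) ∈ E) (hp : ∀ v ∈ S, p' v = p v) (hw : ∀ v ∈ S, w' v = w v) :
    Eqs p' E' w' := by
  intro u v huv he
  obtain ⟨hu, hv, he'⟩ := hE u v he
  rw [hp u hu, hp v hv, hw u hu, hw v hv]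
  exact h u v huv he'

theorem eqs_sub {p : V → K × K} {E : Finset (Finset V)} {w w' : V → Fin 6 → K}
    (h : Eqs p E w) (h' : Eqs p E w') : Eqs p E (w - w') := by
  rw [eqs_iff] at *
  intro a b hab he
  rw [map_sub, h a b hab he, h' a b hab he, sub_zero]

theorem eqs_smul {p : V → K × K} {E : Finset (Finset V)} {w : V → Fin 6 → K} (c : K)
    (h : Eqs p E w) : Eqs p E (c • w) := by
  rw [eqs_iff] at *
  intro a b hab he
  rw [map_smul, h a b hab he, smul_zero]

theorem eqs_tr [CharP K 2] (p : V → K × K) (E : Finset (Finset V)) (o : K × K) (t : Fin 9 → K) :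
    Eqs p E (fun v => tr o t (p v)) := fun _ _ _ _ => tr_eq _ _ _ _

theorem edge_vs {T : Finset (Finset V)} {u v : V} (h : ({u, v} : Finset V) ∈ edges T) :
    u ∈ vs T ∧ v ∈ vs T := by
  obtain ⟨t, ht, h1, h2⟩ := edge_mem h
  exact ⟨mem_vs.2 ⟨t, ht, h1⟩, mem_vs.2 ⟨t, ht, h2⟩⟩

/-- a motion which vanishes on a face of a nonsingular block vanishes on the block -/
theorem nns_zero {p p' : V → K × K} {R : Finset (Finset V)} {g : Finset V}
    (hN : NNS p (edges R) (vs R \ g)) {w : V → Fin 6 → K}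
    (hw : Eqs p' (edges R) w) (hp : ∀ v ∈ vs R, p' v = p v) (hz : ∀ v ∈ g, w v = 0) :
    ∀ v ∈ vs R, w v = 0 := by
  have h0 : ∀ v ∈ vs R, restr (vs R \ g) w v = w v := by
    intro v hv
    by_cases hvg : v ∈ g
    · rw [hz v hvg]
      apply restr_not
      rw [Finset.mem_sdiff]
      exact fun h => h.2 hvg
    · exact restr_mem w (Finset.mem_sdiff.2 ⟨hv, hvg⟩)
  have h1 : NMot p (edges R) (vs R \ g) (restr (vs R \ g) w) := by
    refine ⟨fun v hv => restr_not w hv, ?_⟩
    have h2 : Eqs p (edges R) (restr (vs R \ g) w) := by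
      refine eqs_congr (S := vs R) hw ?_ (fun v hv => (hp v hv).symm) h0
      intro u v he
      exact ⟨(edge_vs he).1, (edge_vs he).2, he⟩
    exact h2
  have h2 := hN _ h1
  intro v hv
  rw [← h0 v hv, h2]
  rfl

variable {T R : Finset (Finset V)} {f : Finset V} {D : Finset V → Finset (Finset V)}

/-- the triangles of `R` at which a sphere is attached -/
def att (T R : Finset (Finset V)) (f : Finset V) : Finset (Finset V) :=
  R.filter (fun g => g ≠ f ∧ g ∉ T)

theorem mem_att {g : Finset V} : g ∈ att T R f ↔ g ∈ R ∧ g ≠ f ∧ g ∉ T := by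
  unfold att
  rw [Finset.mem_filter]

/-- glued positions -/
theorem exists_glue {M : Type*} (h : Sph T) (hc : Coarse T R f D) (p0 : V → M)
    (P : Finset V → V → M) (hP : ∀ g ∈ att T R f, ∀ v ∈ g, P g v = p0 v) :
    ∃ p : V → M, (∀ v ∈ vs R, p v = p0 v) ∧
      ∀ g ∈ att T R f, ∀ v ∈ vs (Tg D g), p v = P g v := by
  classical
  let p : V → M := fun v => if h : ∃ g ∈ att T R f, v ∈ vs (Tg D g) ∧ v ∉ g then
    P h.choose v else p0 v
  have h1 : ∀ v ∈ vs R, p v = p0 v := by
    intro v hv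
    apply dif_neg
    rintro ⟨g, hg, h2, h3⟩
    obtain ⟨g1, g2, g3⟩ := mem_att.1 hg
    exact (co_in h hc g1 g2 h2 h3).2.1 hv
  refine ⟨p, h1, ?_⟩
  intro g hg v hv
  obtain ⟨g1, g2, g3⟩ := mem_att.1 hg
  by_cases hvg : v ∈ g
  · rw [h1 v (co_face_vs hc g1 hvg), hP g hg v hvg]
  · have h2 : ∃ g ∈ att T R f, v ∈ vs (Tg D g) ∧ v ∉ g := ⟨g, hg, hv, hvg⟩
    have h3 : p v = P h2.choose v := dif_pos h2
    obtain ⟨c1, c2, c3⟩ := h2.choose_spec
    obtain ⟨d1, d2, d3⟩ := mem_att.1 c1
    rw [h3, co_unique h hc d1 d2 g1 g2 c2 c3 hv hvg]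

theorem finrank_sup_le {M : Type*} [AddCommGroup M] [Module K M] [FiniteDimensional K M]
    {ι : Type*} [DecidableEq ι] (S : Finset ι) (N : ι → Submodule K M) :
    Module.finrank K (S.sup N : Submodule K M) ≤ ∑ i ∈ S, Module.finrank K (N i) := by
  induction S using Finset.induction_on with
  | empty => simp
  | insert i S hi ih =>
    rw [Finset.sup_insert, Finset.sum_insert hi]
    exact (Submodule.finrank_add_le_finrank_add_finrank _ _).trans (Nat.add_le_add_left ih _)

theorem finrank_glue {M : Type*} [AddCommGroup M] [Module K M] [FiniteDimensional K M]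
    (h : Sph T) (hf : f ∈ T) (hc : Coarse T R f D)
    {W : Submodule K (V → M)} (N : Finset V → Submodule K (V → M))
    (hW : ∀ w ∈ W, (∀ v, v ∉ vs T → w v = 0) ∧ ∀ v ∈ vs R, w v = 0)
    (hN : ∀ g ∈ att T R f, ∀ w ∈ W, restr (vs (Tg D g)) w ∈ N g) :
    Module.finrank K W ≤ ∑ g ∈ att T R f, Module.finrank K (N g) := by
  refine le_trans (Submodule.finrank_mono ?_) (finrank_sup_le (att T R f) N)
  intro w hw
  obtain ⟨w1, w2⟩ := hW w hw
  have h1 : w = ∑ g ∈ att T R f, restr (vs (Tg D g)) w := by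
    funext v
    rw [Finset.sum_apply]
    by_cases hv0 : w v = 0
    · rw [hv0]
      symm
      apply Finset.sum_eq_zero
      intro g _
      by_cases h2 : v ∈ vs (Tg D g)
      · rw [restr_mem w h2, hv0]
      · exact restr_not w h2
    · have hvT : v ∈ vs T := by
        by_contra h2
        exact hv0 (w1 v h2)
      rcases co_pos h hf hc hvT with h2 | ⟨g, g1, g2, g3, g4, -, g6, -⟩
      · exact absurd (w2 v h2) hv0
      · rw [Finset.sum_eq_single g, restr_mem w g6]
        · intro g' hg' hne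
          obtain ⟨d1, d2, d3⟩ := mem_att.1 hg'
          apply restr_not
          intro h3
          exact g4 (co_inter h hc g1 g2 d1 d2 hne.symm g6 h3)
        · intro h3
          exact absurd (mem_att.2 ⟨g1, g2, g3⟩) h3
  rw [h1]
  apply Submodule.sum_mem
  intro g hg
  exact (Finset.le_sup (f := N) hg) (hN g hg w hw)

end Pool.Agent.SplD
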