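import Pool.Agent.SplD.FaceL
import Pool.Agent.SplD.Glue
import Pool.Agent.SplD.Aff
import Pool.Agent.Spl2.SphDeg

/-!
# Tetrahedra
-/

set_option autoImplicit false

namespace Pool.Agent.SplD

open Finset Pool.Agent.Spl1 Pool.Agent.Spl2

variable {V : Type*} [Fintype V] [DecidableEq V] {K : Type*} [Field K]

/-- the structure of a sphere with at most four triangles -/
structure Tet (R : Finset (Finset V)) (f : Finset V) (v : V) : Prop where
  notMem : v ∉ f
  vs_eq : vs R = insert v f
  edge : ∀ x ∈ f, ({v, x} : Finset V) ∈ edges R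
  face : ∀ g ∈ R, g ≠ f → v ∈ g

theorem four_struct {R : Finset (Finset V)} (h : Sph R) {f : Finset V} (hf : f ∈ R)
    (h4 : R.card ≤ 4) : ∃ v, Tet R f v := by
  have hf3 := h.card3 f hf
  have e1 := euler' h ⟨f, hf⟩
  have e2 := h.two_edges
  have hsub : f ⊆ vs R := fun x hx => mem_vs.2 ⟨f, hf, hx⟩
  have hface : ∀ g ∈ R, g ⊆ vs R := fun g hg x hx => mem_vs.2 ⟨g, hg, hx⟩
  have h3 : 3 ≤ (vs R).card := hf3 ▸ Finset.card_le_card hsub
  have hne : (vs R).card ≠ 3 := by
    intro h5
    have h6 : f = vs R := Finset.eq_of_subset_of_card_le hsub (by omega)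
    have h7 : R = {f} := by
      ext g
      rw [Finset.mem_singleton]
      constructor
      · intro hg
        have h8 := hface g hg
        rw [← h6] at h8
        exact Finset.eq_of_subset_of_card_le h8 (by rw [h.card3 g hg, hf3])
      · rintro rfl
        exact hf
    have h8 : R.card = 1 := by rw [h7]; rfl
    omega
  have hV4 : (vs R).card = 4 := by omega
  have hE6 : (edges R).card = 6 := by omega
  have hd : (vs R \ f).card = 1 := by
    have := Finset.card_sdiff_add_card_eq_card hsub
    omega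
  obtain ⟨v, hv⟩ := Finset.card_eq_one.1 hd
  have hv' : v ∈ vs R \ f := by rw [hv]; simp
  rw [Finset.mem_sdiff] at hv'
  have hvs : vs R = insert v f := by
    rw [← Finset.sdiff_union_of_subset hsub, hv]
    rfl
  refine ⟨v, hv'.2, hvs, ?_, ?_⟩
  · intro x hx
    have hsub2 : edges R ⊆ (vs R).powersetCard 2 := by
      intro e he
      rw [Finset.mem_powersetCard]
      obtain ⟨h7, t, ht, h8⟩ := mem_edges.1 he
      exact ⟨fun y hy => mem_vs.2 ⟨t, ht, h8 hy⟩, h7⟩
    have h9 : edges R = (vs R).powersetCard 2 := by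
      apply Finset.eq_of_subset_of_card_le hsub2
      rw [Finset.card_powersetCard, hV4, hE6]
      decide
    rw [h9, Finset.mem_powersetCard]
    have hxv : v ≠ x := fun h10 => hv'.2 (h10 ▸ hx)
    exact ⟨pair_sub hv'.1 (hsub hx), Finset.card_pair hxv⟩
  · intro g hg hgf
    by_contra hvg
    apply hgf
    apply Finset.eq_of_subset_of_card_le _ (by rw [h.card3 g hg, hf3])
    intro x hx
    have := hface g hg hx
    rw [hvs, Finset.mem_insert] at this
    rcases this with rfl | h10
    · exact absurd hx hvg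
    · exact h10

theorem br_swap (x y : K × K) : br x y = - br y x := by
  simp only [br]
  ring

/-- a position for the centre at which a nontrivial motion does not extend -/
theorem exists_bad [CharP K 2] [Infinite K] {q : V → K × K} {f : Finset V} (hf : f.card = 3)
    (hq : Ndg q f) {μ : V → Fin 6 → K} (hμ : Eqs q (bdry {f}) μ) (hn : ¬ Triv q f μ) :
    ∃ x : K × K, (∀ y ∈ f, ∀ z ∈ f, y ≠ z → br (q y - x) (q z - x) ≠ 0) ∧
      ¬ ∃ ω : Fin 6 → K, ∀ y ∈ f, cu (μ y) (q y - x) (q y - x) =
        ad ω (q y - x) + ad (μ y) (q y - x) := by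
  obtain ⟨a, b, c, hab, hac, hbc, rfl⟩ := Finset.card_eq_three.1 hf
  by_contra hcon
  push Not at hcon
  apply hn
  have hE : ∀ u v, u ≠ v → u ∈ ({a, b, c} : Finset V) → v ∈ ({a, b, c} : Finset V) →
      ({u, v} : Finset V) ∈ bdry {{a, b, c}} := by
    intro u v huv hu hv
    exact (mem_bdry_single hf).2 ⟨Finset.card_pair huv, pair_sub hu hv⟩
  have e : ∀ u v, u ≠ v → u ∈ ({a, b, c} : Finset V) → v ∈ ({a, b, c} : Finset V) →
      cu (μ u) (q v - q u) (q v - q u) = ad (μ u) (q v - q u) + ad (μ v) (q v - q u) :=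
    fun u v huv hu hv => hμ u v huv (hE u v huv hu hv)
  have e' : ∀ u v, u ≠ v → u ∈ ({a, b, c} : Finset V) → v ∈ ({a, b, c} : Finset V) →
      cu (μ v) (q v - q u) (q v - q u) = ad (μ u) (q v - q u) + ad (μ v) (q v - q u) := by
    intro u v huv hu hv
    have h1 := e v u huv.symm hv hu
    rw [c2_sub_pair (q u) (q v)] at h1
    rw [h1, add_comm]
  have ha : a ∈ ({a, b, c} : Finset V) := by simp
  have hb : b ∈ ({a, b, c} : Finset V) := by simp
  have hc : c ∈ ({a, b, c} : Finset V) := by simp
  obtain ⟨t, h1, h2, h3⟩ := face_lemma (hq a b c ha hb hc hab hbc hac) (e a b hab ha hb)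
    (e' a b hab ha hb) (e a c hac ha hc) (e' a c hac ha hc) (e b c hbc hb hc) (e' b c hbc hb hc)
    (by
      intro x x1 x2 x3
      obtain ⟨ω, hω⟩ := hcon x (by
        intro y hy z hz hyz
        simp only [Finset.mem_insert, Finset.mem_singleton] at hy hz
        rcases hy with rfl | rfl | rfl <;> rcases hz with rfl | rfl | rfl
        · exact absurd rfl hyz
        · exact x3
        · exact x2
        · rw [br_swap]; exact neg_ne_zero.2 x3
        · exact absurd rfl hyz
        · exact x1
        · rw [br_swap]; exact neg_ne_zero.2 x2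
        · rw [br_swap]; exact neg_ne_zero.2 x1
        · exact absurd rfl hyz)
      exact ⟨ω, hω a ha, hω b hb, hω c hc⟩)
  refine ⟨q a, t, ?_⟩
  intro v hv
  simp only [Finset.mem_insert, Finset.mem_singleton] at hv
  rcases hv with rfl | rfl | rfl
  · exact h1
  · exact h2
  · exact h3

/-- the motion of the centre of a tetrahedron -/
structure TetM (R : Finset (Finset V)) (f : Finset V) (v : V) (p : V → K × K)
    (w0 : V → Fin 6 → K) : Prop where
  eqs : Eqs p (edges R) w0
  off : ∀ u, u ≠ v → w0 u = 0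
  ndg : ∀ g ∈ R, g ≠ f → Ndg p g
  triv : ∀ g ∈ R, g ≠ f → ¬ Triv p g w0
  span : ∀ w : V → Fin 6 → K, Eqs p (edges R) w → (∀ u ∈ f, w u = 0) → ∃ k : K, w v = k • w0 v

theorem exists_tetM [CharP K 2] [Infinite K] {R : Finset (Finset V)} (hR : Sph R) {f : Finset V}
    (hfR : f ∈ R) {v : V} (hT : Tet R f v) {p : V → K × K}
    (hp : ∀ y ∈ f, ∀ z ∈ f, y ≠ z → br (p y - p v) (p z - p v) ≠ 0) :
    ∃ w0 : V → Fin 6 → K, TetM R f v p w0 := by
  classical
  obtain ⟨a, b, c, hab, hac, hbc, hfe⟩ := Finset.card_eq_three.1 (hR.card3 f hfR)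
  have ha : a ∈ f := by rw [hfe]; simp
  have hb : b ∈ f := by rw [hfe]; simp
  have hc : c ∈ f := by rw [hfe]; simp
  obtain ⟨la, hla⟩ : ∃ l, l = p a - p v := ⟨_, rfl⟩
  obtain ⟨lb, hlb⟩ : ∃ l, l = p b - p v := ⟨_, rfl⟩
  obtain ⟨lc, hlc⟩ : ∃ l, l = p c - p v := ⟨_, rfl⟩
  have bab : br la lb ≠ 0 := by rw [hla, hlb]; exact hp a ha b hb hab
  have bac : br la lc ≠ 0 := by rw [hla, hlc]; exact hp a ha c hc hac
  have bbc : br lb lc ≠ 0 := by rw [hlb, hlc]; exact hp b hb c hc hbc
  obtain ⟨η, hη⟩ := exists_dir ({la, lb, lc} : Finset (K × K)) (by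
    intro l hl
    simp only [Finset.mem_insert, Finset.mem_singleton] at hl
    rcases hl with rfl | rfl | rfl
    · exact br_ne_left bab
    · exact br_ne_left bbc
    · exact br_ne_right bbc)
  have ηa : br η la ≠ 0 := hη la (by simp)
  have ηb : br η lb ≠ 0 := hη lb (by simp)
  have ηc : br η lc ≠ 0 := hη lc (by simp)
  have hcw : cu (cw la lb lc) η η ≠ 0 := by
    rw [cu_cw_self]
    exact mul_ne_zero (mul_ne_zero ηa ηb) ηc
  have hcw0 : cw la lb lc ≠ 0 := by
    intro h
    rw [h, cu_zero] at hcw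
    exact hcw rfl
  have hz : ∀ x ∈ f, cu (cw la lb lc) (p x - p v) (p x - p v) = 0 := by
    intro x hx
    rw [cu_cw_self]
    rw [hfe] at hx
    simp only [Finset.mem_insert, Finset.mem_singleton] at hx
    rcases hx with rfl | rfl | rfl
    · rw [← hla, br_self]; ring
    · rw [← hlb, br_self]; ring
    · rw [← hlc, br_self]; ring
  have hv0 : (if v = v then cw la lb lc else 0) = cw la lb lc := if_pos rfl
  refine ⟨fun u => if u = v then cw la lb lc else 0, ?_, ?_, ?_, ?_, ?_⟩
  · intro u u' huu he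
    dsimp only
    have h1 : ∀ x, x ∈ vs R → x ≠ v → x ∈ f := by
      intro x hx hxv
      rw [hT.vs_eq, Finset.mem_insert] at hx
      exact hx.resolve_left hxv
    by_cases hu : u = v
    · have hu' : u' ≠ v := fun h2 => huu (hu.trans h2.symm)
      rw [hu, if_pos rfl, if_neg hu', ad_zero, ad_cw, hz u' (h1 u' (edge_vs he).2 hu'), add_zero]
    · by_cases hu' : u' = v
      · rw [if_neg hu, if_pos hu', ad_zero, cu_zero, ad_cw, add_zero]
      · rw [if_neg hu, if_neg hu', ad_zero, cu_zero, add_zero]
  · intro u hu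
    exact if_neg hu
  · intro g hg hgf
    have hsub : g ⊆ insert v f := by
      rw [← hT.vs_eq]
      exact fun x hx => mem_vs.2 ⟨g, hg, hx⟩
    have hvg := hT.face g hg hgf
    have hof : ∀ x ∈ g, x ≠ v → x ∈ f := by
      intro x hx hxv
      have := hsub hx
      rw [Finset.mem_insert] at this
      exact this.resolve_left hxv
    intro x y z hx hy hz' hxy hyz hxz
    have key : ∀ y z, y ∈ g → z ∈ g → y ≠ z → y ≠ v → z ≠ v → br (p y - p v) (p z - p v) ≠ 0 :=
      fun y z hy hz hyz hyv hzv => hp y (hof y hy hyv) z (hof z hz hzv) hyz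
    -- one of the three is `v`
    have h3 : v = x ∨ v = y ∨ v = z := by
      by_contra h4
      push Not at h4
      have h5 : ({v, x, y, z} : Finset V) ⊆ g := by
        intro u hu
        simp only [Finset.mem_insert, Finset.mem_singleton] at hu
        rcases hu with rfl | rfl | rfl | rfl <;> assumption
      have h6 := Finset.card_le_card h5
      rw [hR.card3 g hg] at h6
      have h7 : ({v, x, y, z} : Finset V).card = 4 := by
        rw [Finset.card_insert_of_notMem (by simp [h4.1, h4.2.1, h4.2.2]),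
          Finset.card_insert_of_notMem (by simp [hxy, hxz]),
          Finset.card_insert_of_notMem (by simp [hyz]), Finset.card_singleton]
      omega
    rcases h3 with rfl | rfl | rfl
    · exact key y z hy hz' hyz hxy.symm hxz.symm
    · have h4 := key x z hx hz' hxz hxy hyz.symm
      intro h5
      apply h4
      rw [← neg_eq_zero, ← h5]
      simp only [br, Prod.fst_sub, Prod.snd_sub]
      ring
    · have h4 := key x y hx hy hxy hxz hyz
      intro h5
      apply h4
      rw [← h5]
      simp only [br, Prod.fst_sub, Prod.snd_sub]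
      ring
  · intro g hg hgf
    rintro ⟨o, t, ht⟩
    have hsub : g ⊆ insert v f := by
      rw [← hT.vs_eq]
      exact fun x hx => mem_vs.2 ⟨g, hg, hx⟩
    have hvg := hT.face g hg hgf
    have h1 : (g.erase v).card = 2 := by
      rw [Finset.card_erase_of_mem hvg, hR.card3 g hg]
    obtain ⟨y, z, hyz, hyze⟩ := Finset.card_eq_two.1 h1
    have hy : y ∈ g.erase v := by rw [hyze]; simp
    have hz' : z ∈ g.erase v := by rw [hyze]; simp
    rw [Finset.mem_erase] at hy hz'
    have hyf : y ∈ f := by
      have := hsub hy.2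
      rw [Finset.mem_insert] at this
      exact this.resolve_left hy.1
    have hzf : z ∈ f := by
      have := hsub hz'.2
      rw [Finset.mem_insert] at this
      exact this.resolve_left hz'.1
    have ty := ht y hy.2
    have tz := ht z hz'.2
    have tv := ht v hvg
    beta_reduce at ty tz tv
    rw [if_neg hy.1] at ty
    rw [if_neg hz'.1] at tz
    rw [if_pos rfl, tr_zero_of (hp y hyf z hzf hyz) ty.symm tz.symm] at tv
    exact hcw0 tv
  · intro w hw hwf
    rw [if_pos rfl]
    have h1 : ∀ x ∈ f, ad (w v) (p x - p v) = 0 := by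
      intro x hx
      have hxv : x ≠ v := fun h2 => hT.notMem (h2 ▸ hx)
      have h2 := hw x v hxv (edge_swap (hT.edge x hx))
      rw [hwf x hx, cu_zero, ad_zero, zero_add, c2_sub_pair] at h2
      exact h2.symm
    have h2 : ∀ x ∈ f, cu (w v) (p x - p v) (p x - p v) = 0 := by
      intro x hx
      have hxv : v ≠ x := fun h2 => hT.notMem (h2 ▸ hx)
      have h3 := hw v x hxv (hT.edge x hx)
      rw [hwf x hx, ad_zero, add_zero, h1 x hx] at h3
      exact h3
    have had := ad_eq_zero bab (by rw [hla]; exact h1 a ha) (by rw [hlb]; exact h1 b hb)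
    obtain ⟨k, hk⟩ : ∃ k, k = cu (w v) η η / cu (cw la lb lc) η η := ⟨_, rfl⟩
    obtain ⟨d, hd⟩ : ∃ d, d = w v + k • cw la lb lc := ⟨_, rfl⟩
    have hcu : ∀ x, cu d x x = cu (w v) x x + k * cu (cw la lb lc) x x := by
      intro x
      rw [hd, cu_addw, cu_smulw]
    have d0 : d 0 = 0 ∧ d 1 = 0 ∧ d 2 = 0 ∧ d 3 = 0 := by
      apply cu_four (a := la) (b := lb) (c := lc) (d := η) bab
      · rw [br_swap]; exact neg_ne_zero.2 bac
      · rw [br_swap]; exact neg_ne_zero.2 bbc
      · exact ηa
      · exact ηb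
      · rw [br_swap]; exact neg_ne_zero.2 ηc
      · have h3 := hcu (p a - p v)
        rw [h2 a ha, hz a ha, mul_zero, add_zero] at h3
        rw [hla]
        exact h3
      · have h3 := hcu (p b - p v)
        rw [h2 b hb, hz b hb, mul_zero, add_zero] at h3
        rw [hlb]
        exact h3
      · have h3 := hcu (p c - p v)
        rw [h2 c hc, hz c hc, mul_zero, add_zero] at h3
        rw [hlc]
        exact h3
      · rw [hcu, hk, div_mul_cancel₀ _ hcw]
        exact CharTwo.add_self_eq_zero _
    refine ⟨k, ?_⟩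
    have hd0 : d = 0 := by
      funext i
      fin_cases i
      · exact d0.1
      · exact d0.2.1
      · exact d0.2.2.1
      · exact d0.2.2.2
      · rw [hd]
        show w v 4 + k * cw la lb lc 4 = 0
        rw [had.1]
        simp [cw]
      · rw [hd]
        show w v 5 + k * cw la lb lc 5 = 0
        rw [had.2]
        simp [cw]
    rw [hd] at hd0
    have h3 := eq_neg_of_add_eq_zero_left hd0
    rw [h3]
    funext i
    show - (k * cw la lb lc i) = k * cw la lb lc i
    rw [c2_neg]

end Pool.Agent.SplD
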