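import Pool.Agent.SplD.CoarseV
import Pool.Agent.Spl2.SphEul

/-!
# Additivity of the excess
-/

set_option autoImplicit false

namespace Pool.Agent.SplD

open Finset Pool.Agent.Spl1 Pool.Agent.Spl2

variable {V : Type*} [Fintype V] [DecidableEq V]

theorem gn_zero : gn 0 = 0 := by
  unfold gn
  decide

theorem ls_zero {a : V → ℕ} {e : Finset V} (h : ∀ v ∈ e, a v = 0) : ls a e = 0 := by
  unfold ls
  rw [Finset.sum_eq_zero]
  · rfl
  · intro v hv
    rw [h v hv]
    rfl

theorem ls_congr {a b : V → ℕ} {e : Finset V} (h : ∀ v ∈ e, a v = b v) : ls a e = ls b e := by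
  unfold ls
  rw [Finset.sum_congr rfl fun v hv => by rw [h v hv]]

variable {T R : Finset (Finset V)} {f : Finset V} {D : Finset V → Finset (Finset V)}

/-- functions supported in the interiors of the attached spheres -/
structure Supp (R : Finset (Finset V)) (f : Finset V) (D : Finset V → Finset (Finset V))
    (X : Finset (Finset V)) (A : Finset V → V → ℕ) : Prop where
  mem : ∀ g ∈ X, g ∈ R ∧ g ≠ f
  supp : ∀ g ∈ X, ∀ v, A g v ≠ 0 → v ∈ vs (Tg D g) ∧ v ∉ g

theorem supp_one (h : Sph T) (hc : Coarse T R f D) {X : Finset (Finset V)}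
    {A : Finset V → V → ℕ} (hA : Supp R f D X A) {g g' : Finset V} (hg : g ∈ X) (hg' : g' ∈ X)
    {v : V} (hv : A g v ≠ 0) (hv' : A g' v ≠ 0) : g = g' :=
  co_unique h hc (hA.mem g hg).1 (hA.mem g hg).2 (hA.mem g' hg').1 (hA.mem g' hg').2
    (hA.supp g hg v hv).1 (hA.supp g hg v hv).2 (hA.supp g' hg' v hv').1 (hA.supp g' hg' v hv').2

theorem supp_sum (h : Sph T) (hc : Coarse T R f D) {X : Finset (Finset V)}
    {A : Finset V → V → ℕ} (hA : Supp R f D X A) {g : Finset V} (hg : g ∈ X)
    {v : V} (hv : A g v ≠ 0) : ∑ g' ∈ X, A g' v = A g v := by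
  apply Finset.sum_eq_single g
  · intro g' hg' hne
    by_contra h1
    exact hne (supp_one h hc hA hg' hg h1 hv)
  · intro h1
    exact absurd hg h1

theorem supp_phi (h : Sph T) (hc : Coarse T R f D) {X : Finset (Finset V)}
    {A : Finset V → V → ℕ} (hA : Supp R f D X A) {φ : ℕ → ℤ} (hφ : φ 0 = 0) (v : V) :
    φ (∑ g ∈ X, A g v) = ∑ g ∈ X, φ (A g v) := by
  by_cases h1 : ∃ g ∈ X, A g v ≠ 0
  · obtain ⟨g, hg, hgv⟩ := h1
    rw [supp_sum h hc hA hg hgv]
    symm
    apply Finset.sum_eq_single g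
    · intro g' hg' hne
      have : A g' v = 0 := by
        by_contra h2
        exact hne (supp_one h hc hA hg' hg h2 hgv)
      rw [this, hφ]
    · intro h2
      exact absurd hg h2
  · push Not at h1
    rw [Finset.sum_eq_zero h1, hφ, Finset.sum_eq_zero]
    intro g hg
    rw [h1 g hg, hφ]

theorem supp_edge (h : Sph T) (hc : Coarse T R f D) {X : Finset (Finset V)}
    {A : Finset V → V → ℕ} (hA : Supp R f D X A) {e : Finset V} (he : e ∈ edges T) :
    (ls (fun v => ∑ g ∈ X, A g v) e : ℤ) = ∑ g ∈ X, (ls (A g) e : ℤ) := by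
  by_cases h1 : ∃ g ∈ X, ∃ x ∈ e, A g x ≠ 0
  · obtain ⟨g, hg, x, hx, hgx⟩ := h1
    have h2 : ∀ y ∈ e, ∀ g' ∈ X, g' ≠ g → A g' y = 0 := by
      intro y hy g' hg' hne
      by_contra h3
      obtain ⟨a, b, hab, rfl⟩ := Finset.card_eq_two.1 (mem_edges.1 he).1
      obtain ⟨m1, m2⟩ := hA.mem g hg
      obtain ⟨m3, m4⟩ := hA.mem g' hg'
      obtain ⟨s1, s2⟩ := hA.supp g hg x hgx
      obtain ⟨s3, s4⟩ := hA.supp g' hg' y h3
      by_cases hxy : x = y
      · subst hxy
        exact hne (supp_one h hc hA hg' hg h3 hgx)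
      · have he' : ({x, y} : Finset V) ∈ edges T := by
          simp only [Finset.mem_insert, Finset.mem_singleton] at hx hy
          rcases hx with rfl | rfl <;> rcases hy with rfl | rfl
          · exact absurd rfl hxy
          · exact he
          · exact edge_swap he
          · exact absurd rfl hxy
        have h4 := (co_edge_in h hc m1 m2 he' s1 s2).2
        exact s4 (co_inter h hc m3 m4 m1 m2 hne s3 h4)
    have h3 : ls (fun v => ∑ g ∈ X, A g v) e = ls (A g) e := by
      apply ls_congr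
      intro y hy
      apply Finset.sum_eq_single g
      · intro g' hg' hne
        exact h2 y hy g' hg' hne
      · intro h4
        exact absurd hg h4
    rw [h3]
    symm
    apply Finset.sum_eq_single g
    · intro g' hg' hne
      rw [ls_zero fun y hy => h2 y hy g' hg' hne]
      rfl
    · intro h4
      exact absurd hg h4
  · push Not at h1
    rw [ls_zero, Finset.sum_eq_zero]
    · rfl
    · intro g hg
      rw [ls_zero fun x hx => h1 g hg x hx]
      rfl
    · intro x hx
      exact Finset.sum_eq_zero fun g hg => h1 g hg x hx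

theorem kap_sum (h : Sph T) (hc : Coarse T R f D) {X : Finset (Finset V)}
    {A : Finset V → V → ℕ} (hA : Supp R f D X A) :
    kap T (fun v => ∑ g ∈ X, A g v) = ∑ g ∈ X, kap (Tg D g) (A g) := by
  unfold kap
  rw [Finset.sum_sub_distrib]
  congr 1
  · rw [Finset.sum_congr rfl fun v _ => supp_phi h hc hA gn_zero v, Finset.sum_comm]
    refine Finset.sum_congr rfl fun g hg => ?_
    symm
    apply Finset.sum_subset (co_vsTg hc (hA.mem g hg).1 (hA.mem g hg).2)
    intro v _ hv
    have : A g v = 0 := by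
      by_contra h1
      exact hv (hA.supp g hg v h1).1
    rw [this, gn_zero]
  · rw [Finset.sum_congr rfl fun e he => supp_edge h hc hA he, Finset.sum_comm]
    refine Finset.sum_congr rfl fun g hg => ?_
    symm
    apply Finset.sum_subset (co_edgesTg hc (hA.mem g hg).1 (hA.mem g hg).2)
    intro e he hv
    rw [ls_zero]
    · rfl
    · intro x hx
      by_contra h1
      obtain ⟨s1, s2⟩ := hA.supp g hg x h1
      obtain ⟨a, b, hab, rfl⟩ := Finset.card_eq_two.1 (mem_edges.1 he).1
      simp only [Finset.mem_insert, Finset.mem_singleton] at hx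
      rcases hx with rfl | rfl
      · exact hv (co_edge_in h hc (hA.mem g hg).1 (hA.mem g hg).2 he s1 s2).1
      · have h2 := (co_edge_in h hc (hA.mem g hg).1 (hA.mem g hg).2 (edge_swap he) s1 s2).1
        exact hv (edge_swap h2)

theorem vs_eq_uv (T : Finset (Finset V)) : vs T = uv T := by
  ext v
  rw [mem_vs, mem_uv]
  constructor
  · rintro ⟨t, ht, hv⟩
    exact ⟨t, mem_star.2 ⟨ht, hv⟩⟩
  · rintro ⟨t, ht⟩
    exact ⟨t, (mem_star.1 ht).1, (mem_star.1 ht).2⟩

/-- Euler's formula -/
theorem euler' {T : Finset (Finset V)} (h : Sph T) (hne : T.Nonempty) :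
    (edges T).card + 6 = 3 * (vs T).card := by
  have h1 := h.euler_eq hne
  have h2 := h.two_edges
  rw [← vs_eq_uv] at h1
  omega

theorem ls_three {a : V → ℕ} {e : Finset V} {v : V} (hv : v ∈ e) (h : a v = 2) : ls a e = 3 := by
  unfold ls
  apply min_eq_left
  have h1 := Finset.single_le_sum (f := fun v => (a v + 1).choose 2) (fun i _ => Nat.zero_le _) hv
  rw [h] at h1
  exact h1

/-- the excess of the special function: `1` at the centre `v`, `2` inside, `0` on `f` -/
theorem kap_spec {T : Finset (Finset V)} (h : Sph T) {f : Finset V} (hf : f ∈ T) {v : V}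
    (hv : v ∉ f) (hvT : v ∈ vs T) (he : ∀ x ∈ f, ({v, x} : Finset V) ∈ edges T) :
    kap T (fun u => if u = v then 1 else if u ∈ vs T \ f then 2 else 0) = 1 := by
  set a : V → ℕ := fun u => if u = v then 1 else if u ∈ vs T \ f then 2 else 0 with ha
  have hfv : f ⊆ vs T := fun x hx => mem_vs.2 ⟨f, hf, hx⟩
  have hf3 := h.card3 f hf
  have av : a v = 1 := by
    rw [ha]
    simp
  have af : ∀ x ∈ f, a x = 0 := by
    intro x hx
    have hxv : x ≠ v := fun h1 => hv (h1 ▸ hx)
    rw [ha]
    simp [hxv, hx]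
  have ain : ∀ x ∈ vs T, x ∉ f → x ≠ v → a x = 2 := by
    intro x hx hxf hxv
    rw [ha]
    simp [hxv, hxf, hx]
  -- vertices
  have e1 : ∑ u ∈ vs T, gn (a u) = 4 + 9 * (((vs T).card : ℤ) - 4) := by
    have h1 : vs T = insert v f ∪ (vs T \ insert v f) := by
      rw [Finset.union_sdiff_of_subset]
      exact Finset.insert_subset hvT hfv
    have h2 : (insert v f).card = 4 := by rw [Finset.card_insert_of_notMem hv, hf3]
    have h3 : (vs T \ insert v f).card + 4 = (vs T).card := by
      rw [← h2]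
      exact Finset.card_sdiff_add_card_eq_card (Finset.insert_subset hvT hfv)
    have h4 : ∑ u ∈ vs T, gn (a u) =
        ∑ u ∈ insert v f, gn (a u) + ∑ u ∈ vs T \ insert v f, gn (a u) := by
      conv_lhs => rw [h1]
      exact Finset.sum_union Finset.disjoint_sdiff
    have h5 : ∑ u ∈ insert v f, gn (a u) = 4 := by
      rw [Finset.sum_insert hv, av, Finset.sum_eq_zero]
      · decide
      · intro x hx
        rw [af x hx, gn_zero]
    have h6 : ∑ u ∈ vs T \ insert v f, gn (a u) = 9 * ((vs T \ insert v f).card : ℤ) := by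
      rw [Finset.sum_congr rfl (g := fun _ => (9 : ℤ)), Finset.sum_const, nsmul_eq_mul, mul_comm]
      intro x hx
      rw [Finset.mem_sdiff, Finset.mem_insert] at hx
      push Not at hx
      rw [ain x hx.1 hx.2.2 hx.2.1]
      decide
    rw [h4, h5, h6]
    have h7 : ((vs T \ insert v f).card : ℤ) = ((vs T).card : ℤ) - 4 := by
      rw [← h3]
      push_cast
      ring
    rw [h7]
  -- edges
  set E1 := (edges T).filter (fun e => e ⊆ insert v f) with hE1
  set E2 := (edges T).filter (fun e => ¬ e ⊆ insert v f) with hE2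
  have e2 : ∑ e ∈ E2, (ls a e : ℤ) = 3 * (E2.card : ℤ) := by
    rw [Finset.sum_congr rfl (g := fun _ => (3 : ℤ)), Finset.sum_const, nsmul_eq_mul, mul_comm]
    intro e he'
    rw [hE2, Finset.mem_filter] at he'
    obtain ⟨h1, h2⟩ := he'
    obtain ⟨x, hx, hxn⟩ := Finset.not_subset.1 h2
    rw [Finset.mem_insert] at hxn
    push Not at hxn
    obtain ⟨-, t, ht, het⟩ := mem_edges.1 h1
    rw [ls_three hx (ain x (mem_vs.2 ⟨t, ht, het hx⟩) hxn.2 hxn.1)]
    rfl
  have e3 : E1 = f.powersetCard 2 ∪ f.image (fun x => {v, x}) := by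
    ext e
    rw [hE1, Finset.mem_filter, Finset.mem_union, Finset.mem_powersetCard, Finset.mem_image]
    constructor
    · rintro ⟨h1, h2⟩
      obtain ⟨x, y, hxy, rfl⟩ := Finset.card_eq_two.1 (mem_edges.1 h1).1
      have hx := h2 (Finset.mem_insert_self x {y})
      have hy := h2 (Finset.mem_insert_of_mem (Finset.mem_singleton_self y))
      rw [Finset.mem_insert] at hx hy
      rcases hx with rfl | hx <;> rcases hy with rfl | hy
      · exact absurd rfl hxy
      · exact Or.inr ⟨y, hy, rfl⟩
      · exact Or.inr ⟨x, hx, Finset.pair_comm _ _⟩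
      · exact Or.inl ⟨pair_sub hx hy, Finset.card_pair hxy⟩
    · rintro (⟨h1, h2⟩ | ⟨x, hx, rfl⟩)
      · exact ⟨mem_edges.2 ⟨h2, f, hf, h1⟩, h1.trans (Finset.subset_insert _ _)⟩
      · refine ⟨he x hx, pair_sub (Finset.mem_insert_self _ _) (Finset.mem_insert_of_mem hx)⟩
  have hdis : Disjoint (f.powersetCard 2) (f.image (fun x => ({v, x} : Finset V))) := by
    rw [Finset.disjoint_left]
    intro e h1 h2
    rw [Finset.mem_powersetCard] at h1
    rw [Finset.mem_image] at h2
    obtain ⟨x, -, rfl⟩ := h2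
    exact hv (h1.1 (by simp))
  have hinj : Set.InjOn (fun x => ({v, x} : Finset V)) (f : Set V) := by
    intro x hx y hy hxy
    have hx' : x ≠ v := fun h1 => hv (h1 ▸ hx)
    have h1 : x ∈ ({v, y} : Finset V) := by
      have : ({v, x} : Finset V) = {v, y} := hxy
      rw [← this]
      simp
    simp only [Finset.mem_insert, Finset.mem_singleton] at h1
    rcases h1 with h1 | h1
    · exact absurd h1 hx'
    · exact h1
  have e4 : E1.card = 6 := by
    rw [e3, Finset.card_union_of_disjoint hdis, Finset.card_powersetCard,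
      Finset.card_image_of_injOn hinj, hf3]
    rfl
  have e5 : ∑ e ∈ E1, (ls a e : ℤ) = 3 := by
    rw [e3, Finset.sum_union hdis, Finset.sum_image hinj]
    have h1 : ∑ e ∈ f.powersetCard 2, (ls a e : ℤ) = 0 := by
      apply Finset.sum_eq_zero
      intro e he'
      rw [Finset.mem_powersetCard] at he'
      rw [ls_zero fun x hx => af x (he'.1 hx)]
      rfl
    have h2 : ∑ x ∈ f, (ls a {v, x} : ℤ) = 3 := by
      rw [Finset.sum_congr rfl (g := fun _ => (1 : ℤ)), Finset.sum_const, hf3]
      · rfl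
      · intro x hx
        have hxv : v ≠ x := fun h1 => hv (h1 ▸ hx)
        have : ls a {v, x} = 1 := by
          unfold ls
          rw [Finset.sum_pair hxv, av, af x hx]
          rfl
        rw [this]
        rfl
    rw [h1, h2]
    rfl
  have e6 : E1.card + E2.card = (edges T).card := by
    rw [hE1, hE2]
    exact Finset.card_filter_add_card_filter_not _
  have e7 : ∑ e ∈ edges T, (ls a e : ℤ) = 3 + 3 * (E2.card : ℤ) := by
    have h1 : ∑ e ∈ E1, (ls a e : ℤ) + ∑ e ∈ E2, (ls a e : ℤ) = ∑ e ∈ edges T, (ls a e : ℤ) := by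
      rw [hE1, hE2]
      exact Finset.sum_filter_add_sum_filter_not _ _ _
    rw [← h1, e5, e2]
  have e8 := euler' h ⟨f, hf⟩
  unfold kap
  rw [e1, e7]
  have e9 : (E2.card : ℤ) = 3 * ((vs T).card : ℤ) - 12 := by
    rw [e4] at e6
    have : ((edges T).card : ℤ) + 6 = 3 * ((vs T).card : ℤ) := by exact_mod_cast e8
    have h10 : (6 : ℤ) + (E2.card : ℤ) = ((edges T).card : ℤ) := by exact_mod_cast e6
    linarith
  rw [e9]
  ring

end Pool.Agent.SplD
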