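import Pool.Agent.BSpl.SupLow
import Pool.Agent.Spl1.TriFinal

/-!
# The lower bound by super splines for discs in the sense of `Spl1`

The lower bound `BSpl.super_bound` for the spline space `Spl1.SplineFn`: the discs of `Spl1` are discs of `BSpl`, the two
algebraic spline spaces are equal, the rest is `BSpl.KK_super`.
-/

set_option autoImplicit false

namespace Pool.Agent.SplD

open Finset

variable {V : Type} [Fintype V] [DecidableEq V]

private theorem low_dvd {R : Type} [CommRing R] (x y : R) (n : ℕ) :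
    (-x) ^ n ∣ y ↔ x ^ n ∣ y := by
  rcases neg_one_pow_eq_or R n with h | h
  · rw [neg_pow, h, one_mul]
  · rw [neg_pow, h, neg_one_mul, neg_dvd]

omit [Fintype V] [DecidableEq V] in
/-- the two affine functions of an edge -/
theorem low_ell (p : V × Fin 2 → ℝ) (u v : V) :
    BSpl.ell (Spl1.pt p u) (Spl1.pt p v) = - Spl1.lin p u v := by
  unfold BSpl.ell BSpl.lf Spl1.lin Spl1.pt
  simp only [Pi.sub_apply, map_sub, map_mul, BSpl.tr_C, BSpl.tr_X]
  ring

omit [Fintype V] in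
/-- the two algebraic spline spaces are equal -/
theorem low_alg (r k : ℕ) (p : V × Fin 2 → ℝ) (T : Finset (Finset V)) :
    BSpl.ASpline r k T (Spl1.pt p) = Spl1.SplineAlg r k p T := by
  ext f
  constructor
  · rintro ⟨h1, h2, h3⟩
    refine ⟨h2, fun t ht => BSpl.mem_Deg.1 (h1 t ht), ?_⟩
    intro s hs t ht u v huv hus hvs hut hvt
    by_cases hst : s = t
    · rw [hst, sub_self]
      exact dvd_zero _
    · have h4 := h3 s t ⟨hs, ht, hst, u, v, huv, hus, hvs, hut, hvt⟩ u v huv hus hvs hut hvt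
      rw [low_ell, low_dvd] at h4
      exact h4
  · rintro ⟨h1, h2, h3⟩
    refine ⟨fun t ht => BSpl.mem_Deg.2 (h2 t ht), h1, ?_⟩
    intro s t hst u v huv hus hvs hut hvt
    have h4 := h3 s hst.1 t hst.2.1 u v huv hus hvs hut hvt
    rw [low_ell, low_dvd]
    exact h4

omit [Fintype V] in
theorem low_ecount (T : Finset (Finset V)) (x y : V) : BSpl.ecount T x y = Spl1.tdeg T {x, y} := by
  unfold BSpl.ecount Spl1.tdeg
  congr 1
  apply Finset.filter_congr
  intro t _
  rw [Finset.insert_subset_iff, Finset.singleton_subset_iff]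

theorem low_edgesF (T : Finset (Finset V)) :
    BSpl.edgesF T = Spl1.edges T := by
  ext e
  unfold BSpl.edgesF
  rw [Finset.mem_biUnion, Spl1.mem_edges]
  constructor
  · rintro ⟨t, ht, he⟩
    rw [Finset.mem_powersetCard] at he
    exact ⟨he.2, t, ht, he.1⟩
  · rintro ⟨he, t, ht, het⟩
    exact ⟨t, ht, Finset.mem_powersetCard.2 ⟨het, he⟩⟩

theorem low_EI (T : Finset (Finset V)) :
    BSpl.EI T = Spl1.intE T := by
  unfold BSpl.EI Spl1.intE
  rw [low_edgesF]
  rfl

theorem low_edge {T : Finset (Finset V)} {x y : V} (hxy : x ≠ y) :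
    BSpl.Edge T x y ↔ ({x, y} : Finset V) ∈ Spl1.edges T := by
  rw [Spl1.mem_edges]
  constructor
  · rintro ⟨_, t, ht, hx, hy⟩
    refine ⟨Finset.card_pair hxy, t, ht, ?_⟩
    rw [Finset.insert_subset_iff, Finset.singleton_subset_iff]
    exact ⟨hx, hy⟩
  · rintro ⟨_, t, ht, h⟩
    exact ⟨hxy, t, ht, h (by simp), h (by simp)⟩

theorem low_verts {T : Finset (Finset V)} (hu : ∀ v, ∃ t ∈ T, v ∈ t) : BSpl.verts T = univ := by
  rw [Finset.eq_univ_iff_forall]
  intro v
  rw [BSpl.mem_verts]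
  exact hu v

theorem low_VI {T : Finset (Finset V)} (hu : ∀ v, ∃ t ∈ T, v ∈ t) :
    BSpl.VI T = Spl1.intV T := by
  ext v
  rw [BSpl.mem_VI, low_verts hu]
  unfold Spl1.intV
  rw [Finset.mem_filter]
  constructor
  · rintro ⟨_, h⟩
    refine ⟨Finset.mem_univ _, fun e he hve => ?_⟩
    obtain ⟨x, y, hxy, rfl⟩ := Finset.card_eq_two.1 (Spl1.mem_edges.1 he).1
    rw [Finset.mem_insert, Finset.mem_singleton] at hve
    rcases hve with rfl | rfl
    · rw [← low_ecount]
      exact h y ((low_edge hxy).2 he)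
    · rw [Finset.pair_comm, ← low_ecount]
      rw [Finset.pair_comm] at he
      exact h x ((low_edge hxy.symm).2 he)
  · rintro ⟨_, h⟩
    refine ⟨Finset.mem_univ _, fun y hy => ?_⟩
    rw [low_ecount]
    exact h _ ((low_edge hy.1).1 hy) (by simp)

theorem low_conn {T : Finset (Finset V)} (h3 : ∀ t ∈ T, t.card = 3) (hT : Spl1.Disc T) :
    ∀ t ∈ T, ∀ t' ∈ T, Relation.ReflTransGen (BSpl.adjT T) t t' := by
  classical
  intro t ht t' ht'
  have h := hT.dconn (T.filter fun s => Relation.ReflTransGen (BSpl.adjT T) t s)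
    (Finset.filter_subset _ _) ⟨t, Finset.mem_filter.2 ⟨ht, Relation.ReflTransGen.refl⟩⟩ ?_
  · have h2 : t' ∈ T.filter fun s => Relation.ReflTransGen (BSpl.adjT T) t s := by
      rw [h]
      exact ht'
    exact (Finset.mem_filter.1 h2).2
  · intro a ha b hb hab
    rw [Finset.mem_filter] at ha ⊢
    refine ⟨hb, ha.2.tail ?_⟩
    obtain ⟨x, y, hxy, h4⟩ := Finset.card_eq_two.1 hab
    have hx : x ∈ a ∩ b := by
      rw [h4]
      simp
    have hy : y ∈ a ∩ b := by
      rw [h4]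
      simp
    rw [Finset.mem_inter] at hx hy
    refine ⟨ha.1, hb, ?_, x, y, hxy, hx.1, hy.1, hx.2, hy.2⟩
    rintro rfl
    rw [Finset.inter_self, h3 a hb] at hab
    omega

theorem low_star {p : V × Fin 2 → ℝ} {T : Finset (Finset V)} (hp : Spl1.IsTriang p T)
    (hT : Spl1.Disc T) : ∀ v, ∀ t ∈ T, ∀ t' ∈ T, v ∈ t → v ∈ t' →
      Relation.ReflTransGen (fun a b => BSpl.adjT T a b ∧ v ∈ a ∧ v ∈ b) t t' := by
  classical
  intro v t ht t' ht' hvt hvt'
  have hG := Spl1.good_of_disc hp hT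
  have h := Spl1.star_conn hG hT hp.used (Spl1.ori_ori hp) (v := v)
    (S := (Spl1.star T v).filter fun s => Relation.ReflTransGen
      (fun a b => BSpl.adjT T a b ∧ v ∈ a ∧ v ∈ b) t s) (Finset.filter_subset _ _)
    ⟨t, Finset.mem_filter.2 ⟨Spl1.mem_star.2 ⟨ht, hvt⟩, Relation.ReflTransGen.refl⟩⟩ ?_
  · have h2 : t' ∈ (Spl1.star T v).filter fun s => Relation.ReflTransGen
        (fun a b => BSpl.adjT T a b ∧ v ∈ a ∧ v ∈ b) t s := by
      rw [h]
      exact Spl1.mem_star.2 ⟨ht', hvt'⟩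
    exact (Finset.mem_filter.1 h2).2
  · intro a ha b hb u huv hvb hua hub
    rw [Finset.mem_filter, Spl1.mem_star] at ha ⊢
    refine ⟨⟨hb, hvb⟩, ?_⟩
    by_cases hab : a = b
    · rw [← hab]
      exact ha.2
    · exact ha.2.tail ⟨⟨ha.1.1, hb, hab, u, v, huv, hua, ha.1.2, hub, hvb⟩, ha.1.2, hvb⟩

theorem low_surf {p : V × Fin 2 → ℝ} {T : Finset (Finset V)} (hp : Spl1.IsTriang p T)
    (hT : Spl1.Disc T) : BSpl.Surf T :=
  ⟨hp.card3, fun x y hxy => by
    rw [low_ecount]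
    exact (Spl1.good_of_disc hp hT).le2 _ (Finset.card_pair hxy), low_conn hp.card3 hT,
    low_star hp hT⟩

theorem low_disc {p : V × Fin 2 → ℝ} {T : Finset (Finset V)} (hp : Spl1.IsTriang p T)
    (hT : Spl1.Disc T) : BSpl.Disc T := by
  have hG := Spl1.good_of_disc hp hT
  refine ⟨low_surf hp hT, ?_, ?_⟩
  · by_contra hno
    push Not at hno
    have h1 : Spl1.bdry T = ∅ := by
      rw [Finset.eq_empty_iff_forall_notMem]
      intro e he
      rw [Spl1.mem_bdry] at he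
      obtain ⟨x, y, hxy, rfl⟩ := Finset.card_eq_two.1 he.1
      have h2 := hG.le2 _ he.1
      have h3 := hno x y hxy
      rw [low_ecount] at h3
      obtain ⟨m, hm⟩ := he.2
      omega
    have h2 := hG.H2 T (Finset.Subset.refl _) h1
    have h3 := hT.ne
    rw [h2] at h3
    exact Finset.not_nonempty_empty h3
  · rw [low_verts hp.used, low_edgesF, Finset.card_univ]
    exact hT.euler

/-- the lower bound by super splines -/
theorem low_bound {p : V × Fin 2 → ℝ} {T : Finset (Finset V)} (hp : Spl1.IsTriang p T)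
    (hT : Spl1.Disc T) (r k : ℕ) (hk : r < k) (a : V → ℕ) (ha : ∀ v, a v ≤ k - r) :
    (((k + 2).choose 2 : ℤ) + ∑ e ∈ Spl1.intE T, ((BSpl.edgeS (k - r) a e : ℕ) : ℤ)
      - ∑ v ∈ Spl1.intV T, (((k + 2).choose 2 : ℤ) - ((r + a v + 2).choose 2 : ℤ)))
      ≤ (Module.finrank ℝ (Spl1.SplineFn r k p T) : ℤ) := by
  obtain ⟨n, rfl⟩ : ∃ n, k = n + r + 1 := ⟨k - r - 1, by omega⟩
  have h := low_disc hp hT
  obtain ⟨α, hα, hdim⟩ := BSpl.exists_alpha r T h.surf (BSpl.H1_of_disc T h) (BSpl.disc_nonempty h)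
  have hne : ∀ x y, BSpl.Edge T x y → Spl1.pt p x ≠ Spl1.pt p y := fun x y hxy he =>
    hxy.1 (Spl1.pt_injective hp he)
  rw [Spl1.finrank_splineFn hp hT, ← low_alg, hdim n (Spl1.pt p) hne]
  have e1 : n + r + 1 - r = n + 1 := by omega
  have hl := BSpl.KK_super r n α T (Spl1.pt p) hne a (fun v => by have := ha v; omega)
  rw [low_EI, low_VI hp.used] at hl
  rw [e1]
  have h2 : ∑ v ∈ Spl1.intV T, (((n + r + 1 + 2).choose 2 : ℤ) - ((r + a v + 2).choose 2 : ℤ)) =
      ((∑ v ∈ Spl1.intV T, BSpl.dM r n (a v) : ℕ) : ℤ) := by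
    push_cast
    refine Finset.sum_congr rfl fun v _ => ?_
    have h3 := BSpl.dM_eq r n (a v) (by have := ha v; omega)
    linarith
  rw [h2]
  have h4 : ((∑ e ∈ Spl1.intE T, BSpl.edgeS (n + 1) a e : ℕ) : ℤ) ≤
      ((Module.finrank ℝ (BSpl.KK r n α T (Spl1.pt p)) + ∑ v ∈ Spl1.intV T, BSpl.dM r n (a v) : ℕ) : ℤ) := by
    exact_mod_cast hl
  have e2 : n + r + 1 + 2 = n + r + 3 := by ring
  rw [e2]
  push_cast at h4 ⊢
  linarith

end Pool.Agent.SplD
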