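import Pool.Agent.SplD.K4
import Pool.Agent.SplD.GenP

/-!
# The induction for spheres with a pinned triangle
-/

set_option autoImplicit false

namespace Pool.Agent.SplD

open Finset Pool.Agent.Spl1 Pool.Agent.Spl2

variable {V : Type*} [Fintype V] [DecidableEq V]

/-- nonsingularity of all the spheres without separating triangles -/
def HNG (V : Type*) [Fintype V] [DecidableEq V] : Prop :=
  ∀ R : Finset (Finset V), Sph R → Fac3 R → 8 ≤ R.card → ∀ g ∈ R, NG (edges R) (vs R \ g)

variable {T R : Finset (Finset V)} {f : Finset V} {D : Finset V → Finset (Finset V)}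

section

variable {K : Type} [Field K]

theorem triv_congr {p p' : V → K × K} {f : Finset V} {w w' : V → Fin 6 → K}
    (h : Triv p f w) (hp : ∀ v ∈ f, p' v = p v) (hw : ∀ v ∈ f, w' v = w v) : Triv p' f w' := by
  obtain ⟨o, t, ht⟩ := h
  refine ⟨o, t, fun v hv => ?_⟩
  rw [hw v hv, hp v hv]
  exact ht v hv

theorem eqs_face {p : V → K × K} {R : Finset (Finset V)} (hR : Sph R) {w : V → Fin 6 → K}
    (h : Eqs p (edges R) w) {g : Finset V} (hg : g ∈ R) : Eqs p (bdry {g}) w := by
  intro u v huv he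
  rw [mem_bdry_single (hR.card3 g hg)] at he
  exact h u v huv (edge_of_tri hg huv (he.2 (by simp)) (he.2 (by simp)))

theorem eqs_face_congr {p p' : V → K × K} {g : Finset V} (hg : g.card = 3) {w w' : V → Fin 6 → K}
    (h : Eqs p (bdry {g}) w) (hp : ∀ v ∈ g, p' v = p v) (hw : ∀ v ∈ g, w' v = w v) :
    Eqs p' (bdry {g}) w' := by
  refine eqs_congr h ?_ hp hw
  intro u v he
  have he' := (mem_bdry_single hg).1 he
  exact ⟨he'.2 (by simp), he'.2 (by simp), he⟩

theorem ndg_congr {p p' : V → K × K} {g : Finset V} (h : Ndg p g) (hp : ∀ v ∈ g, p' v = p v) :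
    Ndg p' g := by
  intro a b c ha hb hc
  rw [hp a ha, hp b hb, hp c hc]
  exact h a b c ha hb hc

/-- on a nonsingular block a nontrivial motion is nontrivial on every triangle -/
theorem triv_spread [CharP K 2] {p : V → K × K} {R : Finset (Finset V)} {g f : Finset V}
    (hf : f ∈ R) (hN : NNS p (edges R) (vs R \ g)) {w : V → Fin 6 → K}
    (hw : Eqs p (edges R) w) (ht : Triv p g w) : Triv p f w := by
  obtain ⟨o, t, ht⟩ := ht
  have h1 : Eqs p (edges R) (w - fun v => tr o t (p v)) := eqs_sub hw (eqs_tr p _ o t)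
  have h2 := nns_zero hN h1 (fun _ _ => rfl) (fun v hv => by
    rw [Pi.sub_apply, ht v hv, sub_self])
  refine ⟨o, t, fun v hv => ?_⟩
  have h3 := h2 v (mem_vs.2 ⟨f, hf, hv⟩)
  rw [Pi.sub_apply, sub_eq_zero] at h3
  exact h3

/-- the supports of the attached functions -/
theorem att_supp {A : Finset V → V → ℕ} (hA : ∀ g ∈ att T R f, Att K (Tg D g) g (A g)) :
    Supp R f D (att T R f) A where
  mem := fun _ hg => ⟨(mem_att.1 hg).1, (mem_att.1 hg).2.1⟩
  supp := fun g hg v hv => (hA g hg).supp v hv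

/-- the restriction of a motion to an attached sphere -/
theorem restr_att {p p' : V → K × K} (hc : Coarse T R f D) {g : Finset V} (hg : g ∈ att T R f)
    {w : V → Fin 6 → K} (hw : Eqs p (edges T) w) (hz : ∀ v ∈ g, w v = 0)
    (hp : ∀ v ∈ vs (Tg D g), p v = p' v) :
    NMot p' (edges (Tg D g)) (vs (Tg D g) \ g) (restr (vs (Tg D g)) w) := by
  obtain ⟨g1, g2, g3⟩ := mem_att.1 hg
  constructor
  · intro v hv
    by_cases h1 : v ∈ vs (Tg D g)
    · rw [restr_mem w h1]
      apply hz
      by_contra h2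
      exact hv (Finset.mem_sdiff.2 ⟨h1, h2⟩)
    · exact restr_not w h1
  · have h2 : Eqs p' (edges (Tg D g)) (restr (vs (Tg D g)) w) := by
      refine eqs_congr (S := vs (Tg D g)) hw ?_ (fun v hv => (hp v hv).symm)
        (fun v hv => restr_mem w hv)
      intro u v he
      exact ⟨(edge_vs he).1, (edge_vs he).2, co_edgesTg hc g1 g2 he⟩
    exact h2

/-- the estimate for motions which vanish on the root block -/
theorem att_bound (h : Sph T) (hf : f ∈ T) (hc : Coarse T R f D) {A : Finset V → V → ℕ}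
    (hA : ∀ g ∈ att T R f, Att K (Tg D g) g (A g)) {p : V → K × K} {P : Finset V → V → K × K}
    (hp : ∀ g ∈ att T R f, ∀ v ∈ vs (Tg D g), p v = P g v)
    (hP : ∀ g ∈ att T R f, (Module.finrank K
      (NSp (P g) (edges (Tg D g)) (vs (Tg D g) \ g)) : ℤ) ≤ kap (Tg D g) (A g))
    {I : Finset V} (hI : I ⊆ vs T)
    (hz : ∀ w, NMot p (edges T) I w → ∀ v ∈ vs R, w v = 0) :
    (Module.finrank K (NSp p (edges T) I) : ℤ) ≤ kap T (fun v => ∑ g ∈ att T R f, A g v) := by
  rw [kap_sum h hc (att_supp hA)]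
  have h1 := finrank_glue (W := NSp p (edges T) I) h hf hc
    (fun g => NSp (P g) (edges (Tg D g)) (vs (Tg D g) \ g))
    (fun w hw => ⟨fun v hv => (mem_NSp.1 hw).pin v (fun h1 => hv (hI h1)), hz w hw⟩)
    (fun g hg w hw => restr_att hc hg (mem_NSp.1 hw).eq
      (fun v hv => hz w hw v (co_face_vs hc (mem_att.1 hg).1 hv)) (hp g hg))
  calc (Module.finrank K (NSp p (edges T) I) : ℤ)
      ≤ ((∑ g ∈ att T R f, Module.finrank K
        (NSp (P g) (edges (Tg D g)) (vs (Tg D g) \ g)) : ℕ) : ℤ) := by exact_mod_cast h1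
    _ = ∑ g ∈ att T R f, (Module.finrank K
        (NSp (P g) (edges (Tg D g)) (vs (Tg D g) \ g)) : ℤ) := by push_cast; rfl
    _ ≤ _ := Finset.sum_le_sum fun g hg => hP g hg

theorem sum_le2 (h : Sph T) (hc : Coarse T R f D) {A : Finset V → V → ℕ}
    (hA : ∀ g ∈ att T R f, Att K (Tg D g) g (A g)) (v : V) :
    ∑ g ∈ att T R f, A g v ≤ 2 := by
  by_cases h1 : ∃ g ∈ att T R f, A g v ≠ 0
  · obtain ⟨g, hg, hgv⟩ := h1
    rw [supp_sum h hc (att_supp hA) hg hgv]
    exact (hA g hg).le2 v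
  · push Not at h1
    rw [Finset.sum_eq_zero h1]
    exact Nat.zero_le _

theorem sum_supp (h : Sph T) (hc : Coarse T R f D) {A : Finset V → V → ℕ}
    (hA : ∀ g ∈ att T R f, Att K (Tg D g) g (A g)) (v : V)
    (hv : ∑ g ∈ att T R f, A g v ≠ 0) : v ∈ vs T ∧ v ∉ vs R := by
  obtain ⟨g, hg, hgv⟩ := Finset.exists_ne_zero_of_sum_ne_zero hv
  obtain ⟨h1, h2⟩ := (hA g hg).supp v hgv
  obtain ⟨g1, g2, g3⟩ := mem_att.1 hg
  obtain ⟨-, h3, h4⟩ := co_in h hc g1 g2 h1 h2
  exact ⟨h4, h3⟩

end

theorem p_ind (K : Type) [Field K] [CharP K 2] [Infinite K] (hNG : HNG V) :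
    ∀ n : ℕ, ∀ T : Finset (Finset V), T.card = n → Sph T → ∀ f ∈ T, ∃ a, Att K T f a := by
  intro n
  induction n using Nat.strong_induction_on with
  | _ n ih =>
  intro T hn h f hf
  obtain ⟨R, D, hc, hF⟩ := exists_root h hf
  have hf3 := h.card3 f hf
  have hR := hc.sph
  have hfR := hc.mem
  have hA' : ∀ g : Finset V, ∃ a, g ∈ att T R f → Att K (Tg D g) g a := by
    intro g
    by_cases hg : g ∈ att T R f
    · obtain ⟨g1, g2, g3⟩ := mem_att.1 hg
      have h1 := co_card hf hc g1 g2 g3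
      rw [hn] at h1
      obtain ⟨a, ha⟩ := ih _ h1 (Tg D g) rfl (co_sph h hc g1 g2 g3) g (mem_Tg D g)
      exact ⟨a, fun _ => ha⟩
    · exact ⟨0, fun h1 => absurd h1 hg⟩
  choose A hA using hA'
  have hER : ∀ {p p0 : V → K × K} {w : V → Fin 6 → K}, (∀ v ∈ vs R, p v = p0 v) →
      Eqs p (edges T) w → Eqs p0 (edges R) w := by
    intro p p0 w hp hw
    refine eqs_congr hw ?_ (fun v hv => (hp v hv).symm) (fun _ _ => rfl)
    intro u v he
    exact ⟨(edge_vs he).1, (edge_vs he).2, co_edges_sub hc he⟩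
  have hEg : ∀ {p : V → K × K} {P : Finset V → V → K × K} {w : V → Fin 6 → K},
      (∀ g ∈ att T R f, ∀ v ∈ vs (Tg D g), p v = P g v) →
      Eqs p (edges T) w → ∀ g ∈ att T R f, Eqs (P g) (edges (Tg D g)) w := by
    intro p P w hp hw g hg
    obtain ⟨g1, g2, g3⟩ := mem_att.1 hg
    refine eqs_congr hw ?_ (fun v hv => (hp g hg v hv).symm) (fun _ _ => rfl)
    intro u v he
    exact ⟨(edge_vs he).1, (edge_vs he).2, co_edgesTg hc g1 g2 he⟩
  by_cases h5 : 4 < R.card
  · -- a big root block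
    refine ⟨fun v => ∑ g ∈ att T R f, A g v, sum_le2 h hc hA, ?_, ?_⟩
    · intro v hv
      obtain ⟨h1, h2⟩ := sum_supp h hc hA v hv
      exact ⟨h1, fun h3 => h2 (co_face_vs hc hfR h3)⟩
    intro q μ hq hμ hn
    obtain ⟨p0, hp0f, hp0N, hNN⟩ := exists_pos K hR hfR (hNG R hR hF (hR.eight_le hF h5)) hq
    obtain ⟨w, hwf, hwE⟩ := ext_exists hR hfR (hNN f hfR) (eqs_face_congr hf3 hμ hp0f
      (fun _ _ => rfl))
    have hnt : ∀ g ∈ R, ¬ Triv p0 g w := by
      intro g hg ht
      apply hn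
      exact triv_congr (triv_spread hfR (hNN g hg) hwE ht) (fun v hv => (hp0f v hv).symm)
        (fun v hv => (hwf v hv).symm)
    have hP' : ∀ g : Finset V, ∃ P : V → K × K, g ∈ att T R f → (∀ v ∈ g, P v = p0 v) ∧
        (Module.finrank K (NSp P (edges (Tg D g)) (vs (Tg D g) \ g)) : ℤ) ≤ kap (Tg D g) (A g) ∧
        (0 < kap (Tg D g) (A g) → ∀ w' : V → Fin 6 → K, (∀ v ∈ g, w' v = w v) →
          ¬ Eqs P (edges (Tg D g)) w') := by
      intro g
      by_cases hg : g ∈ att T R f
      · obtain ⟨g1, g2, g3⟩ := mem_att.1 hg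
        obtain ⟨P, h1, h2, h3⟩ := (hA g hg).ext p0 w (hp0N g g1) (eqs_face hR hwE g1) (hnt g g1)
        exact ⟨P, fun _ => ⟨h1, h2, h3⟩⟩
      · exact ⟨p0, fun h1 => absurd h1 hg⟩
    choose P hP using hP'
    obtain ⟨p, hpR, hpg⟩ := exists_glue h hc p0 P (fun g hg => (hP g hg).1)
    refine ⟨p, ?_, ?_, ?_⟩
    · intro v hv
      rw [hpR v (co_face_vs hc hfR hv), hp0f v hv]
    · refine att_bound h hf hc hA hpg (fun g hg => (hP g hg).2.1) Finset.sdiff_subset ?_
      intro w' hw' v hv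
      refine nns_zero (hNN f hfR) (hER hpR hw'.eq) (fun _ _ => rfl) ?_ v hv
      intro u hu
      exact hw'.pin u (fun h1 => (Finset.mem_sdiff.1 h1).2 hu)
    · intro hpos w' hw' hE
      rw [kap_sum h hc (att_supp hA)] at hpos
      obtain ⟨g, hg, hgpos⟩ : ∃ g ∈ att T R f, 0 < kap (Tg D g) (A g) := by
        by_contra hcon
        push Not at hcon
        exact absurd (Finset.sum_nonpos hcon) (not_le.2 hpos)
      have h1 : ∀ v ∈ vs R, (w' - w) v = 0 := by
        refine nns_zero (hNN f hfR) (eqs_sub (hER hpR hE) hwE) (fun _ _ => rfl) ?_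
        intro u hu
        rw [Pi.sub_apply, hw' u hu, hwf u hu, sub_self]
      refine (hP g hg).2.2 hgpos w' ?_ (hEg hpg hE g hg)
      intro v hv
      have h2 := h1 v (co_face_vs hc (mem_att.1 hg).1 hv)
      rw [Pi.sub_apply, sub_eq_zero] at h2
      exact h2
  · -- a tetrahedron
    obtain ⟨v, hT⟩ := four_struct hR hfR (not_lt.1 h5)
    have hvR : v ∈ vs R := by rw [hT.vs_eq]; simp
    have hvT : v ∈ vs T := co_vs_sub hc hvR
    have hne : ∀ x ∈ f, x ≠ v := fun x hx h1 => hT.notMem (h1 ▸ hx)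
    -- common construction
    have main : ∀ (q : V → K × K) (μ : V → Fin 6 → K), Ndg q f → Eqs q (bdry {f}) μ →
        ¬ Triv q f μ → ∃ (p0 p : V → K × K) (P : Finset V → V → K × K) (w0 : V → Fin 6 → K),
        TetM R f v p0 w0 ∧ (∀ x ∈ f, p x = q x) ∧ (∀ x ∈ vs R, p x = p0 x) ∧
        (∀ g ∈ att T R f, ∀ x ∈ vs (Tg D g), p x = P g x) ∧
        (∀ g ∈ att T R f, (Module.finrank K (NSp (P g) (edges (Tg D g)) (vs (Tg D g) \ g)) : ℤ) ≤
          kap (Tg D g) (A g)) ∧
        (∀ g ∈ att T R f, 0 < kap (Tg D g) (A g) → ∀ w' : V → Fin 6 → K,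
          (∀ x ∈ g, w' x = w0 x) → ¬ Eqs (P g) (edges (Tg D g)) w') ∧
        (∀ w' : V → Fin 6 → K, (∀ x ∈ f, w' x = μ x) → ¬ Eqs p (edges T) w') := by
      intro q μ hq hμ hn
      obtain ⟨x0, hx0, hbad⟩ := exists_bad hf3 hq hμ hn
      obtain ⟨p0, hp0⟩ : ∃ p0 : V → K × K, p0 = fun u => if u = v then x0 else q u := ⟨_, rfl⟩
      have hp0v : p0 v = x0 := by rw [hp0]; exact if_pos rfl
      have hp0f : ∀ x ∈ f, p0 x = q x := by
        intro x hx
        rw [hp0]
        exact if_neg (hne x hx)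
      obtain ⟨w0, hw0⟩ := exists_tetM hR hfR hT (p := p0) (by
        intro y hy z hz hyz
        rw [hp0v, hp0f y hy, hp0f z hz]
        exact hx0 y hy z hz hyz)
      have hP' : ∀ g : Finset V, ∃ P : V → K × K, g ∈ att T R f → (∀ v ∈ g, P v = p0 v) ∧
          (Module.finrank K (NSp P (edges (Tg D g)) (vs (Tg D g) \ g)) : ℤ) ≤ kap (Tg D g) (A g) ∧
          (0 < kap (Tg D g) (A g) → ∀ w' : V → Fin 6 → K, (∀ v ∈ g, w' v = w0 v) →
            ¬ Eqs P (edges (Tg D g)) w') := by
        intro g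
        by_cases hg : g ∈ att T R f
        · obtain ⟨g1, g2, g3⟩ := mem_att.1 hg
          obtain ⟨P, h1, h2, h3⟩ := (hA g hg).ext p0 w0 (hw0.ndg g g1 g2)
            (eqs_face hR hw0.eqs g1) (hw0.triv g g1 g2)
          exact ⟨P, fun _ => ⟨h1, h2, h3⟩⟩
        · exact ⟨p0, fun h1 => absurd h1 hg⟩
      choose P hP using hP'
      obtain ⟨p, hpR, hpg⟩ := exists_glue h hc p0 P (fun g hg => (hP g hg).1)
      refine ⟨p0, p, P, w0, hw0, ?_, hpR, hpg, fun g hg => (hP g hg).2.1,
        fun g hg => (hP g hg).2.2, ?_⟩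
      · intro x hx
        rw [hpR x (co_face_vs hc hfR hx), hp0f x hx]
      · intro w' hw' hE
        apply hbad
        refine ⟨w' v, ?_⟩
        intro y hy
        have h1 := hER hpR hE y v (hne y hy) (edge_swap (hT.edge y hy))
        rw [hp0v, hp0f y hy, hw' y hy, c2_sub_pair x0 (q y)] at h1
        rw [h1, add_comm]
    by_cases hall : ∃ g ∈ att T R f, 0 < kap (Tg D g) (A g)
    · obtain ⟨g0, hg0, hg0pos⟩ := hall
      refine ⟨fun v => ∑ g ∈ att T R f, A g v, sum_le2 h hc hA, ?_, ?_⟩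
      · intro v hv
        obtain ⟨h1, h2⟩ := sum_supp h hc hA v hv
        exact ⟨h1, fun h3 => h2 (co_face_vs hc hfR h3)⟩
      intro q μ hq hμ hn
      obtain ⟨p0, p, P, w0, hw0, hpf, hpR, hpg, hP1, hP2, hbad⟩ := main q μ hq hμ hn
      refine ⟨p, hpf, ?_, fun _ => hbad⟩
      refine att_bound h hf hc hA hpg hP1 Finset.sdiff_subset ?_
      intro w hw
      have hwf : ∀ u ∈ f, w u = 0 := fun u hu =>
        hw.pin u (fun h1 => (Finset.mem_sdiff.1 h1).2 hu)
      obtain ⟨k, hk⟩ := hw0.span w (hER hpR hw.eq) hwf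
      have hwR : ∀ u ∈ vs R, w u = k • w0 u := by
        intro u hu
        rw [hT.vs_eq, Finset.mem_insert] at hu
        rcases hu with rfl | hu
        · exact hk
        · rw [hwf u hu, hw0.off u (hne u hu), smul_zero]
      have hk0 : k = 0 := by
        by_contra hk0
        refine hP2 g0 hg0 hg0pos (k⁻¹ • w) ?_ (hEg hpg (eqs_smul k⁻¹ hw.eq) g0 hg0)
        intro x hx
        rw [Pi.smul_apply, hwR x (co_face_vs hc (mem_att.1 hg0).1 hx), smul_smul,
          inv_mul_cancel₀ hk0, one_smul]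
      intro u hu
      rw [hwR u hu, hk0, zero_smul]
    · push Not at hall
      have hsp := kap_spec h hf hT.notMem hvT (fun x hx => co_edges_sub hc (hT.edge x hx))
      refine ⟨fun u => if u = v then 1 else if u ∈ vs T \ f then 2 else 0, ?_, ?_, ?_⟩
      · intro u
        split_ifs
        · norm_num
        · norm_num
        · norm_num
      · intro u hu
        by_cases h1 : u = v
        · rw [h1]
          exact ⟨hvT, hT.notMem⟩
        · rw [if_neg h1] at hu
          by_cases h2 : u ∈ vs T \ f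
          · exact Finset.mem_sdiff.1 h2
          · rw [if_neg h2] at hu
            exact absurd rfl hu
      intro q μ hq hμ hn
      obtain ⟨p0, p, P, w0, hw0, hpf, hpR, hpg, hP1, hP2, hbad⟩ := main q μ hq hμ hn
      refine ⟨p, hpf, ?_, fun _ => hbad⟩
      rw [hsp]
      -- the map `w ↦ w v`
      let L : NSp p (edges T) (vs T \ f) →ₗ[K] (Fin 6 → K) :=
        (LinearMap.proj v).comp (Submodule.subtype _)
      have hLa : ∀ w : NSp p (edges T) (vs T \ f), L w = w.1 v := fun w => rfl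
      have hwf : ∀ w : NSp p (edges T) (vs T \ f), ∀ u ∈ f, w.1 u = 0 := by
        intro w u hu
        exact (mem_NSp.1 w.2).pin u (fun h1 => (Finset.mem_sdiff.1 h1).2 hu)
      have hLinj : Function.Injective L := by
        rw [← LinearMap.ker_eq_bot, LinearMap.ker_eq_bot']
        intro w hw
        rw [hLa] at hw
        have hw1 := mem_NSp.1 w.2
        have hwR : ∀ u ∈ vs R, w.1 u = 0 := by
          intro u hu
          rw [hT.vs_eq, Finset.mem_insert] at hu
          rcases hu with rfl | hu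
          · exact hw
          · exact hwf w u hu
        apply Subtype.ext
        funext u
        by_contra hu0
        have huT : u ∈ vs T := by
          by_contra h2
          exact hu0 (hw1.pin u (fun h3 => h2 (Finset.mem_sdiff.1 h3).1))
        rcases co_pos h hf hc huT with h2 | ⟨g, g1, g2, g3, g4, -, g6, -⟩
        · exact hu0 (hwR u h2)
        · have hg := mem_att.2 ⟨g1, g2, g3⟩
          have h3 := restr_att hc hg hw1.eq (fun x hx => hwR x (co_face_vs hc g1 hx)) (hpg g hg)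
          have h4 : Module.finrank K (NSp (P g) (edges (Tg D g)) (vs (Tg D g) \ g)) = 0 := by
            have := (hP1 g hg).trans (hall g hg)
            omega
          rw [Submodule.finrank_eq_zero] at h4
          have h5 : restr (vs (Tg D g)) w.1 ∈ NSp (P g) (edges (Tg D g)) (vs (Tg D g) \ g) := h3
          rw [h4, Submodule.mem_bot] at h5
          have h6 := congrFun h5 u
          rw [restr_mem _ g6] at h6
          exact hu0 h6
      have hLr : LinearMap.range L ≤ K ∙ (w0 v) := by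
        rintro _ ⟨w, rfl⟩
        obtain ⟨k, hk⟩ := hw0.span w.1 (hER hpR (mem_NSp.1 w.2).eq) (hwf w)
        rw [hLa, hk]
        exact Submodule.smul_mem _ _ (Submodule.mem_span_singleton_self _)
      have h1 := LinearMap.finrank_range_of_inj hLinj
      have h2 := Submodule.finrank_mono hLr
      have h3 : Module.finrank K (K ∙ (w0 v)) ≤ 1 := by
        by_cases h4 : w0 v = 0
        · rw [h4, Submodule.span_zero_singleton, finrank_bot]
          exact Nat.zero_le _
        · rw [finrank_span_singleton h4]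
      rw [h1] at h2
      exact_mod_cast h2.trans h3

/-- every sphere with a pinned triangle -/
theorem exists_att (K : Type) [Field K] [CharP K 2] [Infinite K] (hNG : HNG V) (h : Sph T)
    (hf : f ∈ T) : ∃ a, Att K T f a := p_ind K hNG T.card T rfl h f hf

end Pool.Agent.SplD
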