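import Pool.Agent.SplD.FourUp
import Pool.Agent.SplD.Low
import Pool.Agent.Spl2.SphGlu
import Pool.Agent.BSpl.Main

/-!
# The generic dimension of `C²` splines of every degree

`Val r k T a`: the lower bound of the function `a`.  `finish`: a generic upper bound `Val r k T a` for one `a`
gives the generic dimension, the maximum of `Val r k T` over all functions with values `≤ k - r`.
-/

set_option autoImplicit false

namespace Pool.Agent.SplD

open Finset Pool.Agent.Spl1 Pool.Agent.Spl2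

variable {V : Type} [Fintype V] [DecidableEq V]

/-- the lower bound of the function `a` -/
def Val (r k : ℕ) (T : Finset (Finset V)) (a : V → ℕ) : ℤ :=
  ((k + 2).choose 2 : ℤ) + ∑ e ∈ intE T, ((BSpl.edgeS (k - r) a e : ℕ) : ℤ)
    - ∑ v ∈ intV T, (((k + 2).choose 2 : ℤ) - ((r + a v + 2).choose 2 : ℤ))

theorem val_le {p : V × Fin 2 → ℝ} {T : Finset (Finset V)} (hp : IsTriang p T)
    (hT : Disc T) (r k : ℕ) (hk : r < k) (a : V → ℕ) (ha : ∀ v, a v ≤ k - r) :
    Val r k T a ≤ (Module.finrank ℝ (SplineFn r k p T) : ℤ) := low_bound hp hT r k hk a ha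

/-- the generic dimension is the maximum of `Val` -/
def GenMax (r k : ℕ) (T : Finset (Finset V)) (d : ℕ) : Prop :=
  IsGreatest {x : ℤ | ∃ a : V → ℕ, (∀ v, a v ≤ k - r) ∧ x = Val r k T a} d ∧
    (∀ p : V × Fin 2 → ℝ, IsTriang p T → d ≤ Module.finrank ℝ (SplineFn r k p T)) ∧
    ∀ p : V × Fin 2 → ℝ, IsTriang p T → ∀ ε : ℝ, 0 < ε →
      ∃ p' : V × Fin 2 → ℝ, dist p' p < ε ∧ IsTriang p' T ∧
        Module.finrank ℝ (SplineFn r k p' T) = d

theorem finish {T : Finset (Finset V)} (hT : Disc T) {p₀ : V × Fin 2 → ℝ} (hp₀ : IsTriang p₀ T)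
    {r k : ℕ} (hk : r < k) {a : V → ℕ} (ha : ∀ v, a v ≤ k - r)
    (hup : ∀ p : V × Fin 2 → ℝ, IsTriang p T → ∀ ε : ℝ, 0 < ε →
      ∃ p' : V × Fin 2 → ℝ, dist p' p < ε ∧ IsTriang p' T ∧
        (Module.finrank ℝ (SplineFn r k p' T) : ℤ) ≤ Val r k T a) : ∃ d : ℕ, GenMax r k T d := by
  obtain ⟨p', -, h2, h3⟩ := hup p₀ hp₀ 1 one_pos
  have h4 := val_le h2 hT r k hk a ha
  have h5 : (Module.finrank ℝ (SplineFn r k p' T) : ℤ) = Val r k T a := le_antisymm h3 h4
  refine ⟨Module.finrank ℝ (SplineFn r k p' T), ⟨⟨a, ha, h5⟩, ?_⟩, ?_, ?_⟩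
  · rintro x ⟨b, hb, rfl⟩
    exact val_le h2 hT r k hk b hb
  · intro p hp
    have h6 := val_le hp hT r k hk a ha
    rw [← h5] at h6
    exact_mod_cast h6
  · intro p hp ε hε
    obtain ⟨p'', h6, h7, h8⟩ := hup p hp ε hε
    refine ⟨p'', h6, h7, ?_⟩
    have h9 := val_le h7 hT r k hk a ha
    have h10 : (Module.finrank ℝ (SplineFn r k p'' T) : ℤ) = Val r k T a := le_antisymm h8 h9
    rw [← h5] at h10
    exact_mod_cast h10

/-- from an algebraic genericity condition to perturbations -/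
theorem perturb_of_poly {T : Finset (Finset V)} {Q : MvPolynomial (V × Fin 2) ℝ} (hQ : Q ≠ 0)
    {P : (V × Fin 2 → ℝ) → Prop}
    (hP : ∀ p : V × Fin 2 → ℝ, IsTriang p T → MvPolynomial.eval p Q ≠ 0 → P p) :
    ∀ p : V × Fin 2 → ℝ, IsTriang p T → ∀ ε : ℝ, 0 < ε →
      ∃ p' : V × Fin 2 → ℝ, dist p' p < ε ∧ IsTriang p' T ∧ P p' := by
  intro p hp ε hε
  obtain ⟨p', hp', hp'Q⟩ := exists_eval_ne_of_open hQ
    ((isOpen_isTriang T).inter Metric.isOpen_ball) ⟨p, hp, Metric.mem_ball_self hε⟩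
  exact ⟨p', hp'.2, hp'.1, hP p' hp'.1 hp'Q⟩

theorem edgeS_two {a : V → ℕ} (ha : ∀ v, a v ≤ 2) {e : Finset V} (he : e.card = 2) :
    BSpl.edgeS 2 a e = 3 - ∑ v ∈ e, (a v + 1).choose 2 := by
  obtain ⟨x, y, hxy, rfl⟩ := Finset.card_eq_two.1 he
  unfold BSpl.edgeS
  rw [Finset.sum_pair hxy, Finset.sum_pair hxy, Finset.prod_pair hxy]
  have hx := ha x
  have hy := ha y
  generalize a x = m at hx ⊢
  generalize a y = n at hy ⊢
  interval_cases m <;> interval_cases n <;> rfl

theorem val4_val {T : Finset (Finset V)} {a : V → ℕ} (ha : ∀ v, a v ≤ 2) :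
    val4 T a = Val 2 4 T a := by
  unfold val4 Val
  have e1 : ((4 + 2).choose 2 : ℤ) = 15 := by decide
  have e0 : (((4 + 2).choose 2 : ℕ) : ℤ) = 15 := by decide
  rw [e0]
  congr 1
  · congr 1
    apply Finset.sum_congr rfl
    intro e he
    unfold intE at he
    rw [edgeS_two ha (mem_edges.1 (Finset.mem_filter.1 he).1).1]
  · apply Finset.sum_congr rfl
    intro v _
    have e2 : 2 + a v + 2 = a v + 4 := by ring
    rw [e2]

/-- `k = 4` -/
theorem case4 {T : Finset (Finset V)} (hT : Disc T) {p₀ : V × Fin 2 → ℝ} (hp₀ : IsTriang p₀ T) :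
    ∃ d : ℕ, GenMax 2 4 T d := by
  have : CharP (RatFunc (ZMod 2)) 2 := ratFunc_charP (ZMod 2)
  have : Infinite (RatFunc (ZMod 2)) := ratFunc_infinite (ZMod 2)
  obtain ⟨a, ha, Q, hQ, hQ'⟩ := four_up (K := RatFunc (ZMod 2))
    (fun R hR hF h8 g hg => gb_sphere (RatFunc (ZMod 2)) hR hF hg h8) hp₀ hT
  refine finish hT hp₀ (by norm_num) (a := a) ha (perturb_of_poly hQ fun p hp hpQ => ?_)
  rw [← val4_val ha]
  exact hQ' p hp hpQ

/-- `k = 3` -/
theorem case3 {T : Finset (Finset V)} (hT : Disc T) {p₀ : V × Fin 2 → ℝ} (hp₀ : IsTriang p₀ T) :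
    ∃ d : ℕ, GenMax 2 3 T d := by
  obtain ⟨Q, hQ, hQ'⟩ := finrank_generic hT (le_refl 2)
  obtain ⟨A, hA, hAs⟩ := Finset.exists_mem_eq_sup (intV T).powerset
    ⟨∅, Finset.empty_mem_powerset _⟩ (fun A => cnt (intE T) (intV T) A - (2 + 2) * A.card)
  rw [Finset.mem_powerset] at hA
  obtain ⟨a, hae⟩ : ∃ a : V → ℕ, a = fun v => if v ∈ intV T \ A then 1 else 0 := ⟨_, rfl⟩
  have ha1 : ∀ v ∈ intV T, v ∉ A → a v = 1 := by
    intro v hv hvA
    rw [hae]
    exact if_pos (Finset.mem_sdiff.2 ⟨hv, hvA⟩)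
  have ha0 : ∀ v, v ∉ intV T ∨ v ∈ A → a v = 0 := by
    intro v hv
    rw [hae]
    refine if_neg fun h => ?_
    rcases hv with h1 | h1
    · exact h1 (Finset.mem_sdiff.1 h).1
    · exact (Finset.mem_sdiff.1 h).2 h1
  have hale : ∀ v, a v ≤ 3 - 2 := by
    intro v
    by_cases h1 : v ∈ intV T ∧ v ∉ A
    · rw [ha1 v h1.1 h1.2]
    · rw [ha0 v (by tauto)]
      exact Nat.zero_le _
  -- the edges
  have hE : ∑ e ∈ intE T, ((BSpl.edgeS (3 - 2) a e : ℕ) : ℤ) = (cnt (intE T) (intV T) A : ℤ) := by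
    unfold cnt
    rw [Finset.card_filter]
    push_cast
    apply Finset.sum_congr rfl
    intro e he
    unfold intE at he
    obtain ⟨x, y, hxy, rfl⟩ := Finset.card_eq_two.1 (mem_edges.1 (Finset.mem_filter.1 he).1).1
    unfold BSpl.edgeS
    rw [Finset.sum_pair hxy, Finset.sum_pair hxy, Finset.prod_pair hxy]
    by_cases h1 : ({x, y} : Finset V) ∩ intV T ⊆ A
    · have hx : a x = 0 := by
        apply ha0
        by_cases h2 : x ∈ intV T
        · exact Or.inr (h1 (Finset.mem_inter.2 ⟨by simp, h2⟩))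
        · exact Or.inl h2
      have hy : a y = 0 := by
        apply ha0
        by_cases h2 : y ∈ intV T
        · exact Or.inr (h1 (Finset.mem_inter.2 ⟨by simp, h2⟩))
        · exact Or.inl h2
      rw [hx, hy, if_pos h1]
      rfl
    · rw [if_neg h1]
      rw [Finset.not_subset] at h1
      obtain ⟨z, hz, hzA⟩ := h1
      rw [Finset.mem_inter] at hz
      have hz1 := ha1 z hz.2 hzA
      have hx1 := hale x
      have hy1 := hale y
      have hz' := hz.1
      simp only [Finset.mem_insert, Finset.mem_singleton] at hz'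
      rcases hz' with rfl | rfl
      · rw [hz1]
        generalize a y = n at hy1 ⊢
        interval_cases n <;> rfl
      · rw [hz1]
        generalize a x = n at hx1 ⊢
        interval_cases n <;> rfl
  have hV : ∑ v ∈ intV T, (((3 + 2).choose 2 : ℤ) - ((2 + a v + 2).choose 2 : ℤ)) =
      4 * (A.card : ℤ) := by
    have h1 : ∑ v ∈ intV T, (((3 + 2).choose 2 : ℤ) - ((2 + a v + 2).choose 2 : ℤ)) =
        ∑ v ∈ A, (4 : ℤ) := by
      symm
      have h2 : ∑ v ∈ A, (4 : ℤ) =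
          ∑ v ∈ A, (((3 + 2).choose 2 : ℤ) - ((2 + a v + 2).choose 2 : ℤ)) := by
        apply Finset.sum_congr rfl
        intro v hv
        rw [ha0 v (Or.inr hv)]
        decide
      rw [h2]
      apply Finset.sum_subset hA
      intro v hv hvA
      rw [ha1 v hv hvA]
      decide
    rw [h1, Finset.sum_const, nsmul_eq_mul, mul_comm]
  have hval : Val 2 3 T a = 10 + ((cnt (intE T) (intV T) A : ℤ) - 4 * (A.card : ℤ)) := by
    unfold Val
    rw [hE, hV]
    have e0 : (((3 + 2).choose 2 : ℕ) : ℤ) = 10 := by decide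
    rw [e0]
    ring
  by_cases hpos : 4 * A.card ≤ cnt (intE T) (intV T) A
  · refine finish hT hp₀ (by norm_num) (a := a) hale (perturb_of_poly hQ fun p hp hpQ => ?_)
    rw [hQ' p hp hpQ, hval]
    unfold gdim
    rw [hAs]
    have e0 : (2 + 3).choose 2 = 10 := by decide
    rw [e0]
    push_cast [Nat.cast_sub hpos]
    omega
  · -- the maximum is attained by the constant function
    have h0 : ∀ v : V, (fun _ => 1 : V → ℕ) v ≤ 3 - 2 := fun _ => le_refl 1
    refine finish hT hp₀ (by norm_num) (a := fun _ => 1) h0 (perturb_of_poly hQ fun p hp hpQ => ?_)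
    rw [hQ' p hp hpQ]
    unfold gdim
    rw [hAs]
    have e0 : (2 + 3).choose 2 = 10 := by decide
    rw [e0]
    have h1 : cnt (intE T) (intV T) A - (2 + 2) * A.card = 0 := by omega
    rw [h1]
    unfold Val
    rw [Finset.sum_eq_zero, Finset.sum_eq_zero]
    · decide
    · intro v _
      show ((3 + 2).choose 2 : ℤ) - ((2 + 1 + 2).choose 2 : ℤ) = 0
      decide
    · intro e he
      unfold intE at he
      obtain ⟨x, y, hxy, rfl⟩ := Finset.card_eq_two.1 (mem_edges.1 (Finset.mem_filter.1 he).1).1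
      unfold BSpl.edgeS
      rw [Finset.sum_pair hxy, Finset.sum_pair hxy, Finset.prod_pair hxy]
      rfl

theorem triang_of_tri {T : Finset (Finset V)} {p : V → BSpl.Pt} (h3 : ∀ t ∈ T, t.card = 3)
    (hu : ∀ v, ∃ t ∈ T, v ∈ t) (hp : BSpl.IsTri T p) : IsTriang (fun x => p x.1 x.2) T := by
  refine ⟨h3, hu, ?_, hp.inter⟩
  intro u v w ht
  have h1 := hp.indep _ ht
  have hc := h3 _ ht
  have huv : u ≠ v := by
    rintro rfl
    have := Finset.card_le_two (a := u) (b := w)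
    rw [Finset.insert_eq_of_mem (by simp)] at hc
    omega
  have huw : u ≠ w := by
    rintro rfl
    have h2 : ({u, v, u} : Finset V) = {v, u} := by
      ext x
      simp only [Finset.mem_insert, Finset.mem_singleton]
      tauto
    rw [h2] at hc
    have := Finset.card_le_two (a := v) (b := u)
    omega
  have hvw : v ≠ w := by
    rintro rfl
    have h2 : ({u, v, v} : Finset V) = {u, v} := by
      ext x
      simp only [Finset.mem_insert, Finset.mem_singleton]
      tauto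
    rw [h2] at hc
    have := Finset.card_le_two (a := u) (b := v)
    omega
  exact (BSpl.indep_iff p u v w huv huw hvw).1 h1

theorem tri_of_triang {T : Finset (Finset V)} {p : V × Fin 2 → ℝ} (hp : IsTriang p T) :
    BSpl.IsTri T (pt p) := by
  refine ⟨?_, hp.inter⟩
  intro t ht
  obtain ⟨u, v, w, huv, huw, hvw, rfl⟩ := Finset.card_eq_three.1 (hp.card3 t ht)
  exact (BSpl.indep_iff (pt p) u v w huv huw hvw).2 (hp.nondeg u v w ht)

/-- `k ≥ 5` (more generally `2 k + 1 ≥ 5 r`) -/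
theorem case5 {T : Finset (Finset V)} (hT : Disc T) {p₀ : V × Fin 2 → ℝ} (hp₀ : IsTriang p₀ T)
    {r k : ℕ} (hr : 1 ≤ r) (hk : 5 * r ≤ 2 * k + 1) (hrk : r < k) :
    ∃ d : ℕ, GenMax r k T d := by
  have hD := low_disc hp₀ hT
  obtain ⟨a, ha, hge⟩ := BSpl.super_ge r k hrk T
  refine finish hT hp₀ hrk (a := a) ha ?_
  intro p hp ε hε
  obtain ⟨p', h1, h2, h3⟩ := BSpl.generic_dim r k hr hk T hD (pt p) (tri_of_triang hp) ε hε
  have h4 := triang_of_tri hp.card3 hp.used h2
  refine ⟨fun x => p' x.1 x.2, ?_, h4, ?_⟩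
  · rw [dist_pi_lt_iff hε]
    rintro ⟨v, i⟩
    have h5 := h1 v (by
      rw [low_verts hp.used]
      exact Finset.mem_univ v)
    rw [Real.dist_eq]
    refine lt_of_le_of_lt ?_ h5
    have h6 := norm_le_pi_norm (p' v - pt p v) i
    rw [Real.norm_eq_abs] at h6
    exact h6
  · have h5 : Module.finrank ℝ (SplineFn r k (fun x => p' x.1 x.2) T) =
        Module.finrank ℝ (BSpl.Spl r k T p') := by
      rw [finrank_splineFn h4 hT, ← low_alg, BSpl.finrank_Spl r k T hD.surf p' h2]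
      rfl
    rw [h5]
    have h6 : Val r k T a = BSpl.SupB r k T a := by
      unfold Val BSpl.SupB
      rw [low_EI, low_VI hp₀.used]
    rw [h6]
    refine le_trans ?_ hge
    unfold BSpl.Form at h3
    have h7 : ((Module.finrank ℝ (BSpl.Spl r k T p') + BSpl.gam r k * (BSpl.VI T).card : ℕ) : ℤ) =
        (((k + 2).choose 2 + (k - r + 1).choose 2 * (BSpl.EI T).card +
          ∑ v ∈ BSpl.VI T, BSpl.sig r k (BSpl.nbrs T v).card : ℕ) : ℤ) := by
      rw [h3]
    push_cast at h7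
    linarith

/-- `r = 2`, every degree -/
theorem r2_all {T : Finset (Finset V)} (hT : Disc T) {p₀ : V × Fin 2 → ℝ} (hp₀ : IsTriang p₀ T)
    {k : ℕ} (hk : 3 ≤ k) : ∃ d : ℕ, GenMax 2 k T d := by
  by_cases h3 : k = 3
  · rw [h3]
    exact case3 hT hp₀
  · by_cases h4 : k = 4
    · rw [h4]
      exact case4 hT hp₀
    · exact case5 hT hp₀ (by norm_num) (by omega) (by omega)

end Pool.Agent.SplD
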